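import Pool.Agent.J4.H45.PM.Seq

/-!
# Finitely many observables in the uniform closure
-/

set_option autoImplicit false

open Set Filter Topology MeasureTheory
open scoped Real NNReal
open Pool.Agent.Y262.QE Pool.Agent.J4.H45.PS

noncomputable section

namespace Pool.Agent.J4.H45.PM

variable {M : Type} [MetricSpace M] [CompactSpace M] [MeasurableSpace M] [BorelSpace M]
  [Nonempty M] {D : Data M} {μ : Measure M}

/-- **Finitely many observables.** -/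
theorem fin4 (hD : D.IsSurf μ) {F : Type} [AddCommGroup F] [Module ℝ F] [TopologicalSpace F]
    [IsTopologicalAddGroup F] [ContinuousSMul ℝ F]
    (ι : F →ₗ[ℝ] (Fin D.N → ℂ → ℂ →L[ℝ] ℂ)) (hι : ∀ φ, IsField D (ι φ))
    {u : F → ℕ → M → ℝ} {G : F → ℕ → M → ℂ} {lam : F → ℕ → ℝ}
    (hb : ∀ φ, Le D (ι φ) (1 / 2) →
      IsEigenbasis (fr D (cof D (ι φ))) (ar D μ (ι φ)) (u φ) (G φ) (lam φ))
    {m : ℕ} (h : Fin m → Fin D.N → ℂ → ℂ →L[ℝ] ℂ) (hh : ∀ l, IsField D (h l))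
    (hcl : ∀ l, ∀ κ : ℝ, 0 < κ → ∃ φ, Le D (h l - ι φ) κ) (V : Set F) (hV : V ∈ 𝓝 (0 : F))
    (ε : ℝ) (hε : 0 < ε) :
    ∃ J : ℕ, ∀ j, J ≤ j → ∃ φ ∈ V, Le D (ι φ) ε ∧ Le D (ι φ) (1 / 2) ∧
      ∃ (r : ℕ) (v : Fin r → M → ℝ) (g : Fin r → M → ℂ) (c : Fin r → ℝ),
        r * (r + 1) / 2 ≤ m + 1 ∧
        IsMixed (fr D (cof D (ι φ))) (ar D μ (ι φ)) (lam φ j) r v g c ∧
        (∀ l, |obs D (h l) (ar D μ (ι φ)) (lam φ j) g c - mn D (h l) μ / 2| < ε) ∧
        ∀ l, ∀ β : M → ℝ, Continuous β → h l = sc D β →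
          |mass β (ar D μ (ι φ)) v c - (∫ x, β x ∂μ) / μ.real univ| < ε := by
  classical
  obtain ⟨hfin, hpos⟩ := tFin M μ D hD
  haveI := hfin
  have hZ0 : 0 < μ.real univ :=
    ENNReal.toReal_pos (hpos univ isOpen_univ univ_nonempty).ne' (measure_ne_top _ _)
  have hcov := hD.cover
  choose ψ hψ using fun l => hcl l (ε / 8) (by positivity)
  have hc2 : ∀ l, Continuous fun x => trf D (h l) x / 2 := fun l =>
    (field_facts hD (hh l)).2.1.div_const 2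
  choose Λ hΛ0 hΛ using fun l => comm_unif hD (hc2 l) (ε := ε / 4) (by positivity)
  have hΛsum0 : 0 ≤ ∑ l, Λ l := Finset.sum_nonneg fun l _ => (hΛ0 l).le
  set ε' : ℝ := min (ε / 8) ((∑ l, Λ l + 1)⁻¹) with hε'
  have hε'0 : 0 < ε' := by positivity
  have hε'1 : ε' ≤ ε / 8 := min_le_left _ _
  have hε'2 : ∑ l, Λ l + 1 ≤ ε'⁻¹ := by
    rw [le_inv_comm₀ (by positivity) hε'0]
    exact min_le_right _ _
  obtain ⟨J, hJ⟩ := fin1 hD ι hι hb ψ V hV ε' hε'0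
  refine ⟨J, fun j hj => ?_⟩
  obtain ⟨φ, hφ, hle, hle2, r, v, g, c, hr, hM, hlam, hq⟩ := hJ j hj
  have hlamΛ : ∀ l, Λ l ≤ lam φ j := fun l => by
    have h1 := Finset.single_le_sum (f := Λ) (fun l _ => (hΛ0 l).le) (Finset.mem_univ l)
    linarith
  have hlam0 : 0 < lam φ j := (inv_pos.2 hε'0).trans_le hlam
  have hmain : ∀ l, |obs D (h l) (ar D μ (ι φ)) (lam φ j) g c - mn D (h l) μ / 2| ≤
      3 * ε / 8 := by
    intro l
    have h6 := obs_close hD (hι φ) hle2 (hh l) (hι (ψ l)) (hψ l) hlam0 hM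
    obtain ⟨fm, -, C, -, hC, -⟩ := field_facts hD (hh l)
    obtain ⟨fm', -, C', -, hC', -⟩ := field_facts hD (hι (ψ l))
    have h7 := mn_close hcov (hψ l) (m := μ) hZ0 fm fm' hC hC'
    have h5 := hq l
    rw [abs_le] at h5 h6 h7 ⊢
    constructor <;> linarith [h5.1, h5.2, h6.1, h6.2, h7.1, h7.2]
  refine ⟨φ, hφ, fun i z hz w => (hle i z hz w).trans
    (mul_le_mul_of_nonneg_right (by linarith) (norm_nonneg _)), hle2, r, v, g, c, hr, hM,
    fun l => (hmain l).trans_lt (by linarith), fun l β hβ hlβ => ?_⟩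
  have e1 : ∀ x, trf D (h l) x / 2 = β x := by
    intro x
    rw [hlβ, sc_trf hD]
    ring
  have h2 : |mass β (ar D μ (ι φ)) v c - obs D (sc D β) (ar D μ (ι φ)) (lam φ j) g c| ≤
      ε / 4 := by
    unfold mass obs
    refine conv_le hM.pos hM.sum fun p => ?_
    simp only [sc_qq hD]
    have := hΛ l (ι φ) (hι _) hle2 (lam φ j) (v p) (g p) (hlamΛ l) (hM.pair p) (hM.norm p)
    simp only [e1] at this
    exact this
  have h3 := hmain l
  rw [hlβ, sc_mn hD] at h3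
  rw [abs_le] at h2 h3
  rw [abs_lt]
  constructor <;> linarith [h2.1, h2.2, h3.1, h3.2]

end Pool.Agent.J4.H45.PM
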