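import Pool.Agent.J4.H45.PM.Lin
import Pool.Agent.J4.H84.QM.Sep

/-!
# Mixed states at a critical parameter of a family of metrics

(The uniform estimate, the minimum with a penalty and the use of the separation theorem follow the
conformal case, which is due to helper84.)
-/

set_option autoImplicit false

open Set Filter Topology MeasureTheory
open scoped Real NNReal
open Pool.Agent.Y262.QE Pool.Agent.J4.H45.PS

noncomputable section

namespace Pool.Agent.J4.H45.PM

theorem unif {E : Type} [NormedAddCommGroup E] [ProperSpace E] (L : ℕ → E → ℝ) (C : ℝ)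
    (hL : ∀ j s t, |L j s - L j t| ≤ C * ‖s - t‖)
    (h0 : ∀ t, Tendsto (fun j => L j t) atTop (𝓝 0)) (δ η : ℝ) (hη : 0 < η) :
    ∃ J : ℕ, ∀ j, J ≤ j → ∀ t, ‖t‖ ≤ δ → |L j t| ≤ η := by
  set ρ : ℝ := η / (2 * (|C| + 1)) with hρ
  have hρ0 : 0 < ρ := by positivity
  obtain ⟨T, hTb, hTf, hT⟩ := (isCompact_closedBall (0 : E) δ).finite_cover_balls hρ0
  have h1 : ∀ᶠ j in atTop, ∀ x ∈ T, |L j x| < η / 2 := by
    rw [eventually_all_finite hTf]
    intro x _
    have h2 := (h0 x).abs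
    rw [abs_zero] at h2
    exact h2.eventually_lt_const (by positivity)
  obtain ⟨J, hJ⟩ := eventually_atTop.1 h1
  refine ⟨J, fun j hj t ht => ?_⟩
  obtain ⟨x, hx, hxt⟩ := mem_iUnion₂.1 (hT (mem_closedBall_zero_iff.2 ht))
  have h2 := hJ j hj x hx
  have h3 := hL j t x
  have h4 : ‖t - x‖ < ρ := by rwa [mem_ball_iff_norm] at hxt
  have h5 : C * ‖t - x‖ ≤ η / 2 := by
    have h6 : C * ‖t - x‖ ≤ (|C| + 1) * ρ := by
      refine mul_le_mul ?_ h4.le (norm_nonneg _) (by positivity)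
      linarith [le_abs_self C]
    have h7 : (|C| + 1) * ρ = η / 2 := by
      rw [hρ]
      field_simp
    linarith
  have h6 : |L j t| ≤ |L j t - L j x| + |L j x| := by
    have := abs_add_le (L j t - L j x) (L j x)
    rwa [sub_add_cancel] at this
  linarith

theorem exmin {E : Type} [NormedAddCommGroup E] [ProperSpace E] (L : E → ℝ) (hc : Continuous L)
    (δ η : ℝ) (hδ : 0 < δ) (hη : 2 * η < δ ^ 2) (h : ∀ t, ‖t‖ ≤ δ → |L t| ≤ η) :
    ∃ t, ‖t‖ < δ ∧ ∀ t', ‖t'‖ ≤ δ → L t + ‖t‖ ^ 2 ≤ L t' + ‖t'‖ ^ 2 := by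
  have hcc : ContinuousOn (fun t => L t + ‖t‖ ^ 2) (Metric.closedBall (0 : E) δ) :=
    (hc.add (continuous_norm.pow 2)).continuousOn
  obtain ⟨t, ht, hmin⟩ := (isCompact_closedBall (0 : E) δ).exists_isMinOn
    ⟨0, mem_closedBall_zero_iff.2 (by rw [norm_zero]; exact hδ.le)⟩ hcc
  have ht' : ‖t‖ ≤ δ := mem_closedBall_zero_iff.1 ht
  have hmin' : ∀ t', ‖t'‖ ≤ δ → L t + ‖t‖ ^ 2 ≤ L t' + ‖t'‖ ^ 2 := fun t' h' =>
    hmin (mem_closedBall_zero_iff.2 h')
  refine ⟨t, ?_, hmin'⟩
  have h1 := hmin' 0 (by rw [norm_zero]; exact hδ.le)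
  rw [norm_zero] at h1
  have h2 := abs_le.1 (h t ht')
  have h3 := abs_le.1 (h 0 (by rw [norm_zero]; exact hδ.le))
  by_contra hne
  have h4 : ‖t‖ = δ := le_antisymm ht' (not_lt.1 hne)
  rw [h4] at h1
  nlinarith [h2.1, h3.2]

section rep

/-- coefficients in the cluster -/
theorem rep {l : ℕ → ℝ} (j : ℕ) (S : Finset ℕ) (hS : ∀ p, p ∈ S ↔ l p = l j)
    (c : Fin (j + 1) → ℝ) (hc : ∀ p, c p ≠ 0 → l p = l j) :
    ∃ x : EuclideanSpace ℝ S, (∀ (V : Type) [AddCommGroup V] [Module ℝ V] (X : ℕ → V),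
      ∑ p, c p • X p = ∑ p : S, x p • X p) ∧ ∑ p, c p ^ 2 = ‖x‖ ^ 2 := by
  classical
  set a : ℕ → ℝ := fun p => if h : p < j + 1 then c ⟨p, h⟩ else 0 with ha
  have ha1 : ∀ p : Fin (j + 1), a p = c p := fun p => by
    simp only [ha]
    rw [dif_pos p.2]
  have ha2 : ∀ p, p ∉ Finset.range (j + 1) → a p = 0 := fun p hp => by
    simp only [ha]
    rw [dif_neg (by simpa using hp)]
  have ha3 : ∀ p, p ∉ S → a p = 0 := fun p hp => by
    by_contra hcon
    by_cases h : p < j + 1
    · have h2 : c ⟨p, h⟩ ≠ 0 := by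
        simp only [ha] at hcon
        rwa [dif_pos h] at hcon
      exact hp ((hS p).2 (hc _ h2))
    · exact hcon (ha2 p (by simpa using h))
  have key : ∀ (V : Type) [AddCommMonoid V] (f : ℕ → V), (∀ p, a p = 0 → f p = 0) →
      ∑ p : Fin (j + 1), f p = ∑ p : S, f p := by
    intro V _ f hf
    rw [← Finset.sum_range (fun p => f p), Finset.sum_coe_sort S (fun p => f p)]
    exact Finset.sum_congr_of_eq_on_inter (fun p _ hp => hf p (ha3 p hp))
      (fun p _ hp => hf p (ha2 p hp)) fun p _ _ => rfl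
  refine ⟨WithLp.toLp 2 fun p => a p, fun V _ _ X => ?_, ?_⟩
  · have h1 := key V (fun p => a p • X p) fun p hp => by rw [hp, zero_smul]
    simp only [ha1] at h1
    exact h1
  · have h1 := key ℝ (fun p => a p ^ 2) fun p hp => by rw [hp]; ring
    simp only [ha1] at h1
    rw [h1, EuclideanSpace.norm_sq_eq]
    refine Finset.sum_congr rfl fun p _ => ?_
    simp

end rep

section forms

variable {M : Type} [MetricSpace M] [CompactSpace M] [MeasurableSpace M] [BorelSpace M]
  [Nonempty M] {E : Type*} [NormedAddCommGroup E] [NormedSpace ℝ E] {D : Data M}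
  {A : E → Fin D.N → ℂ → ℂ →L[ℝ] ℂ} {B : E → E →ₗ[ℝ] (Fin D.N → ℂ → ℂ →L[ℝ] ℂ)} {K : ℝ}
  {μ : E → Measure M}

/-- the bilinear density of the kinetic part -/
def bG (f : ℂ →L[ℝ] ℂ) : ℂ →ₗ[ℝ] ℂ →ₗ[ℝ] ℝ :=
  LinearMap.mk₂ ℝ (fun W W' => tr f * inner ℝ W W' - inner ℝ W (f W') - inner ℝ W' (f W))
    (fun x y z => by
      rw [inner_add_left, inner_add_left, map_add, inner_add_right]; ring)
    (fun c x y => by
      rw [real_inner_smul_left, real_inner_smul_left, map_smul, real_inner_smul_right, smul_eq_mul]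
      ring)
    (fun x y z => by
      rw [inner_add_right, map_add, inner_add_right, inner_add_left]; ring)
    (fun c x y => by
      rw [real_inner_smul_right, map_smul, real_inner_smul_right, real_inner_smul_left, smul_eq_mul]
      ring)

theorem bG_apply (f : ℂ →L[ℝ] ℂ) (W W' : ℂ) :
    bG f W W' = tr f * inner ℝ W W' - inner ℝ W (f W') - inner ℝ W' (f W) := rfl

/-- the bilinear density of the potential part -/
def bV (a : ℝ) : ℝ →ₗ[ℝ] ℝ →ₗ[ℝ] ℝ :=
  LinearMap.mk₂ ℝ (fun v v' => a * (v * v')) (fun x y z => by ring)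
    (fun c x y => by rw [smul_eq_mul, smul_eq_mul]; ring) (fun x y z => by ring)
    (fun c x y => by rw [smul_eq_mul, smul_eq_mul]; ring)

theorem bV_apply (a v v' : ℝ) : bV a v v' = a * (v * v') := rfl

/-- the matrix of the form -/
def km (D : Data M) (b : Fin D.N → ℂ → ℂ →L[ℝ] ℂ) (m : Measure M) (l : ℝ) (u : ℕ → M → ℝ)
    (G : ℕ → M → ℂ) (S : Finset ℕ) (p q : S) : ℝ :=
  ∫ x, bV (trf D b x) (u p x) (u q x) ∂m - l⁻¹ * ∫ x, bG (fldx D b x) (G p x) (G q x) ∂m

theorem km_eq (h : IsFamily D A B K) (hS : ∀ s, (fr D (A s)).IsSurf (μ s)) (s w : E)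
    {u : ℕ → M → ℝ} {G : ℕ → M → ℂ} (hu : ∀ p, MemLp (u p) 2 (μ s))
    (hG : ∀ p, MemLp (G p) 2 (μ s)) (l : ℝ) (S : Finset ℕ) (y : EuclideanSpace ℝ S) :
    mat (km D (B s w) (μ s) l u G S) y y =
      PS.kap D (B s w) (μ s) (fun x => ∑ p : S, y p • u p x) (fun x => ∑ p : S, y p • G p x) l := by
  obtain ⟨f1, f2, f3, -⟩ := fam_facts h hS s w
  have hc := (hS s).cover
  have hK := mul_nonneg h.nonneg (norm_nonneg w)
  have q1 : QD (μ s) (fun (x : M) (v : ℝ) => trf D (B s w) x * ‖v‖ ^ 2) (2 * (K * ‖w‖)) :=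
    QD_wt f1 (by positivity) f2
  rw [kap_eq (D := D) hc]
  have e1 := quad_bil q1 (fun x => bV (trf D (B s w) x)) (fun x W => by
      rw [bV_apply, Real.norm_eq_abs, sq_abs, sq]) (fun x W W' => by
      rw [bV_apply, bV_apply, mul_comm W W']) (fun p : S => u p) (fun p => hu p) (fun p => y p)
  have e2 := quad_bil (f3 (μ s)) (fun x => bG (fldx D (B s w) x)) (fun x W => by
      rw [bG_apply, qd_x (D := D) hc, real_inner_self_eq_norm_sq]; ring) (fun x W W' => by
      rw [bG_apply, bG_apply, real_inner_comm W W']; ring) (fun p : S => G p) (fun p => hG p)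
      (fun p => y p)
  rw [e1, e2, mat_apply, Finset.mul_sum, ← Finset.sum_sub_distrib]
  refine Finset.sum_congr rfl fun p _ => ?_
  rw [Finset.mul_sum, ← Finset.sum_sub_distrib]
  refine Finset.sum_congr rfl fun q _ => ?_
  unfold km
  ring

end forms

section crit

variable {M : Type} [MetricSpace M] [CompactSpace M] [MeasurableSpace M] [BorelSpace M]
  [Nonempty M]

theorem fam_area {E : Type*} [NormedAddCommGroup E] [NormedSpace ℝ E] {D : Data M}
    {A : E → Fin D.N → ℂ → ℂ →L[ℝ] ℂ} {B : E → E →ₗ[ℝ] (Fin D.N → ℂ → ℂ →L[ℝ] ℂ)} {K : ℝ}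
    {μ : E → Measure M} (h : IsFamily D A B K) (hS : ∀ s, (fr D (A s)).IsSurf (μ s)) (s w : E) :
    0 < (μ s).real univ ∧
      HasDerivAt (fun t : ℝ => Real.log ((μ (s + t • w)).real univ)) (mn D (B s w) (μ s)) 0 := by
  obtain ⟨h1, h2⟩ := area (fam_path h s w) (μ := fun t : ℝ => μ (s + t • w)) (fun t => hS _) 0
  have h3 := h2.log h1.ne'
  simp only [zero_smul, add_zero] at h1 h3
  exact ⟨h1, h3⟩

theorem dirn {E : Type*} [NormedAddCommGroup E] [NormedSpace ℝ E] {D : Data M}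
    {A : E → Fin D.N → ℂ → ℂ →L[ℝ] ℂ} {B : E → E →ₗ[ℝ] (Fin D.N → ℂ → ℂ →L[ℝ] ℂ)} {K : ℝ}
    {μ : E → Measure M} {u : E → ℕ → M → ℝ} {G : E → ℕ → M → ℂ} {lam : E → ℕ → ℝ}
    (h : IsFamily D A B K) (hS : ∀ s, (fr D (A s)).IsSurf (μ s))
    (hb : ∀ s, IsEigenbasis (fr D (A s)) (μ s) (u s) (G s) (lam s)) (t w : E) (j : ℕ)
    (hpos : ∀ s, 0 < lam s j) (u₀ ρ C' δ : ℝ) (hδ : 0 < δ)
    (hu : ∀ c : Fin (j + 1) → ℝ, (∀ p, c p ≠ 0 → lam t p = lam t j) →
      u₀ * (lam t j * ∑ p, c p ^ 2) ≤ lam t j * ∫ x, trf D (B t w) x * ‖∑ p, c p • u t p x‖ ^ 2 ∂μ t -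
        ∫ x, qd D (B t w) x (∑ p, c p • G t p x) ∂μ t)
    (hmin : ∀ τ : ℝ, 0 < τ → τ < δ →
      Real.log (lam t j) + Real.log ((μ t).real univ) ≤
      Real.log (lam (t + τ • w) j) + Real.log ((μ (t + τ • w)).real univ) + ρ * τ + C' * τ ^ 2) :
    u₀ ≤ mn D (B t w) (μ t) + ρ := by
  refine le_of_forall_pos_le_add fun ε hε => ?_
  have hlt := hpos t
  have hder := der2 (fam_path h t w) (μ := fun r : ℝ => μ (t + r • w))
    (u := fun r : ℝ => u (t + r • w)) (G := fun r : ℝ => G (t + r • w))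
    (lam := fun r : ℝ => lam (t + r • w)) (fun r => hS _) (fun r => hb _) 0 j
  simp only [zero_smul, add_zero, zero_add] at hder
  obtain ⟨δ₁, hδ₁, h1⟩ := hder hlt u₀ hu (mul_pos hε hlt)
  have hup : ∀ τ : ℝ, 0 < τ → τ < min δ δ₁ → (u₀ - ε - ρ) - C' * τ ≤
      τ⁻¹ * (Real.log ((μ (t + τ • w)).real univ) - Real.log ((μ t).real univ)) := by
    intro τ hτ hτδ
    have h2 := h1 τ hτ (hτδ.trans_le (min_le_right _ _))
    have h3 : lam t j * (1 - u₀ * τ) + ε * lam t j * τ = lam t j * (1 - (u₀ - ε) * τ) := by ring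
    rw [h3] at h2
    have h4 : 0 < 1 - (u₀ - ε) * τ := by
      have h5 := (hpos (t + τ • w)).trans_le h2
      exact (pos_iff_pos_of_mul_pos h5).1 hlt
    have h5 := Real.log_le_log (hpos _) h2
    rw [Real.log_mul hlt.ne' h4.ne'] at h5
    have h6 := Real.log_le_sub_one_of_pos h4
    have h7 := hmin τ hτ (hτδ.trans_le (min_le_left _ _))
    rw [inv_mul_eq_div, le_div_iff₀ hτ]
    nlinarith
  have hd := (fam_area h hS t w).2
  have hs := hd.tendsto_slope_zero_right
  have hlim : Tendsto (fun τ : ℝ => (u₀ - ε - ρ) - C' * τ) (𝓝[>] 0) (𝓝 ((u₀ - ε - ρ) - C' * 0)) := by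
    refine Tendsto.mono_left ?_ nhdsWithin_le_nhds
    exact (by fun_prop : Continuous fun τ : ℝ => (u₀ - ε - ρ) - C' * τ).tendsto 0
  have hle := le_of_tendsto_of_tendsto hlim hs (by
    have h1 : Ioo (0 : ℝ) (min δ δ₁) ∈ 𝓝[>] (0 : ℝ) := Ioo_mem_nhdsGT (lt_min hδ hδ₁)
    filter_upwards [h1] with τ hτ
    have h2 := hup τ hτ.1 hτ.2
    simpa using h2)
  rw [mul_zero, sub_zero] at hle
  linarith

/-- **The critical point.** -/
theorem crit {m : ℕ} {D : Data M}
    {A : EuclideanSpace ℝ (Fin m) → Fin D.N → ℂ → ℂ →L[ℝ] ℂ}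
    {B : EuclideanSpace ℝ (Fin m) → EuclideanSpace ℝ (Fin m) →ₗ[ℝ] (Fin D.N → ℂ → ℂ →L[ℝ] ℂ)}
    {K : ℝ} {μ : EuclideanSpace ℝ (Fin m) → Measure M}
    {u : EuclideanSpace ℝ (Fin m) → ℕ → M → ℝ} {G : EuclideanSpace ℝ (Fin m) → ℕ → M → ℂ}
    {lam : EuclideanSpace ℝ (Fin m) → ℕ → ℝ}
    (h : IsFamily D A B K) (hS : ∀ s, (fr D (A s)).IsSurf (μ s))
    (hb : ∀ s, IsEigenbasis (fr D (A s)) (μ s) (u s) (G s) (lam s)) (δ : ℝ) (hδ : 0 < δ) :
    ∃ J : ℕ, ∀ j, J ≤ j → ∃ t : EuclideanSpace ℝ (Fin m), ‖t‖ < δ ∧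
      ∃ (r : ℕ) (v : Fin r → M → ℝ) (g : Fin r → M → ℂ) (c : Fin r → ℝ),
        r * (r + 1) / 2 ≤ m + 1 ∧ (∀ p, IsPair (fr D (A t)) (μ t) (lam t j) (v p) (g p)) ∧
        (∀ p p', ∫ x, v p x * v p' x ∂μ t = if p = p' then 1 else 0) ∧ (∀ p, 0 < c p) ∧
        ∑ p, c p = 1 ∧
        ∀ l, ∑ p, c p * PS.kap D (B t (EuclideanSpace.single l 1)) (μ t) (v p) (g p) (lam t j) =
          mn D (B t (EuclideanSpace.single l 1)) (μ t) + 2 * t l := by
  classical
  have hK := h.nonneg
  have hA : ∀ s, 0 < (μ s).real univ := fun s => (fam_area h hS s 0).1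
  have hW : ∀ s, Tendsto (fun j : ℕ => lam s j / (j + 1)) atTop (𝓝 (4 * π / (μ s).real univ)) := by
    intro s
    obtain ⟨a, b, -, -, -, -, hw⟩ := pack (μ s) (fr D (A s)) (hS s) (u s) (lam s) (basis_eig (hb s))
    exact hw
  obtain ⟨J₀, hJ₀⟩ : ∃ J : ℕ, ∀ j, J ≤ j → ∀ s, 0 < lam s j := by
    obtain ⟨J, hJ⟩ := eventually_atTop.1 ((lam_top (hS 0) (hb 0)).eventually_gt_atTop 0)
    refine ⟨J, fun j hj s => ?_⟩
    have h5 := (hJ j hj).trans_le (lip_fam h hS hb j 0 s)
    exact (pos_iff_pos_of_mul_pos h5).1 (Real.exp_pos _)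
  set L : ℕ → EuclideanSpace ℝ (Fin m) → ℝ := fun j s =>
    Real.log (lam s j / (j + 1)) - Real.log (4 * π / (μ s).real univ) with hL
  have hpi : (0 : ℝ) < 4 * π := by positivity
  have hj1 : ∀ j : ℕ, (0 : ℝ) < j + 1 := fun j => by positivity
  have hlog : ∀ s, Tendsto (fun j : ℕ => Real.log (lam s j / (j + 1))) atTop
      (𝓝 (Real.log (4 * π / (μ s).real univ))) := fun s =>
    (hW s).log (div_pos hpi (hA s)).ne'
  have hl1 : ∀ j, J₀ ≤ j → ∀ s t, |Real.log (lam s j / (j + 1)) - Real.log (lam t j / (j + 1))| ≤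
      6 * K * ‖s - t‖ := by
    intro j hj s t
    rw [Real.log_div (hJ₀ j hj _).ne' (hj1 j).ne', Real.log_div (hJ₀ j hj _).ne' (hj1 j).ne',
      sub_sub_sub_cancel_right]
    have h1 := (lip_log_fam h hS hb j (hJ₀ j hj)).dist_le_mul s t
    rwa [Real.dist_eq, dist_eq_norm, Real.coe_toNNReal _ (by positivity)] at h1
  have hl2 : ∀ s t, |Real.log (4 * π / (μ s).real univ) - Real.log (4 * π / (μ t).real univ)| ≤
      6 * K * ‖s - t‖ := fun s t =>
    le_of_tendsto ((hlog s).sub (hlog t)).abs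
      ((eventually_ge_atTop J₀).mono fun j hj => hl1 j hj s t)
  have hlip : ∀ j, J₀ ≤ j → ∀ s t, |L j s - L j t| ≤ (12 * K) * ‖s - t‖ := by
    intro j hj s t
    have e1 : L j s - L j t =
        (Real.log (lam s j / (j + 1)) - Real.log (lam t j / (j + 1))) -
        (Real.log (4 * π / (μ s).real univ) - Real.log (4 * π / (μ t).real univ)) := by
      simp only [hL]
      ring
    rw [e1]
    refine (abs_sub _ _).trans ?_
    linarith [hl1 j hj s t, hl2 s t]
  have hlim : ∀ t, Tendsto (fun j => L (j + J₀) t) atTop (𝓝 0) := by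
    intro t
    have h1 := (hlog t).sub_const (Real.log (4 * π / (μ t).real univ))
    rw [sub_self] at h1
    exact (tendsto_add_atTop_iff_nat (f := fun j => L j t) J₀).2 h1
  obtain ⟨J₁, hJ₁⟩ := unif (fun j => L (j + J₀)) (12 * K) (fun j s t => hlip _ (by omega) s t) hlim
    δ (δ ^ 2 / 4) (by positivity)
  refine ⟨J₁ + J₀, fun j hj => ?_⟩
  have hjJ : J₀ ≤ j := by omega
  have hpos := hJ₀ j hjJ
  have hLc : Continuous (L j) := by
    refine (LipschitzWith.of_dist_le_mul (K := Real.toNNReal (12 * K)) fun s t => ?_).continuous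
    rw [Real.dist_eq, dist_eq_norm, Real.coe_toNNReal _ (by positivity)]
    exact hlip j hjJ s t
  have hLs : ∀ t, ‖t‖ ≤ δ → |L j t| ≤ δ ^ 2 / 4 := by
    have h1 := hJ₁ (j - J₀) (by omega)
    simp only [Nat.sub_add_cancel hjJ] at h1
    exact h1
  obtain ⟨t, ht, hmin⟩ := exmin (L j) hLc δ (δ ^ 2 / 4) hδ (by nlinarith [sq_pos_of_pos hδ]) hLs
  refine ⟨t, ht, ?_⟩
  have hfinS : {l | lam t l = lam t j}.Finite := by
    obtain ⟨N, hN⟩ := eventually_atTop.1 ((lam_top (hS t) (hb t)).eventually_gt_atTop (lam t j))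
    refine (Set.finite_lt_nat N).subset fun l hl => ?_
    by_contra h
    have h1 := hN l (not_lt.1 h)
    rw [(hl : lam t l = lam t j)] at h1
    exact lt_irrefl _ h1
  set S : Finset ℕ := hfinS.toFinset with hSd
  have hSm : ∀ l, l ∈ S ↔ lam t l = lam t j := fun l => by rw [hSd]; simp
  have hbu : ∀ p, MemLp (u t p) 2 (μ t) := fun p => ((hb t).eig p).mem
  have hbG := (hb t).memG
  have hkm : ∀ w (y : EuclideanSpace ℝ S), mat (km D (B t w) (μ t) (lam t j) (u t) (G t) S) y y =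
      PS.kap D (B t w) (μ t) (fun x => ∑ p : S, y p • u t p x) (fun x => ∑ p : S, y p • G t p x)
        (lam t j) := fun w y => km_eq h hS t w hbu hbG (lam t j) S y
  have mu : ∀ y : EuclideanSpace ℝ S, MemLp (fun x => ∑ p : S, y p • u t p x) 2 (μ t) := fun y =>
    memLp_finsetSum _ fun p _ => (hbu _).const_smul (y p)
  have mG : ∀ y : EuclideanSpace ℝ S, MemLp (fun x => ∑ p : S, y p • G t p x) 2 (μ t) := fun y =>
    memLp_finsetSum _ fun p _ => (hbG _).const_smul (y p)
  -- linearity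
  have hsum : ∀ (f : EuclideanSpace ℝ (Fin m) → ℝ), (∀ α β w w', f (α • w + β • w') =
      α * f w + β * f w') → ∀ s : EuclideanSpace ℝ (Fin m),
      f s = ∑ l, s l * f (EuclideanSpace.single l 1) := by
    intro f hf s
    let F : EuclideanSpace ℝ (Fin m) →ₗ[ℝ] ℝ :=
      { toFun := f
        map_add' := fun w w' => by
          have := hf 1 1 w w'
          simpa using this
        map_smul' := fun c w => by
          have := hf c 0 w 0
          simpa using this }
    have h1 : s = ∑ l, s l • EuclideanSpace.single l (1 : ℝ) := by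
      have := (EuclideanSpace.basisFun (Fin m) ℝ).sum_repr s
      simp only [EuclideanSpace.basisFun_repr, EuclideanSpace.basisFun_apply] at this
      exact this.symm
    have h2 : F s = ∑ l, s l * F (EuclideanSpace.single l 1) := by
      conv_lhs => rw [h1]
      rw [map_sum]
      exact Finset.sum_congr rfl fun l _ => by rw [map_smul, smul_eq_mul]
    exact h2
  obtain ⟨r, w, c, hr, hw, hc0, hc1, hq⟩ := Pool.Agent.J4.H84.QM.sepo
    (fun l : Fin m => mat (km D (B t (EuclideanSpace.single l 1)) (μ t) (lam t j) (u t) (G t) S))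
    (fun l => mat_cont _)
    (fun l => mn D (B t (EuclideanSpace.single l 1)) (μ t) + 2 * t l) (by
      intro s u₀ hu
      set s' : EuclideanSpace ℝ (Fin m) := WithLp.toLp 2 s with hs'
      have hs'l : ∀ l, s' l = s l := fun l => rfl
      have hmns : mn D (B t s') (μ t) = ∑ l, s l * mn D (B t (EuclideanSpace.single l 1)) (μ t) :=
        hsum (fun w => mn D (B t w) (μ t)) (fun α β w w' => mn_lin h hS t α β w w') s'
      have hkaps : ∀ y : EuclideanSpace ℝ S,
          PS.kap D (B t s') (μ t) (fun x => ∑ p : S, y p • u t p x)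
            (fun x => ∑ p : S, y p • G t p x) (lam t j) =
          ∑ l, s l * mat (km D (B t (EuclideanSpace.single l 1)) (μ t) (lam t j) (u t) (G t) S)
            y y := by
        intro y
        simp only [hkm]
        exact hsum (fun w => PS.kap D (B t w) (μ t) (fun x => ∑ p : S, y p • u t p x)
            (fun x => ∑ p : S, y p • G t p x) (lam t j))
          (fun α β w w' => kap_lin h hS t (mu y) (mG y) _ α β w w') s'
      -- the form is at least `u₀`
      have hlow : ∀ y : EuclideanSpace ℝ S, u₀ * ‖y‖ ^ 2 ≤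
          PS.kap D (B t s') (μ t) (fun x => ∑ p : S, y p • u t p x)
            (fun x => ∑ p : S, y p • G t p x) (lam t j) := by
        intro y
        by_cases hy : y = 0
        · subst hy
          rw [hkaps]
          simp
        · have hyn : 0 < ‖y‖ := norm_pos_iff.2 hy
          have h1 := hu (‖y‖⁻¹ • y) (by
            rw [norm_smul, norm_inv, norm_norm, inv_mul_cancel₀ hyn.ne'])
          rw [hkaps]
          simp only [map_smul, LinearMap.smul_apply, smul_eq_mul] at h1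
          have h2 : ∑ l, s l * (‖y‖⁻¹ * (‖y‖⁻¹ *
              mat (km D (B t (EuclideanSpace.single l 1)) (μ t) (lam t j) (u t) (G t) S) y y)) =
              (‖y‖ ^ 2)⁻¹ * ∑ l, s l *
              mat (km D (B t (EuclideanSpace.single l 1)) (μ t) (lam t j) (u t) (G t) S) y y := by
            rw [Finset.mul_sum]
            refine Finset.sum_congr rfl fun l _ => ?_
            field_simp
          rw [h2, inv_mul_eq_div, le_div_iff₀ (by positivity)] at h1
          exact h1
      have hmain := dirn h hS hb t s' j hpos u₀ (2 * inner ℝ t s') (‖s'‖ ^ 2)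
        ((δ - ‖t‖) / (‖s'‖ + 1)) (div_pos (by linarith) (by positivity)) (by
          intro c hc
          obtain ⟨y, hy1, hy2⟩ := rep j S hSm c hc
          have h1 := hlow y
          rw [kap_eq (D := D) (hS t).cover] at h1
          have e1 : ∀ x, ∑ p, c p • u t p x = ∑ p : S, y p • u t p x := fun x =>
            hy1 ℝ fun p => u t p x
          have e2 : ∀ x, ∑ p, c p • G t p x = ∑ p : S, y p • G t p x := fun x =>
            hy1 ℂ fun p => G t p x
          simp only [e1, e2]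
          rw [hy2]
          have h2 := mul_le_mul_of_nonneg_left h1 (hpos t).le
          have h3 : lam t j * (∫ x, trf D (B t s') x * ‖∑ p : S, y p • u t p x‖ ^ 2 ∂μ t -
              (lam t j)⁻¹ * ∫ x, qd D (B t s') x (∑ p : S, y p • G t p x) ∂μ t) =
              lam t j * ∫ x, trf D (B t s') x * ‖∑ p : S, y p • u t p x‖ ^ 2 ∂μ t -
              ∫ x, qd D (B t s') x (∑ p : S, y p • G t p x) ∂μ t := by
            have := (hpos t).ne'
            field_simp
          rw [h3] at h2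
          linarith)
        (by
          intro τ hτ hτδ
          have h1 : ‖t + τ • s'‖ ≤ δ := by
            refine (norm_add_le _ _).trans ?_
            rw [norm_smul, Real.norm_eq_abs, abs_of_pos hτ]
            rw [lt_div_iff₀ (by positivity)] at hτδ
            nlinarith [norm_nonneg s']
          have h2 := hmin (t + τ • s') h1
          have h3 : ‖t + τ • s'‖ ^ 2 = ‖t‖ ^ 2 + 2 * inner ℝ t s' * τ + ‖s'‖ ^ 2 * τ ^ 2 := by
            rw [norm_add_sq_real, real_inner_smul_right, norm_smul, Real.norm_eq_abs, mul_pow,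
              sq_abs]
            ring
          rw [h3] at h2
          simp only [hL] at h2
          rw [Real.log_div (hpos _).ne' (hj1 j).ne', Real.log_div (hpos _).ne' (hj1 j).ne',
            Real.log_div hpi.ne' (hA _).ne', Real.log_div hpi.ne' (hA _).ne'] at h2
          linarith)
      rw [hmns] at hmain
      refine hmain.trans (le_of_eq ?_)
      have h5 : inner ℝ t s' = ∑ l, s l * t l := by
        rw [PiLp.inner_apply]
        refine Finset.sum_congr rfl fun l _ => ?_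
        simp [hs']
      rw [h5, Finset.mul_sum, ← Finset.sum_add_distrib]
      exact Finset.sum_congr rfl fun l _ => by ring)
  refine ⟨r, fun p x => ∑ q : S, w p q • u t q x, fun p x => ∑ q : S, w p q • G t q x, c, hr,
    fun p => ?_, fun p p' => ?_, hc0, hc1, fun l => ?_⟩
  · have h1 := pair_sum (hS t) (lam := lam t j) (Finset.univ : Finset S) (fun q => u t q)
      (fun q => G t q) (fun q _ => by
        have h2 := basis_pair (hb t) q
        rwa [(hSm q).1 q.2] at h2) (fun q => w p q)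
    simpa only [smul_eq_mul] using h1
  · rw [← hw p p', PiLp.inner_apply]
    have h1 : ∀ x, (∑ q : S, w p q • u t q x) * (∑ q : S, w p' q • u t q x) =
        ∑ q : S, ∑ q' : S, w p q * w p' q' * (u t q x * u t q' x) := by
      intro x
      rw [Finset.sum_mul_sum]
      refine Finset.sum_congr rfl fun q _ => Finset.sum_congr rfl fun q' _ => ?_
      rw [smul_eq_mul, smul_eq_mul]; ring
    simp only [h1]
    have hint : ∀ q q' : ℕ, Integrable (fun x => u t q x * u t q' x) (μ t) := fun q q' =>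
      (hbu q).integrable_mul (hbu q')
    have i2 : ∀ q q' : S, Integrable (fun x => w p q * w p' q' * (u t q x * u t q' x)) (μ t) :=
      fun q q' => (hint q q').const_mul _
    rw [integral_finsetSum _ fun q _ => integrable_finsetSum _ fun q' _ => i2 q q']
    refine Finset.sum_congr rfl fun q _ => ?_
    rw [integral_finsetSum _ fun q' _ => i2 q q']
    rw [Finset.sum_eq_single q]
    · rw [integral_const_mul, (hb t).orth, if_pos rfl]
      simp [mul_comm]
    · intro q' _ hq'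
      rw [integral_const_mul, (hb t).orth, if_neg fun h => hq' (Subtype.ext h.symm), mul_zero]
    · intro h
      exact absurd (Finset.mem_univ q) h
  · rw [← hq l]
    exact Finset.sum_congr rfl fun p _ => by rw [hkm]

end crit

end Pool.Agent.J4.H45.PM
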