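import Pool.Agent.J4.H45.PS.One

/-!
# The right derivative of an eigenvalue inside a cluster
-/

set_option autoImplicit false

open Set Filter Topology MeasureTheory
open scoped Real NNReal
open Pool.Agent.Y262.QE Pool.Agent.Y264.QR Pool.Agent.J4.H45.PS

noncomputable section

namespace Pool.Agent.J4.H45.PM

variable {M : Type} [MetricSpace M] [CompactSpace M] [MeasurableSpace M] [BorelSpace M]
  [Nonempty M] {D : Data M} {A B : ℝ → Fin D.N → ℂ → ℂ →L[ℝ] ℂ} {K : ℝ} {μ : ℝ → Measure M}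
  {u : ℝ → ℕ → M → ℝ} {G : ℝ → ℕ → M → ℂ} {lam : ℝ → ℕ → ℝ}

/-- the part of the coefficients in the cluster of `j` -/
def top (l : ℕ → ℝ) (j : ℕ) (c : Fin (j + 1) → ℝ) (p : Fin (j + 1)) : ℝ :=
  if l p = l j then c p else 0

theorem top_low (l : ℕ → ℝ) (j : ℕ) (c : Fin (j + 1) → ℝ) (e : Fin (j + 1) → ℝ) :
    ∑ p, e p * c p ^ 2 = ∑ p, e p * (c p - top l j c p) ^ 2 + ∑ p, e p * top l j c p ^ 2 := by
  rw [← Finset.sum_add_distrib]
  refine Finset.sum_congr rfl fun p _ => ?_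
  unfold top
  split_ifs <;> ring

theorem der2 (h : IsPath D A B K) (hS : ∀ t, (fr D (A t)).IsSurf (μ t))
    (hb : ∀ t, IsEigenbasis (fr D (A t)) (μ t) (u t) (G t) (lam t)) (t : ℝ) (j : ℕ)
    (hl0 : 0 < lam t j) (u₀ : ℝ)
    (hu : ∀ c : Fin (j + 1) → ℝ, (∀ p, c p ≠ 0 → lam t p = lam t j) →
      u₀ * (lam t j * ∑ p, c p ^ 2) ≤ lam t j * ∫ x, trf D (B t) x * ‖∑ p, c p • u t p x‖ ^ 2 ∂μ t -
        ∫ x, qd D (B t) x (∑ p, c p • G t p x) ∂μ t) {ε : ℝ} (hε : 0 < ε) :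
    ∃ δ : ℝ, 0 < δ ∧ ∀ τ : ℝ, 0 < τ → τ < δ → lam (t + τ) j ≤
      lam t j * (1 - u₀ * τ) + ε * τ := by
  have hK := h.nonneg
  set C : ℝ := 4 * K + 1 with hC
  have hC0 : 0 < C := by positivity
  have hmono : ∀ p : Fin (j + 1), lam t p ≤ lam t j := fun p =>
    (hb t).mono (by have := p.2; omega)
  obtain ⟨g, hg, hgap⟩ : ∃ g : ℝ, 0 < g ∧ ∀ p : Fin (j + 1), lam t p ≠ lam t j →
      lam t p ≤ lam t j - g := by
    have h1 : ∀ p : Fin (j + 1), ∃ g : ℝ, 0 < g ∧ (lam t p ≠ lam t j → lam t p ≤ lam t j - g) := by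
      intro p
      by_cases hp : lam t p = lam t j
      · exact ⟨1, one_pos, fun h => absurd hp h⟩
      · exact ⟨lam t j - lam t p, sub_pos.2 (lt_of_le_of_ne (hmono p) hp), fun _ => by linarith⟩
    choose g hg1 hg2 using h1
    obtain ⟨p₀, -, hp₀⟩ := Finset.exists_min_image Finset.univ g ⟨0, Finset.mem_univ _⟩
    exact ⟨g p₀, hg1 p₀, fun p hp => (hg2 p hp).trans (by linarith [hp₀ p (Finset.mem_univ p)])⟩
  obtain ⟨θ, hθ, ε₁, hε₁, T₀, hT₀, hsc⟩ := scal hl0.le hg hC0 hε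
  obtain ⟨δ₁, hδ₁, hf⟩ := path_first h hS t ε₁ hε₁
  have hbG := (hb t).memG
  have hbu : ∀ p, MemLp (u t p) 2 (μ t) := fun p => ((hb t).eig p).mem
  have Q1 := qd_QD h hS t (μ t)
  have Q2 := wt_meas h hS t
  have nG : ∀ c : Fin (j + 1) → ℝ, ∫ x, ‖∑ p, c p • G t p x‖ ^ 2 ∂μ t =
      ∑ p : Fin (j + 1), lam t p * c p ^ 2 := by
    intro c
    rw [orth_sum (X := fun p : Fin (j + 1) => G t p)
      (e := fun p : Fin (j + 1) => lam t p) (fun p => hbG _) (fun p q => ?_) c]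
    rw [orthG (hS t) (hb t)]
    simp only [Fin.val_inj]
  have nu : ∀ c : Fin (j + 1) → ℝ, ∫ x, ‖∑ p, c p • u t p x‖ ^ 2 ∂μ t = ∑ p, c p ^ 2 := by
    intro c
    have := orth_sum (X := fun p : Fin (j + 1) => u t p)
      (e := fun p : Fin (j + 1) => 1) (fun p => hbu _) (fun p q => by
        rw [orthU (hb t)]
        simp only [Fin.val_inj]) c
    simp only [one_mul] at this
    exact this
  have mG : ∀ c : Fin (j + 1) → ℝ, MemLp (fun x => ∑ p, c p • G t p x) 2 (μ t) := fun c =>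
    memLp_finsetSum _ fun p _ => (hbG _).const_smul (c p)
  have mu : ∀ c : Fin (j + 1) → ℝ, MemLp (fun x => ∑ p, c p • u t p x) 2 (μ t) := fun c =>
    memLp_finsetSum _ fun p _ => (hbu _).const_smul (c p)
  -- the values of the cluster
  have hval : ∀ c : Fin (j + 1) → ℝ, ∃ Ke Le κ : ℝ, |Ke| ≤ C ∧ |κ| ≤ 2 * C ∧
      lam t j * κ = lam t j * Ke - Le ∧ u₀ ≤ κ ∧
      ∫ x, trf D (B t) x * ‖∑ p, top (lam t) j c p • u t p x‖ ^ 2 ∂μ t =
        (∑ p, top (lam t) j c p ^ 2) * Ke ∧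
      ∫ x, qd D (B t) x (∑ p, top (lam t) j c p • G t p x) ∂μ t =
        (∑ p, top (lam t) j c p ^ 2) * Le := by
    intro c
    have htop : ∀ c' : Fin (j + 1) → ℝ, ∀ p, top (lam t) j c' p ≠ 0 → lam t p = lam t j := by
      intro c' p hp
      unfold top at hp
      by_contra hcon
      rw [if_neg hcon] at hp
      exact hp rfl
    have hgen : ∀ c' : Fin (j + 1) → ℝ, (∀ p, c' p ≠ 0 → lam t p = lam t j) →
        0 < ∑ p, c' p ^ 2 → ∃ Ke Le κ : ℝ, |Ke| ≤ C ∧ |κ| ≤ 2 * C ∧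
        lam t j * κ = lam t j * Ke - Le ∧ u₀ ≤ κ ∧
        ∫ x, trf D (B t) x * ‖∑ p, c' p • u t p x‖ ^ 2 ∂μ t = (∑ p, c' p ^ 2) * Ke ∧
        ∫ x, qd D (B t) x (∑ p, c' p • G t p x) ∂μ t = (∑ p, c' p ^ 2) * Le := by
      intro c' hc' hs
      have e1 := quad_bd Q2 (mu c')
      rw [nu] at e1
      have e2 := quad_bd Q1 (mG c')
      rw [nG] at e2
      have e3 : ∑ p : Fin (j + 1), lam t p * c' p ^ 2 = lam t j * ∑ p, c' p ^ 2 := by
        rw [Finset.mul_sum]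
        refine Finset.sum_congr rfl fun p _ => ?_
        by_cases hp : c' p = 0
        · rw [hp]; ring
        · rw [hc' p hp]
      rw [e3] at e2
      have e4 := hu c' hc'
      set s := ∑ p, c' p ^ 2 with hsd
      set X := ∫ x, trf D (B t) x * ‖∑ p, c' p • u t p x‖ ^ 2 ∂μ t with hX
      set Y := ∫ x, qd D (B t) x (∑ p, c' p • G t p x) ∂μ t with hY
      refine ⟨X / s, Y / s, X / s - (lam t j)⁻¹ * (Y / s), ?_, ?_, ?_, ?_, ?_, ?_⟩
      · rw [abs_div, abs_of_pos hs, div_le_iff₀ hs]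
        refine e1.trans ?_
        nlinarith
      · have f1 : |X / s| ≤ 2 * K := by
          rw [abs_div, abs_of_pos hs, div_le_iff₀ hs]
          exact e1
        have f2 : |(lam t j)⁻¹ * (Y / s)| ≤ 4 * K := by
          rw [abs_mul, abs_div, abs_of_pos (inv_pos.2 hl0), abs_of_pos hs,
            inv_mul_le_iff₀ hl0, div_le_iff₀ hs]
          linarith
        refine (abs_sub _ _).trans ?_
        linarith
      · field_simp
      · have f3 : X / s - (lam t j)⁻¹ * (Y / s) = (lam t j * X - Y) / (lam t j * s) := by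
          field_simp
        rw [f3, le_div_iff₀ (mul_pos hl0 hs)]
        exact e4
      · field_simp
      · field_simp
    by_cases h0 : ∑ p, top (lam t) j c p ^ 2 = 0
    · have hz : ∀ p, top (lam t) j c p = 0 := by
        intro p
        have := (Finset.sum_eq_zero_iff_of_nonneg (fun p _ => sq_nonneg _)).1 h0 p
          (Finset.mem_univ p)
        exact pow_eq_zero_iff (two_ne_zero) |>.1 this
      obtain ⟨Ke, Le, κ, k1, k2, k3, k4, -, -⟩ := hgen (fun p => if p = Fin.last j then 1 else 0)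
        (fun p hp => by
          by_cases hp' : p = Fin.last j
          · rw [hp']; rfl
          · simp [hp'] at hp) (by simp)
      refine ⟨Ke, Le, κ, k1, k2, k3, k4, ?_, ?_⟩
      · simp only [hz]
        simp
      · simp only [hz]
        simp only [zero_smul, Finset.sum_const_zero]
        rw [show (∑ p : Fin (j + 1), (0 : ℝ) ^ 2) = 0 by simp, zero_mul]
        have : ∀ x, qd D (B t) x 0 = 0 := Q1.zero
        simp [this]
    · exact hgen _ (htop c) (lt_of_le_of_ne (Finset.sum_nonneg fun p _ => sq_nonneg _) (Ne.symm h0))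
  refine ⟨min T₀ δ₁, lt_min hT₀ hδ₁, fun τ hτ0 hτ => ?_⟩
  have hT : |τ| = τ := abs_of_pos hτ0
  have hτ1 : |τ| < T₀ := by rw [hT]; exact hτ.trans_le (min_le_left _ _)
  have hτ2 : |τ| < δ₁ := by rw [hT]; exact hτ.trans_le (min_le_right _ _)
  have hη : 0 < ε₁ * τ := mul_pos hε₁ hτ0
  obtain ⟨hf1, hf2⟩ : (∀ x, |rho D (A t) (A (t + τ)) x - 1 - τ * trf D (B t) x| ≤ ε₁ * τ) ∧
      ∀ F : M → ℝ, ∀ x, |rho D (A t) (A (t + τ)) x * ‖(fr D (A (t + τ))).gr F x‖ ^ 2 -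
        ‖(fr D (A t)).gr F x‖ ^ 2 - τ * qf D (B t) ((fr D (A t)).gr F) x| ≤
          ε₁ * τ * ‖(fr D (A t)).gr F x‖ ^ 2 := by
    have := hf τ hτ2
    rw [hT] at this
    exact ⟨fun x => (this x).1, fun F x => (this x).2 F⟩
  -- the main inequality
  have key : ∀ c : Fin (j + 1) → ℝ,
      0 ≤ lam t j * (1 - u₀ * τ) + ε * τ ∧ C * τ + 2 * ε₁ * τ ≤ 1 / 2 ∧
      (∑ p : Fin (j + 1), lam t p * c p ^ 2) * (1 + ε₁ * τ) +
        τ * ∫ x, qd D (B t) x (∑ p, c p • G t p x) ∂μ t + ε₁ * τ * ∑ p, c p ^ 2 ≤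
        (lam t j * (1 - u₀ * τ) + ε * τ) * ((∑ p, c p ^ 2) * (1 - 2 * ε₁ * τ) +
          τ * ∫ x, trf D (B t) x * ‖∑ p, c p • u t p x‖ ^ 2 ∂μ t) := by
    intro c
    obtain ⟨Ke, Le, κ, k1, k2, k3, k4, k5, k6⟩ := hval c
    set c' := top (lam t) j c with hc'
    have hlow0 : ∀ p, 0 ≤ (c p - c' p) ^ 2 := fun p => sq_nonneg _
    have hEs : ∑ p : Fin (j + 1), lam t p * (c p - c' p) ^ 2 ≤
        (lam t j - g) * ∑ p, (c p - c' p) ^ 2 := by
      rw [Finset.mul_sum]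
      refine Finset.sum_le_sum fun p _ => ?_
      by_cases hp : lam t p = lam t j
      · have : c p - c' p = 0 := by rw [hc']; unfold top; rw [if_pos hp, sub_self]
        rw [this]; simp
      · exact mul_le_mul_of_nonneg_right (hgap p hp) (hlow0 p)
    have htopE : ∑ p : Fin (j + 1), lam t p * c' p ^ 2 = lam t j * ∑ p, c' p ^ 2 := by
      rw [Finset.mul_sum]
      refine Finset.sum_congr rfl fun p _ => ?_
      rw [hc']
      unfold top
      split_ifs with hp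
      · rw [hp]
      · ring
    have d1 : ∀ x, ∑ p, c p • G t p x - ∑ p, c' p • G t p x =
        ∑ p, (c p - c' p) • G t p x := fun x => by
      rw [← Finset.sum_sub_distrib]
      exact Finset.sum_congr rfl fun p _ => (sub_smul _ _ _).symm
    have d2 : ∀ x, ∑ p, c p • u t p x - ∑ p, c' p • u t p x =
        ∑ p, (c p - c' p) • u t p x := fun x => by
      rw [← Finset.sum_sub_distrib]
      exact Finset.sum_congr rfl fun p _ => (sub_smul _ _ _).symm
    have n1 := quad_near (Q1.mono (by linarith : 4 * K ≤ C)) (mG c) (mG c') hθ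
    simp only [d1] at n1
    rw [nG, nG, k6, htopE] at n1
    have n2 := quad_near (Q2.mono (by linarith : 2 * K ≤ C)) (mu c) (mu c') hθ
    simp only [d2] at n2
    rw [nu, nu, k5] at n2
    obtain ⟨m1, m2, m3⟩ := hsc Ke Le κ τ (∑ p, (c p - c' p) ^ 2) (∑ p, c' p ^ 2)
      (∑ p : Fin (j + 1), lam t p * (c p - c' p) ^ 2)
      (∫ x, qd D (B t) x (∑ p, c p • G t p x) ∂μ t)
      (∫ x, trf D (B t) x * ‖∑ p, c p • u t p x‖ ^ 2 ∂μ t) k1 k2 k3 hτ1
      (Finset.sum_nonneg fun p _ => hlow0 p) (Finset.sum_nonneg fun p _ => sq_nonneg _)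
      (Finset.sum_nonneg fun p _ => mul_nonneg (lam_nonneg (hS t) (hb t) _) (hlow0 p)) hEs
      (by rw [mul_comm (∑ p, c' p ^ 2) (lam t j)]; exact n1) n2
    rw [hT] at m1 m2 m3
    have hΛ : lam t j * (1 - κ * τ) + ε * τ ≤ lam t j * (1 - u₀ * τ) + ε * τ := by
      have : u₀ * τ ≤ κ * τ := mul_le_mul_of_nonneg_right k4 hτ0.le
      have := mul_le_mul_of_nonneg_left (by linarith : 1 - κ * τ ≤ 1 - u₀ * τ) hl0.le
      linarith
    have s1 := top_low (lam t) j c (fun _ => 1)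
    simp only [one_mul] at s1
    have s2 := top_low (lam t) j c (fun p => lam t p)
    rw [← hc'] at s1 s2
    rw [htopE] at s2
    have hpos : 0 ≤ (∑ p, (c p - c' p) ^ 2 + ∑ p, c' p ^ 2) * (1 - 2 * ε₁ * τ) +
        τ * ∫ x, trf D (B t) x * ‖∑ p, c p • u t p x‖ ^ 2 ∂μ t := by
      have b1 := quad_bd Q2 (mu c)
      rw [nu, s1] at b1
      have b2 := (abs_le.1 b1).1
      set Ss := ∑ p, (c p - c' p) ^ 2 + ∑ p, c' p ^ 2 with hSs
      have hSs0 : 0 ≤ Ss := add_nonneg (Finset.sum_nonneg fun p _ => sq_nonneg _)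
        (Finset.sum_nonneg fun p _ => sq_nonneg _)
      have b3 := mul_le_mul_of_nonneg_left b2 hτ0.le
      have b4 : 0 ≤ Ss * (1 - 2 * ε₁ * τ - C * τ) := mul_nonneg hSs0 (by linarith)
      have b5 : 0 ≤ Ss * τ := mul_nonneg hSs0 hτ0.le
      have b6 : 2 * K * (Ss * τ) ≤ C * (Ss * τ) := mul_le_mul_of_nonneg_right (by linarith) b5
      nlinarith
    refine ⟨m1.trans hΛ, m2, ?_⟩
    rw [s2, s1]
    refine m3.trans (mul_le_mul_of_nonneg_right hΛ hpos)
  have C3 := QD.add (QD.add (QD_norm (μ := μ t) (E := ℂ) (M := M)) (Q1.smul τ))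
    ((QD_norm (μ := μ t) (E := ℂ) (M := M)).smul (ε₁ * τ))
  set C₁ : ℝ := 1 + |τ| * (4 * K) + |(ε₁ * τ)| * 1 with hC₁
  have C4 : QD (μ t) (fun (x : M) (w : ℝ) => (1 + τ * trf D (B t) x - ε₁ * τ) * ‖w‖ ^ 2) C₁ := by
    have mβ : Measurable fun x => 1 + τ * trf D (B t) x - ε₁ * τ :=
      (((trf_meas h hS t).const_mul τ).const_add 1).sub_const _
    refine QD_wt mβ C3.nonneg fun x => ?_
    have e1 := trf_bound h (hS t).cover t x
    have e2 : |τ * trf D (B t) x| ≤ |τ| * (4 * K) := by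
      rw [abs_mul]
      exact mul_le_mul_of_nonneg_left (by linarith) (abs_nonneg _)
    have e3 := abs_le.1 e2
    rw [hC₁, abs_le, abs_of_pos hη]
    constructor <;> linarith [e3.1, e3.2]
  have j1 : ∀ c : Fin (j + 1) → ℝ, ∫ x, (‖∑ p, c p • G t p x‖ ^ 2 +
      τ * qd D (B t) x (∑ p, c p • G t p x) +
      ε₁ * τ * ‖∑ p, c p • G t p x‖ ^ 2) ∂μ t =
      (∑ p : Fin (j + 1), lam t p * c p ^ 2) * (1 + ε₁ * τ) +
      τ * ∫ x, qd D (B t) x (∑ p, c p • G t p x) ∂μ t := by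
    intro c
    have i1 : Integrable (fun x => ‖∑ p, c p • G t p x‖ ^ 2) (μ t) := (mG c).norm.integrable_sq
    have i2 := quad_int Q1 (mG c)
    have i3 : Integrable (fun x => ‖∑ p, c p • G t p x‖ ^ 2 +
      τ * qd D (B t) x (∑ p, c p • G t p x)) (μ t) := i1.add (i2.const_mul τ)
    rw [integral_add i3 (i1.const_mul _), integral_add i1 (i2.const_mul τ),
      integral_const_mul, integral_const_mul, nG]
    ring
  have j2 : ∀ c : Fin (j + 1) → ℝ, ∫ x, (1 + τ * trf D (B t) x - ε₁ * τ) *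
      ‖∑ p, c p • u t p x‖ ^ 2 ∂μ t = (∑ p, c p ^ 2) * (1 - ε₁ * τ) +
      τ * ∫ x, trf D (B t) x * ‖∑ p, c p • u t p x‖ ^ 2 ∂μ t := by
    intro c
    have i1 : Integrable (fun x => ‖∑ p, c p • u t p x‖ ^ 2) (μ t) := (mu c).norm.integrable_sq
    have i2 := quad_int Q2 (mu c)
    have e1 : ∀ x, (1 + τ * trf D (B t) x - ε₁ * τ) * ‖∑ p, c p • u t p x‖ ^ 2 =
        (1 - ε₁ * τ) * ‖∑ p, c p • u t p x‖ ^ 2 +
        τ * (trf D (B t) x * ‖∑ p, c p • u t p x‖ ^ 2) := fun x => by ring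
    simp only [e1]
    rw [integral_add (i1.const_mul _) (i2.const_mul τ), integral_const_mul, integral_const_mul, nu]
    ring
  obtain ⟨g1, g2, -⟩ := key 0
  refine trial (hS t) (hS (t + τ)) ⟨_, fun x => (path_comp h hS (t + τ) t x).1⟩ (hb t)
    (basis_eig (hb (t + τ))) j (fun p => p.1) C3 C4 ?_ ?_ _ g1 (ε₁ * τ) hη ?_ ?_
  · intro F hF x
    have := (abs_le.1 (hf2 F x)).2
    rw [qf_eq (D := D) (hS t).cover] at this
    linarith
  · intro x w
    have := (abs_le.1 (hf1 x)).1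
    rw [Real.norm_eq_abs, sq_abs]
    exact mul_le_mul_of_nonneg_right (by linarith) (sq_nonneg _)
  · intro c
    have k1 := (key c).2.2
    have k2 := j2 c
    simp only [smul_eq_mul] at k1 k2
    rw [j1, k2]
    linear_combination k1
  · intro c hc
    have k2 := j2 c
    have hs : 0 < ∑ p, c p ^ 2 := by
      obtain ⟨p, hp⟩ := Function.ne_iff.1 hc
      exact lt_of_lt_of_le (sq_pos_of_ne_zero hp : 0 < c p ^ 2)
        (Finset.single_le_sum (f := fun p => c p ^ 2) (fun p _ => sq_nonneg _) (Finset.mem_univ p))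
    have k3 := quad_bd Q2 (mu c)
    rw [nu] at k3
    have k4 : -(C * τ * ∑ p, c p ^ 2) ≤
        τ * ∫ x, trf D (B t) x * ‖∑ p, c p • u t p x‖ ^ 2 ∂μ t := by
      refine le_trans ?_ (neg_abs_le _)
      rw [abs_mul, neg_le_neg_iff, hT]
      have := mul_le_mul_of_nonneg_left k3 hτ0.le
      refine this.trans ?_
      have : τ * (2 * K * ∑ p, c p ^ 2) = 2 * K * (τ * ∑ p, c p ^ 2) := by ring
      rw [this, mul_assoc C]
      exact mul_le_mul_of_nonneg_right (by linarith) (by positivity)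
    simp only [smul_eq_mul] at k2 k4
    rw [k2]
    have k5 : (C * τ + 2 * ε₁ * τ) * ∑ p, c p ^ 2 ≤ 1 / 2 * ∑ p, c p ^ 2 :=
      mul_le_mul_of_nonneg_right g2 hs.le
    linarith

end Pool.Agent.J4.H45.PM
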