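import Pool.Agent.J4.H45.PM.Sin

/-!
# Estimates which are uniform in the perturbation
-/

set_option autoImplicit false

open Set Filter Topology MeasureTheory
open scoped Real NNReal
open Pool.Agent.Y262.QE Pool.Agent.J4.H45.PS

noncomputable section

namespace Pool.Agent.J4.H45.PM

/-- `h` is at most `κ` -/
def Le {M : Type} (D : Data M) (h : Fin D.N → ℂ → ℂ →L[ℝ] ℂ) (κ : ℝ) : Prop :=
  ∀ i, ∀ z ∈ D.T i, ∀ v, ‖h i z v‖ ≤ κ * ‖v‖

section pt

theorem tr_le {b : ℂ →L[ℝ] ℂ} {κ : ℝ} (h : ∀ v, ‖b v‖ ≤ κ * ‖v‖) : |tr b| ≤ 2 * κ := by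
  unfold tr
  have h1 := h 1
  have h2 := h Complex.I
  rw [norm_one, mul_one] at h1
  rw [Complex.norm_I, mul_one] at h2
  have h3 := (Complex.abs_re_le_norm _).trans h1
  have h4 := (Complex.abs_im_le_norm _).trans h2
  have h5 := abs_add_le (b 1).re (b Complex.I).im
  linarith

theorem det_one {b : ℂ →L[ℝ] ℂ} {κ : ℝ} (hκ : κ ≤ 1) (h : ∀ v, ‖b v‖ ≤ κ * ‖v‖) :
    |(|(ContinuousLinearMap.id ℝ ℂ + b).det| - 1)| ≤ 3 * κ := by
  have hκ0 : 0 ≤ κ := by
    have := (norm_nonneg _).trans (h 1)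
    rwa [norm_one, mul_one] at this
  have h1 : (ContinuousLinearMap.id ℝ ℂ + b).det = 1 + tr b + b.det := by
    rw [det_c, det_c]
    unfold tr
    simp only [ContinuousLinearMap.add_apply, ContinuousLinearMap.id_apply, Complex.add_re,
      Complex.add_im, Complex.one_re, Complex.one_im, Complex.I_re, Complex.I_im]
    ring
  have h2 := tr_le h
  have h3 := det_le b κ h
  have h4 : |(ContinuousLinearMap.id ℝ ℂ + b).det - 1| ≤ 3 * κ := by
    rw [h1]
    have h5 : 1 + tr b + b.det - 1 = tr b + b.det := by ring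
    rw [h5]
    refine (abs_add_le _ _).trans ?_
    nlinarith
  have h5 := abs_abs_sub_abs_le_abs_sub (ContinuousLinearMap.id ℝ ℂ + b).det 1
  rw [abs_one] at h5
  exact h5.trans h4

end pt

section fields

variable {M : Type} [MetricSpace M] [CompactSpace M] [MeasurableSpace M] [BorelSpace M]
  [Nonempty M] {D : Data M} {μ : Measure M}

omit [MetricSpace M] [CompactSpace M] [MeasurableSpace M] [BorelSpace M] [Nonempty M] in
theorem fldx_le (hc : ∀ x, ∃ i, x ∈ D.U i) {h : Fin D.N → ℂ → ℂ →L[ℝ] ℂ} {κ : ℝ}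
    (hh : Le D h κ) (x : M) (v : ℂ) : ‖fldx D h x v‖ ≤ κ * ‖v‖ := by
  obtain ⟨i, hi⟩ := pc_ex D hc x
  rw [fldx_eq _ hi]
  exact hh i _ (mem_image_of_mem _ (pc_sub D i hi)) v

omit [MetricSpace M] [CompactSpace M] [MeasurableSpace M] [BorelSpace M] [Nonempty M] in
theorem Le.nonneg [Nonempty M] (hc : ∀ x, ∃ i, x ∈ D.U i) {h : Fin D.N → ℂ → ℂ →L[ℝ] ℂ} {κ : ℝ}
    (hh : Le D h κ) : 0 ≤ κ := by
  obtain ⟨x⟩ := (inferInstance : Nonempty M)
  have := (norm_nonneg _).trans (fldx_le hc hh x 1)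
  rwa [norm_one, mul_one] at this

theorem field_facts (hD : D.IsSurf μ) {h : Fin D.N → ℂ → ℂ →L[ℝ] ℂ} (hh : IsField D h) :
    Measurable (trf D h) ∧ Continuous (trf D h) ∧ ∃ C : ℝ, 0 ≤ C ∧ (∀ x, |trf D h x| ≤ C) ∧
      ∀ m : Measure M, QD m (qd D h) C := by
  obtain ⟨C, hC⟩ := hh.bdd
  set C' : ℝ := max C 0 with hC'
  have hC0 : 0 ≤ C' := le_max_right _ _
  have hCC : ∀ (l : Fin 1) i, ∀ z ∈ D.T i, ∀ v, ‖(fun _ : Fin 1 => h) l i z v‖ ≤
      (fun _ : Fin 1 => C') l * ‖v‖ := fun l i z hz v =>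
    (hC i z hz v).trans (mul_le_mul_of_nonneg_right (le_max_left _ _) (norm_nonneg _))
  set η : ℝ := 1 / (2 * (C' + 1)) with hη
  have hη0 : 0 < η := by positivity
  have hηC : η * ∑ l : Fin 1, (fun _ : Fin 1 => C') l ≤ 1 / 2 := by
    simp only [Finset.univ_unique, Finset.sum_const, Finset.card_singleton, one_smul]
    rw [hη, div_mul_eq_mul_div, one_mul, div_le_div_iff₀ (by positivity) (by norm_num)]
    linarith
  have hfam := sin_family hη0 (fun _ => hC0) hCC hηC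
  have hS : ∀ s : EuclideanSpace ℝ (Fin 1), (fr D (cof D (Hs (fun _ => h) η s))).IsSurf
      (ar D μ (Hs (fun _ => h) η s)) := fun s =>
    pert_surf hD (field_sum Finset.univ (fun _ => hh) _)
      (Hs_half hη0 (fun _ => hC0) hCC hηC s)
  obtain ⟨f1, f2, f3, f4⟩ := fam_facts hfam hS 0 (EuclideanSpace.single 0 1)
  have e : Bs (fun _ : Fin 1 => h) η 0 (EuclideanSpace.single 0 1) = h := by
    funext i z
    ext1 v
    rw [Bs_app]
    have h1 : Hs (fun _ : Fin 1 => h) η 0 i z = 0 := by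
      ext1 v
      rw [Hs_app]
      simp [th]
    rw [h1, add_zero, ContinuousLinearMap.inverse_id]
    simp
  rw [e] at f1 f2 f3 f4
  refine ⟨f1, f4, 4 * (2 * ∑ l : Fin 1, (fun _ : Fin 1 => C') l) *
    ‖(EuclideanSpace.single 0 1 : EuclideanSpace ℝ (Fin 1))‖, ?_, fun x => ?_, fun m => ?_⟩
  · have := norm_nonneg (EuclideanSpace.single 0 1 : EuclideanSpace ℝ (Fin 1))
    have : 0 ≤ ∑ l : Fin 1, (fun _ : Fin 1 => C') l := Finset.sum_nonneg fun _ _ => hC0
    positivity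
  · refine (f2 x).trans ?_
    have h1 := norm_nonneg (EuclideanSpace.single 0 1 : EuclideanSpace ℝ (Fin 1))
    have h2 : 0 ≤ ∑ l : Fin 1, (fun _ : Fin 1 => C') l := Finset.sum_nonneg fun _ _ => hC0
    have h3 : 0 ≤ (∑ l : Fin 1, (fun _ : Fin 1 => C') l) *
      ‖(EuclideanSpace.single 0 1 : EuclideanSpace ℝ (Fin 1))‖ := mul_nonneg h2 h1
    nlinarith
  · exact (f3 m).mono (le_of_eq (by ring))

omit [MetricSpace M] [CompactSpace M] [MeasurableSpace M] [BorelSpace M] [Nonempty M] in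
/-- differences of the densities -/
theorem dens_close (hc : ∀ x, ∃ i, x ∈ D.U i) {b b' : Fin D.N → ℂ → ℂ →L[ℝ] ℂ} {κ : ℝ}
    (hbb : Le D (b - b') κ) (x : M) : |trf D b x - trf D b' x| ≤ 2 * κ ∧
      (∀ W, |qd D b x W - qd D b' x W| ≤ 4 * κ * ‖W‖ ^ 2) ∧
      ∀ G : M → ℂ, |qq D b G x - qq D b' G x| ≤ κ * ‖G x‖ ^ 2 := by
  have h1 : ∀ v, ‖(fldx D b x - fldx D b' x) v‖ ≤ κ * ‖v‖ := by
    intro v
    have h2 := fldx_le hc hbb x v
    obtain ⟨i, hi⟩ := pc_ex D hc x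
    rw [fldx_eq _ hi] at h2
    rw [fldx_eq _ hi, fldx_eq _ hi]
    exact h2
  have ht : tr (fldx D b x) - tr (fldx D b' x) = tr (fldx D b x - fldx D b' x) := by
    unfold tr
    simp only [ContinuousLinearMap.sub_apply, Complex.sub_re, Complex.sub_im]
    ring
  have htr := tr_le h1
  have hin : ∀ W : ℂ, |inner ℝ W (fldx D b x W) - inner ℝ W (fldx D b' x W)| ≤ κ * ‖W‖ ^ 2 := by
    intro W
    rw [← inner_sub_right, ← ContinuousLinearMap.sub_apply]
    refine (abs_real_inner_le_norm _ _).trans ?_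
    have := mul_le_mul_of_nonneg_left (h1 W) (norm_nonneg W)
    refine this.trans (le_of_eq (by ring))
  refine ⟨?_, fun W => ?_, fun G => ?_⟩
  · rw [trf_x hc, trf_x hc, ht]
    exact htr
  · rw [qd_x hc, qd_x hc]
    have e : tr (fldx D b x) * ‖W‖ ^ 2 - 2 * inner ℝ W (fldx D b x W) -
        (tr (fldx D b' x) * ‖W‖ ^ 2 - 2 * inner ℝ W (fldx D b' x W)) =
        (tr (fldx D b x) - tr (fldx D b' x)) * ‖W‖ ^ 2 -
        2 * (inner ℝ W (fldx D b x W) - inner ℝ W (fldx D b' x W)) := by ring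
    rw [e, ht]
    refine (abs_sub _ _).trans ?_
    rw [abs_mul, abs_mul, abs_of_nonneg (sq_nonneg ‖W‖), abs_two]
    have h3 := mul_le_mul_of_nonneg_right htr (sq_nonneg ‖W‖)
    have h4 := hin W
    linarith
  · rw [qq_x hc, qq_x hc]
    exact hin _

/-- the values of two close fields on an eigenfunction are close -/
theorem kap_close (hc : ∀ x, ∃ i, x ∈ D.U i) {b b' : Fin D.N → ℂ → ℂ →L[ℝ] ℂ} {κ C C' : ℝ}
    (hbb : Le D (b - b') κ) {m : Measure M} (mb : Measurable (trf D b))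
    (mb' : Measurable (trf D b')) (hb : ∀ x, |trf D b x| ≤ C) (hb' : ∀ x, |trf D b' x| ≤ C')
    (qb : QD m (qd D b) C) (qb' : QD m (qd D b') C') {v : M → ℝ} {g : M → ℂ}
    (hv : MemLp v 2 m) (hg : MemLp g 2 m) {l : ℝ} (hl : 0 < l) (nv : ∫ x, v x ^ 2 ∂m = 1)
    (ng : ∫ x, ‖g x‖ ^ 2 ∂m = l) : |PS.kap D b m v g l - PS.kap D b' m v g l| ≤ 6 * κ := by
  rw [kap_eq (D := D) hc, kap_eq (D := D) hc]
  have iv : Integrable (fun x => ‖v x‖ ^ 2) m := hv.norm.integrable_sq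
  have ig : Integrable (fun x => ‖g x‖ ^ 2) m := hg.norm.integrable_sq
  have i1 : Integrable (fun x => trf D b x * ‖v x‖ ^ 2) m :=
    iv.bdd_mul mb.aestronglyMeasurable (Eventually.of_forall hb)
  have i2 : Integrable (fun x => trf D b' x * ‖v x‖ ^ 2) m :=
    iv.bdd_mul mb'.aestronglyMeasurable (Eventually.of_forall hb')
  have e1 : |∫ x, trf D b x * ‖v x‖ ^ 2 ∂m - ∫ x, trf D b' x * ‖v x‖ ^ 2 ∂m| ≤ 2 * κ := by
    rw [← integral_sub i1 i2, ← Real.norm_eq_abs]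
    have h1 : ∫ x, 2 * κ * ‖v x‖ ^ 2 ∂m = 2 * κ := by
      rw [integral_const_mul]
      simp only [Real.norm_eq_abs, sq_abs]
      rw [nv, mul_one]
    rw [← h1]
    refine norm_integral_le_of_norm_le (iv.const_mul _) (Eventually.of_forall fun x => ?_)
    rw [← sub_mul, norm_mul, Real.norm_eq_abs, Real.norm_eq_abs, abs_of_nonneg (sq_nonneg ‖v x‖)]
    exact mul_le_mul_of_nonneg_right (dens_close hc hbb x).1 (sq_nonneg _)
  have e2 : |∫ x, qd D b x (g x) ∂m - ∫ x, qd D b' x (g x) ∂m| ≤ 4 * κ * l := by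
    rw [← integral_sub (quad_int qb hg) (quad_int qb' hg), ← Real.norm_eq_abs, ← ng,
      ← integral_const_mul]
    refine norm_integral_le_of_norm_le (ig.const_mul _) (Eventually.of_forall fun x => ?_)
    rw [Real.norm_eq_abs]
    exact (dens_close hc hbb x).2.1 (g x)
  have e3 : |l⁻¹ * ∫ x, qd D b x (g x) ∂m - l⁻¹ * ∫ x, qd D b' x (g x) ∂m| ≤ 4 * κ := by
    rw [← mul_sub, abs_mul, abs_of_pos (inv_pos.2 hl), inv_mul_le_iff₀ hl]
    linarith
  rw [abs_le] at e1 e3 ⊢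
  constructor <;> linarith [e1.1, e1.2, e3.1, e3.2]

/-- the stress-energy tensor and the quadratic observable -/
theorem kap_obs (hc : ∀ x, ∃ i, x ∈ D.U i) {b : Fin D.N → ℂ → ℂ →L[ℝ] ℂ} {C : ℝ}
    {m : Measure M} (mb : Measurable (trf D b)) (hb : ∀ x, |trf D b x| ≤ C)
    (qb : QD m (qd D b) C) {v : M → ℝ} {g : M → ℂ} (hg : MemLp g 2 m) (l : ℝ) :
    PS.kap D b m v g l - 2 * (l⁻¹ * ∫ x, qq D b g x ∂m) =
      ∫ x, trf D b x * v x ^ 2 ∂m - l⁻¹ * ∫ x, trf D b x * ‖g x‖ ^ 2 ∂m := by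
  have i1 : Integrable (fun x => trf D b x * ‖g x‖ ^ 2) m :=
    (hg.norm.integrable_sq).bdd_mul mb.aestronglyMeasurable (Eventually.of_forall hb)
  have i2 : Integrable (fun x => qf D b g x) m := by
    have := quad_int qb hg
    simp only [← qf_eq (D := D) hc] at this
    exact this
  have i3 : ∫ x, qq D b g x ∂m =
      (∫ x, trf D b x * ‖g x‖ ^ 2 ∂m - ∫ x, qf D b g x ∂m) / 2 := by
    rw [← integral_sub i1 i2, ← integral_div]
    refine integral_congr_ae (Eventually.of_forall fun x => ?_)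
    show qq D b g x = (trf D b x * ‖g x‖ ^ 2 - qf D b g x) / 2
    rw [qf_qq (D := D) hc]
    ring
  rw [i3]
  unfold PS.kap
  ring

/-- the uniform commutator estimate -/
theorem comm_unif (hD : D.IsSurf μ) {β : M → ℝ} (hβ : Continuous β) {ε : ℝ} (hε : 0 < ε) :
    ∃ Λ : ℝ, 0 < Λ ∧ ∀ (h : Fin D.N → ℂ → ℂ →L[ℝ] ℂ), IsField D h → Le D h (1 / 2) →
      ∀ (l : ℝ) (v : M → ℝ) (g : M → ℂ), Λ ≤ l → IsPair (fr D (cof D h)) (ar D μ h) l v g →
        ∫ x, v x ^ 2 ∂(ar D μ h) = 1 →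
        |∫ x, β x * v x ^ 2 ∂(ar D μ h) - l⁻¹ * ∫ x, β x * ‖g x‖ ^ 2 ∂(ar D μ h)| ≤ ε := by
  have hden := ContinuousMap.subalgebra_topologicalClosure_eq_top_of_separatesPoints
    (Pool.Agent.Y264.QR.alg tGr μ D hD) (Pool.Agent.Y264.QR.sep tGr Pool.Agent.Y264.QR.tLoc μ D hD)
  have hmem : (⟨β, hβ⟩ : C(M, ℝ)) ∈ closure {F : C(M, ℝ) | D.C1 F} := by
    have h1 : (⟨β, hβ⟩ : C(M, ℝ)) ∈ (Pool.Agent.Y264.QR.alg tGr μ D hD).topologicalClosure := by
      rw [hden]; trivial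
    exact h1
  obtain ⟨β', hβ'1, hβ'2⟩ := Metric.mem_closure_iff.1 hmem (ε / 4) (by positivity)
  have hclose : ∀ x, |β x - β' x| ≤ ε / 4 := by
    intro x
    have h1 := ((⟨β, hβ⟩ : C(M, ℝ)) - β').norm_coe_le_norm x
    rw [dist_eq_norm] at hβ'2
    exact h1.trans hβ'2.le
  obtain ⟨-, -, C₀, hC₀⟩ := (tGr M μ D hD).1 β' hβ'1
  set C : ℝ := max C₀ 0 with hCd
  have hC0 : 0 ≤ C := le_max_right _ _
  have hC : ∀ x, ‖D.gr β' x‖ ≤ C := fun x => (hC₀ x).trans (le_max_left _ _)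
  set Λ : ℝ := (4 * (2 * C) / ε) ^ 2 + 1 with hΛ
  refine ⟨Λ, by positivity, fun h hh hs l v g hl hp nv => ?_⟩
  have hl0 : 0 < l := lt_of_lt_of_le (by positivity) hl
  have hS := pert_surf hD hh hs
  have hgr : ∀ x, ‖(fr D (cof D h)).gr β' x‖ ≤ 2 * C := by
    intro x
    obtain ⟨i, hi⟩ := pc_ex D hD.cover x
    have hz : D.φ i x ∈ D.T i := mem_image_of_mem _ (pc_sub D i hi)
    have e1 : (fr D (cof D h)).gr β' x = grd (cof D h i (D.φ i x)) (D.dc i β' x) :=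
      gr_at (cof D h) hi β'
    have e2 : D.gr β' x = grd (D.A i (D.φ i x)) (D.dc i β' x) := gr_at D.A hi β'
    rw [e1]
    have h1 := grd_le' (A₀ := D.A i (D.φ i x)) (A₁ := cof D h i (D.φ i x))
      (hD.det i _ hz) (hS.det i _ hz) 2 (fun v => small_low (hs i _ hz) _) (D.dc i β' x)
    rw [← e2] at h1
    have h2 := hC x
    linarith
  have hcm := pair_comm hS hp nv (β := β') hβ'1 (by positivity) hgr
  have hG := hp.memg
  have hu := hp.memv
  obtain ⟨C₁, hC₁⟩ := isCompact_univ.exists_bound_of_continuousOn hβ.continuousOn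
  obtain ⟨C₂, hC₂⟩ := isCompact_univ.exists_bound_of_continuousOn β'.continuous.continuousOn
  have iu : Integrable (fun x => v x ^ 2) (ar D μ h) := hu.integrable_sq
  have iG : Integrable (fun x => ‖g x‖ ^ 2) (ar D μ h) := hG.norm.integrable_sq
  have a1 : Integrable (fun x => β x * v x ^ 2) (ar D μ h) :=
    iu.bdd_mul hβ.aestronglyMeasurable (Eventually.of_forall fun x => hC₁ x (mem_univ x))
  have a2 : Integrable (fun x => β' x * v x ^ 2) (ar D μ h) :=
    iu.bdd_mul β'.continuous.aestronglyMeasurable (Eventually.of_forall fun x => hC₂ x (mem_univ x))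
  have a3 : Integrable (fun x => β x * ‖g x‖ ^ 2) (ar D μ h) :=
    iG.bdd_mul hβ.aestronglyMeasurable (Eventually.of_forall fun x => hC₁ x (mem_univ x))
  have a4 : Integrable (fun x => β' x * ‖g x‖ ^ 2) (ar D μ h) :=
    iG.bdd_mul β'.continuous.aestronglyMeasurable (Eventually.of_forall fun x => hC₂ x (mem_univ x))
  have ng : ∫ x, ‖g x‖ ^ 2 ∂(ar D μ h) = l := by
    rw [pair_norm hS hp, nv, mul_one]
  have b1 : |∫ x, β x * v x ^ 2 ∂(ar D μ h) - ∫ x, β' x * v x ^ 2 ∂(ar D μ h)| ≤ ε / 4 := by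
    rw [← integral_sub a1 a2, ← Real.norm_eq_abs, ← mul_one (ε / 4), ← nv, ← integral_const_mul]
    refine norm_integral_le_of_norm_le (iu.const_mul _) (Eventually.of_forall fun x => ?_)
    rw [← sub_mul, norm_mul, Real.norm_eq_abs, Real.norm_eq_abs, abs_of_nonneg (sq_nonneg (v x))]
    exact mul_le_mul_of_nonneg_right (hclose x) (sq_nonneg _)
  have b2 : |∫ x, β x * ‖g x‖ ^ 2 ∂(ar D μ h) - ∫ x, β' x * ‖g x‖ ^ 2 ∂(ar D μ h)| ≤
      ε / 4 * l := by
    rw [← integral_sub a3 a4, ← Real.norm_eq_abs, ← ng, ← integral_const_mul]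
    refine norm_integral_le_of_norm_le (iG.const_mul _) (Eventually.of_forall fun x => ?_)
    rw [← sub_mul, norm_mul, Real.norm_eq_abs, Real.norm_eq_abs, abs_of_nonneg (sq_nonneg ‖g x‖)]
    exact mul_le_mul_of_nonneg_right (hclose x) (sq_nonneg _)
  set X := ∫ x, β x * v x ^ 2 ∂(ar D μ h)
  set X' := ∫ x, β' x * v x ^ 2 ∂(ar D μ h)
  set Y := ∫ x, β x * ‖g x‖ ^ 2 ∂(ar D μ h)
  set Y' := ∫ x, β' x * ‖g x‖ ^ 2 ∂(ar D μ h)
  have hs0 : 0 < Real.sqrt l := Real.sqrt_pos.2 hl0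
  have hss : Real.sqrt l * Real.sqrt l = l := Real.mul_self_sqrt hl0.le
  have hsq : 4 * (2 * C) / ε ≤ Real.sqrt l := by
    refine Real.le_sqrt_of_sq_le ?_
    linarith
  have c1 : |X' - l⁻¹ * Y'| ≤ ε / 4 := by
    have e1 : X' - l⁻¹ * Y' = l⁻¹ * (l * X' - Y') := by field_simp
    rw [e1, abs_mul, abs_of_pos (inv_pos.2 hl0), inv_mul_le_iff₀ hl0]
    refine hcm.trans ?_
    rw [div_le_iff₀ hε] at hsq
    have h1 : 4 * (2 * C) * Real.sqrt l ≤ Real.sqrt l * ε * Real.sqrt l :=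
      mul_le_mul_of_nonneg_right hsq hs0.le
    have h2 : Real.sqrt l * ε * Real.sqrt l = ε * (Real.sqrt l * Real.sqrt l) := by ring
    rw [hss] at h2
    linarith
  have c2 : |l⁻¹ * Y - l⁻¹ * Y'| ≤ ε / 4 := by
    rw [← mul_sub, abs_mul, abs_of_pos (inv_pos.2 hl0), inv_mul_le_iff₀ hl0, mul_comm]
    exact b2
  rw [abs_le] at b1 c1 c2 ⊢
  constructor <;> linarith [b1.1, b1.2, c1.1, c1.2, c2.1, c2.2]

/-- the mean values for the perturbed area -/
theorem mean_close (hD : D.IsSurf μ) {h : Fin D.N → ℂ → ℂ →L[ℝ] ℂ} (hh : IsField D h) {κ : ℝ}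
    (hκ : κ ≤ 1 / 6) (hs : Le D h κ) {β : M → ℝ} (hβ : Measurable β) {C : ℝ}
    (hC : ∀ x, |β x| ≤ C) :
    |(∫ x, β x ∂(ar D μ h)) / (ar D μ h).real univ - (∫ x, β x ∂μ) / μ.real univ| ≤
      12 * κ * C := by
  have hκ0 : 0 ≤ κ := Le.nonneg hD.cover hs
  have hC0 : 0 ≤ C := by
    obtain ⟨x⟩ := (inferInstance : Nonempty M)
    exact (abs_nonneg _).trans (hC x)
  have hs' : Le D h (1 / 2) := fun i z hz v =>
    (hs i z hz v).trans (mul_le_mul_of_nonneg_right (by linarith) (norm_nonneg _))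
  have hS := pert_surf hD hh hs'
  obtain ⟨hfin, hpos⟩ := tFin M μ D hD
  haveI := hfin
  set ρ : M → ℝ := fun x => |(ContinuousLinearMap.id ℝ ℂ + fldx D h x).det| with hρ
  have hρ1 : ∀ x, |ρ x - 1| ≤ 3 * κ := fun x =>
    det_one (by linarith) (fldx_le hD.cover hs x)
  have hρm : Measurable ρ := by
    have hdx : ∀ x, ρ x = ∑ i, (D.pc i).indicator
        (fun x => |(ContinuousLinearMap.id ℝ ℂ + h i (D.φ i x)).det|) x := by
      intro x
      obtain ⟨i, hi⟩ := pc_ex D hD.cover x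
      rw [hρ]
      simp only []
      rw [fldx_eq _ hi, pc_sum D hi]
    have : ρ = _ := funext hdx
    rw [this]
    exact fld_meas D hD (fun i z => |(ContinuousLinearMap.id ℝ ℂ + h i z).det|) fun i =>
      (ContinuousLinearMap.continuous_det.comp_continuousOn
        (continuousOn_const.add (hh.cont i))).abs
  have hint : ∀ g : M → ℝ, ∫ x, g x ∂(ar D μ h) = ∫ x, ρ x * g x ∂μ := by
    intro g
    unfold ar
    rw [integral_withDensity_eq_integral_toReal_smul hρm.ennreal_ofReal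
      (Eventually.of_forall fun x => ENNReal.ofReal_lt_top)]
    refine integral_congr_ae (Eventually.of_forall fun x => ?_)
    show (ENNReal.ofReal (ρ x)).toReal • g x = _
    rw [ENNReal.toReal_ofReal (abs_nonneg _), smul_eq_mul]
  have hfin' : IsFiniteMeasure (ar D μ h) := (tFin M _ _ hS).1
  set Z := μ.real univ with hZ
  have hZ0 : 0 < Z :=
    ENNReal.toReal_pos (hpos univ isOpen_univ univ_nonempty).ne' (measure_ne_top _ _)
  have iβ : Integrable β μ := Integrable.of_bound hβ.aestronglyMeasurable C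
    (Eventually.of_forall hC)
  have hρb : ∀ x, ‖ρ x‖ ≤ 1 + 3 * κ := fun x => by
    have := abs_le.1 (hρ1 x)
    rw [Real.norm_eq_abs, abs_of_nonneg (abs_nonneg _)]
    linarith [this.2]
  have iρβ : Integrable (fun x => ρ x * β x) μ :=
    iβ.bdd_mul hρm.aestronglyMeasurable (Eventually.of_forall hρb)
  have iρ : Integrable ρ μ := Integrable.of_bound hρm.aestronglyMeasurable (1 + 3 * κ)
    (Eventually.of_forall hρb)
  have e1 : |∫ x, β x ∂(ar D μ h) - ∫ x, β x ∂μ| ≤ 3 * κ * C * Z := by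
    rw [hint, ← integral_sub iρβ iβ, ← Real.norm_eq_abs]
    refine norm_integral_le_of_norm_le_const (Eventually.of_forall fun x => ?_)
    have : ρ x * β x - β x = (ρ x - 1) * β x := by ring
    rw [this, norm_mul, Real.norm_eq_abs, Real.norm_eq_abs]
    exact mul_le_mul (hρ1 x) (hC x) (abs_nonneg _) (by positivity)
  have e2 : |(ar D μ h).real univ - Z| ≤ 3 * κ * Z := by
    have h1 := hint fun _ => 1
    simp only [integral_const, smul_eq_mul, mul_one] at h1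
    rw [h1]
    have h2 : ∫ x, ρ x ∂μ - Z = ∫ x, (ρ x - 1) ∂μ := by
      rw [integral_sub iρ (integrable_const _)]
      simp [hZ]
    rw [h2, ← Real.norm_eq_abs]
    exact norm_integral_le_of_norm_le_const (Eventually.of_forall fun x => hρ1 x)
  have e3 : |∫ x, β x ∂μ| ≤ C * Z := by
    rw [← Real.norm_eq_abs]
    exact norm_integral_le_of_norm_le_const (Eventually.of_forall hC)
  set X' := ∫ x, β x ∂(ar D μ h)
  set X := ∫ x, β x ∂μ
  set Z' := (ar D μ h).real univ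
  have hZ' : Z / 2 ≤ Z' := by
    have := (abs_le.1 e2).1
    have h2 : 3 * κ * Z ≤ 1 / 2 * Z := mul_le_mul_of_nonneg_right (by linarith) hZ0.le
    linarith
  have hZ'0 : 0 < Z' := by linarith
  have e4 : X' / Z' - X / Z = ((X' - X) * Z - X * (Z' - Z)) / (Z' * Z) := by
    field_simp
    ring
  rw [e4, abs_div, abs_of_pos (mul_pos hZ'0 hZ0), div_le_iff₀ (mul_pos hZ'0 hZ0)]
  refine (abs_sub _ _).trans ?_
  rw [abs_mul, abs_mul, abs_of_pos hZ0]
  have f1 := mul_le_mul_of_nonneg_right e1 hZ0.le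
  have f2 := mul_le_mul e3 e2 (abs_nonneg _) (by positivity)
  have f3 : 6 * κ * C * Z * Z ≤ 12 * κ * C * (Z' * Z) := by
    have h1 : 0 ≤ κ * C * Z := by positivity
    nlinarith
  calc |X' - X| * Z + |X| * |Z' - Z| ≤ 3 * κ * C * Z * Z + C * Z * (3 * κ * Z) := add_le_add f1 f2
    _ = 6 * κ * C * Z * Z := by ring
    _ ≤ _ := f3

end fields

end Pool.Agent.J4.H45.PM
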