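import Pool.Agent.J4.H45.PM.Est

/-!
# Finitely many observables
-/

set_option autoImplicit false

open Set Filter Topology MeasureTheory
open scoped Real NNReal
open Pool.Agent.Y262.QE Pool.Agent.J4.H45.PS

noncomputable section

namespace Pool.Agent.J4.H45.PM

/-- a mixed state of the eigenvalue `lam` of the surface `D` with the area `μ`: orthonormal
eigenfunctions `v p` with gradients `g p` and weights `c p > 0` with the sum one -/
structure IsMixed {M : Type} [MeasurableSpace M] (D : Data M) (μ : Measure M) (lam : ℝ) (r : ℕ)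
    (v : Fin r → M → ℝ) (g : Fin r → M → ℂ) (c : Fin r → ℝ) : Prop where
  pair : ∀ p, IsPair D μ lam (v p) (g p)
  orth : ∀ p p', ∫ x, v p x * v p' x ∂μ = if p = p' then 1 else 0
  pos : ∀ p, 0 < c p
  sum : ∑ p, c p = 1

/-- the value of the quadratic phase space observable `⟪ξ, h ξ⟫ / |ξ| ^ 2` in the mixed state -/
def obs {M : Type} [MeasurableSpace M] (D : Data M) (h : Fin D.N → ℂ → ℂ →L[ℝ] ℂ) (m : Measure M)
    (lam : ℝ) {r : ℕ} (g : Fin r → M → ℂ) (c : Fin r → ℝ) : ℝ :=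
  ∑ p, c p * (lam⁻¹ * ∫ x, qq D h (g p) x ∂m)

/-- the value of the function `β` in the mixed state -/
def mass {M : Type} [MeasurableSpace M] (β : M → ℝ) (m : Measure M) {r : ℕ} (v : Fin r → M → ℝ)
    (c : Fin r → ℝ) : ℝ :=
  ∑ p, c p * ∫ x, β x * v p x ^ 2 ∂m

variable {M : Type} [MetricSpace M] [CompactSpace M] [MeasurableSpace M] [BorelSpace M]
  [Nonempty M] {D : Data M} {μ : Measure M}

omit [MetricSpace M] [CompactSpace M] [BorelSpace M] [Nonempty M] in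
theorem IsMixed.norm {lam : ℝ} {r : ℕ} {v : Fin r → M → ℝ} {g : Fin r → M → ℂ} {c : Fin r → ℝ}
    (h : IsMixed D μ lam r v g c) (p : Fin r) : ∫ x, v p x ^ 2 ∂μ = 1 := by
  have h1 := h.orth p p
  rw [if_pos rfl] at h1
  rw [← h1]
  exact integral_congr_ae (Eventually.of_forall fun x => sq _)

omit [MetricSpace M] [CompactSpace M] [MeasurableSpace M] [BorelSpace M] [Nonempty M] in
/-- convex combinations -/
theorem conv_le {r : ℕ} {c : Fin r → ℝ} (hpos : ∀ p, 0 < c p) (hsum : ∑ p, c p = 1)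
    {a b : Fin r → ℝ} {κ : ℝ} (h : ∀ p, |a p - b p| ≤ κ) :
    |∑ p, c p * a p - ∑ p, c p * b p| ≤ κ := by
  rw [← Finset.sum_sub_distrib]
  refine (Finset.abs_sum_le_sum_abs _ _).trans ?_
  have h1 : ∀ p, |c p * a p - c p * b p| ≤ c p * κ := fun p => by
    rw [← mul_sub, abs_mul, abs_of_pos (hpos p)]
    exact mul_le_mul_of_nonneg_left (h p) (hpos p).le
  refine (Finset.sum_le_sum fun p _ => h1 p).trans ?_
  rw [← Finset.sum_mul, hsum, one_mul]

omit [Nonempty M] in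
theorem mn_close (hc : ∀ x, ∃ i, x ∈ D.U i) {b b' : Fin D.N → ℂ → ℂ →L[ℝ] ℂ} {κ C C' : ℝ}
    (hbb : Le D (b - b') κ) {m : Measure M} [IsFiniteMeasure m] (hm : 0 < m.real univ)
    (mb : Measurable (trf D b)) (mb' : Measurable (trf D b')) (hb : ∀ x, |trf D b x| ≤ C)
    (hb' : ∀ x, |trf D b' x| ≤ C') : |mn D b m - mn D b' m| ≤ 2 * κ := by
  have i1 : Integrable (trf D b) m := Integrable.of_bound mb.aestronglyMeasurable C
    (Eventually.of_forall hb)
  have i2 : Integrable (trf D b') m := Integrable.of_bound mb'.aestronglyMeasurable C'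
    (Eventually.of_forall hb')
  unfold mn
  rw [← sub_div, abs_div, abs_of_pos hm, div_le_iff₀ hm, ← integral_sub i1 i2,
    ← Real.norm_eq_abs]
  exact norm_integral_le_of_norm_le_const (Eventually.of_forall fun x =>
    (dens_close hc hbb x).1)

/-- the velocity of the family is close to the field -/
theorem Bs_close {m : ℕ} {f : Fin m → Fin D.N → ℂ → ℂ →L[ℝ] ℂ} {C : Fin m → ℝ} {η δ : ℝ}
    (hη : 0 < η) (hC0 : ∀ l, 0 ≤ C l)
    (hC : ∀ l i, ∀ z ∈ D.T i, ∀ v, ‖f l i z v‖ ≤ C l * ‖v‖) (hηC : η * ∑ l, C l ≤ 1 / 2)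
    (hδ1 : δ ≤ 1) (t : EuclideanSpace ℝ (Fin m)) (ht : ‖t‖ ≤ δ) (l : Fin m) :
    Le D (Bs f η t (EuclideanSpace.single l 1) - f l)
      (δ * (C l * ((η ^ 2)⁻¹ + 2 * ∑ l, C l))) := by
  classical
  intro i z hz v
  have hδ0 : 0 ≤ δ := (norm_nonneg _).trans ht
  obtain ⟨h1, h2, h3⟩ := inv_half hη hC0 hC hηC t i z hz
  set a := (ContinuousLinearMap.id ℝ ℂ + Hs f η t i z).inverse v with ha
  have e1 : (Bs f η t (EuclideanSpace.single l 1) - f l) i z v =
      (Real.cos (t l / η) - 1) • f l i z a - f l i z (Hs f η t i z a) := by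
    have c1 : (Bs f η t (EuclideanSpace.single l 1) - f l) i z v =
        Bs f η t (EuclideanSpace.single l 1) i z v - f l i z v := rfl
    rw [c1, Bs_app, Finset.sum_eq_single l]
    · have c2 : v = a + Hs f η t i z a := by
        have := h2 v
        rw [← ha] at this
        exact this.symm
      have c3 : f l i z v = f l i z a + f l i z (Hs f η t i z a) := by
        conv_lhs => rw [c2]
        rw [map_add]
      rw [c3, ← ha]
      simp only [EuclideanSpace.single_apply, if_true, mul_one, sub_smul, one_smul]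
      abel
    · intro l' _ hl'
      simp [EuclideanSpace.single_apply, hl']
    · intro h; exact absurd (Finset.mem_univ l) h
  rw [e1]
  refine (norm_sub_le _ _).trans ?_
  have htl : |t l| ≤ δ := (PiLp.norm_apply_le t l).trans ht
  have hcos : |Real.cos (t l / η) - 1| ≤ δ * (η ^ 2)⁻¹ / 2 := by
    have c1 := Real.one_sub_sq_div_two_le_cos (x := t l / η)
    have c2 := Real.cos_le_one (t l / η)
    rw [abs_sub_comm, abs_of_nonneg (by linarith)]
    have c3 : (t l / η) ^ 2 ≤ δ * (η ^ 2)⁻¹ := by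
      rw [div_pow, div_eq_mul_inv]
      refine mul_le_mul_of_nonneg_right ?_ (by positivity)
      have c4 : t l ^ 2 ≤ δ ^ 2 := by
        rw [← sq_abs]
        exact pow_le_pow_left₀ (abs_nonneg _) htl 2
      nlinarith
    linarith
  have hH := Hs_le hC0 hC δ t (fun l => (th_le' hη (t l)).trans
    ((PiLp.norm_apply_le t l).trans ht)) i z hz a
  have hfa : ‖f l i z a‖ ≤ C l * (2 * ‖v‖) :=
    (hC l i z hz a).trans (mul_le_mul_of_nonneg_left (h3 v) (hC0 l))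
  have hS0 : 0 ≤ ∑ l, C l := Finset.sum_nonneg fun l _ => hC0 l
  have b1 : ‖(Real.cos (t l / η) - 1) • f l i z a‖ ≤ δ * (η ^ 2)⁻¹ / 2 * (C l * (2 * ‖v‖)) := by
    rw [norm_smul, Real.norm_eq_abs]
    exact mul_le_mul hcos hfa (norm_nonneg _) (by positivity)
  have b2 : ‖f l i z (Hs f η t i z a)‖ ≤ C l * (δ * (∑ l, C l) * (2 * ‖v‖)) :=
    (hC l i z hz _).trans (mul_le_mul_of_nonneg_left
      (hH.trans (mul_le_mul_of_nonneg_left (h3 v) (by positivity))) (hC0 l))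
  refine (add_le_add b1 b2).trans (le_of_eq ?_)
  ring

/-- **Finitely many observables.** -/
theorem fin1 (hD : D.IsSurf μ) {F : Type} [AddCommGroup F] [Module ℝ F] [TopologicalSpace F]
    [IsTopologicalAddGroup F] [ContinuousSMul ℝ F]
    (ι : F →ₗ[ℝ] (Fin D.N → ℂ → ℂ →L[ℝ] ℂ)) (hι : ∀ φ, IsField D (ι φ))
    {u : F → ℕ → M → ℝ} {G : F → ℕ → M → ℂ} {lam : F → ℕ → ℝ}
    (hb : ∀ φ, Le D (ι φ) (1 / 2) →
      IsEigenbasis (fr D (cof D (ι φ))) (ar D μ (ι φ)) (u φ) (G φ) (lam φ))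
    {m : ℕ} (ψ : Fin m → F) (V : Set F) (hV : V ∈ 𝓝 (0 : F)) (ε : ℝ) (hε : 0 < ε) :
    ∃ J : ℕ, ∀ j, J ≤ j → ∃ φ ∈ V, Le D (ι φ) ε ∧ Le D (ι φ) (1 / 2) ∧
      ∃ (r : ℕ) (v : Fin r → M → ℝ) (g : Fin r → M → ℂ) (c : Fin r → ℝ),
        r * (r + 1) / 2 ≤ m + 1 ∧
        IsMixed (fr D (cof D (ι φ))) (ar D μ (ι φ)) (lam φ j) r v g c ∧ ε⁻¹ ≤ lam φ j ∧
        ∀ l, |obs D (ι (ψ l)) (ar D μ (ι φ)) (lam φ j) g c - mn D (ι (ψ l)) μ / 2| ≤ ε := by
  classical
  set f : Fin m → Fin D.N → ℂ → ℂ →L[ℝ] ℂ := fun l => ι (ψ l) with hf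
  have hfield : ∀ l, IsField D (f l) := fun l => hι _
  have hbdd : ∀ l, ∃ C : ℝ, 0 ≤ C ∧ ∀ i, ∀ z ∈ D.T i, ∀ v, ‖f l i z v‖ ≤ C * ‖v‖ := by
    intro l
    obtain ⟨C, hC⟩ := (hfield l).bdd
    exact ⟨max C 0, le_max_right _ _, fun i z hz v => (hC i z hz v).trans
      (mul_le_mul_of_nonneg_right (le_max_left _ _) (norm_nonneg _))⟩
  choose C hC0 hC using hbdd
  set S : ℝ := ∑ l, C l with hS
  have hS0 : 0 ≤ S := Finset.sum_nonneg fun l _ => hC0 l
  set η : ℝ := 1 / (2 * (S + 1)) with hη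
  have hη0 : 0 < η := by positivity
  have hηC : η * S ≤ 1 / 2 := by
    rw [hη, div_mul_eq_mul_div, one_mul, div_le_div_iff₀ (by positivity) (by norm_num)]
    linarith
  choose fm fc Cf hCf0 hCfb hCfq using fun l => field_facts hD (hfield l)
  set Cs : ℝ := ∑ l, Cf l with hCs
  have hCs0 : 0 ≤ Cs := Finset.sum_nonneg fun l _ => hCf0 l
  have hCfs : ∀ l, Cf l ≤ Cs := fun l =>
    Finset.single_le_sum (f := Cf) (fun l _ => hCf0 l) (Finset.mem_univ l)
  set Q : ℝ := ∑ l, C l * ((η ^ 2)⁻¹ + 2 * S) with hQ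
  have hQl0 : ∀ l, 0 ≤ C l * ((η ^ 2)⁻¹ + 2 * S) := fun l => mul_nonneg (hC0 l) (by positivity)
  have hQ0 : 0 ≤ Q := Finset.sum_nonneg fun l _ => hQl0 l
  have hQl : ∀ l, C l * ((η ^ 2)⁻¹ + 2 * S) ≤ Q := fun l =>
    Finset.single_le_sum (f := fun l => C l * ((η ^ 2)⁻¹ + 2 * S)) (fun l _ => hQl0 l)
      (Finset.mem_univ l)
  -- the family
  let φs : EuclideanSpace ℝ (Fin m) → F := fun s => ∑ l, th η (s l) • ψ l
  have hφs : ∀ s, ι (φs s) = Hs f η s := by
    intro s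
    show ι (∑ l, th η (s l) • ψ l) = ∑ l, th η (s l) • f l
    rw [map_sum]
    exact Finset.sum_congr rfl fun l _ => by rw [map_smul]
  have hhalf : ∀ s, Le D (ι (φs s)) (1 / 2) := fun s => by
    rw [hφs]
    exact Hs_half hη0 hC0 hC hηC s
  have hfam := sin_family hη0 hC0 hC hηC
  have hSurf : ∀ s, (fr D (cof D (Hs f η s))).IsSurf (ar D μ (Hs f η s)) := fun s => by
    rw [← hφs]
    exact pert_surf hD (hι _) (hhalf s)
  have hbas : ∀ s, IsEigenbasis (fr D (cof D (Hs f η s))) (ar D μ (Hs f η s)) (u (φs s))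
      (G (φs s)) (lam (φs s)) := fun s => by
    rw [← hφs]
    exact hb _ (hhalf s)
  -- the neighbourhood
  have hφc : Continuous φs := by
    refine continuous_finset_sum _ fun l _ => ?_
    have h1 : Continuous fun s : EuclideanSpace ℝ (Fin m) => th η (s l) := by
      unfold th
      fun_prop
    exact h1.smul continuous_const
  have hφ0 : φs 0 = 0 := by
    show ∑ l, th η ((0 : EuclideanSpace ℝ (Fin m)) l) • ψ l = 0
    simp [th]
  obtain ⟨δV, hδV0, hδV⟩ : ∃ δ : ℝ, 0 < δ ∧ ∀ s, ‖s‖ < δ → φs s ∈ V := by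
    have h1 : ∀ᶠ s in 𝓝 (0 : EuclideanSpace ℝ (Fin m)), φs s ∈ V := by
      refine hφc.continuousAt.eventually_mem ?_
      rw [hφ0]
      exact hV
    obtain ⟨δ, hδ, h2⟩ := Metric.eventually_nhds_iff.1 h1
    exact ⟨δ, hδ, fun s hs => h2 (by rwa [dist_zero_right])⟩
  set Den : ℝ := 8 * Q + 2 + 12 * S * Cs + 6 * S + S with hDen
  have hDen0 : 0 < Den := by positivity
  set δ : ℝ := min δV (min 1 (min ε 1 / Den)) with hδ
  have hδ0 : 0 < δ := by positivity
  have hδ1 : δ ≤ 1 := (min_le_right _ _).trans (min_le_left _ _)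
  have hδ2 : δ ≤ δV := min_le_left _ _
  have hδ3 : δ * Den ≤ min ε 1 := by
    have : δ ≤ min ε 1 / Den := (min_le_right _ _).trans (min_le_right _ _)
    rwa [le_div_iff₀ hDen0] at this
  have hδe : δ * Den = δ * (8 * Q) + δ * 2 + δ * (12 * S * Cs) + δ * (6 * S) + δ * S := by
    rw [hDen]; ring
  have p1 : 0 ≤ δ * (8 * Q) := by positivity
  have p2 : 0 ≤ δ * (12 * S * Cs) := by positivity
  have p3 : 0 ≤ δ * (6 * S) := by positivity
  have p4 : 0 ≤ δ * S := by positivity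
  have hδε : δ * Den ≤ ε := hδ3.trans (min_le_left _ _)
  have hδ1' : δ * Den ≤ 1 := hδ3.trans (min_le_right _ _)
  have hκ1 : δ * S ≤ 1 / 6 := by linarith
  have hκ2 : δ * S ≤ ε := by linarith
  obtain ⟨J₁, hJ₁⟩ := crit hfam hSurf hbas δ hδ0
  choose Λ hΛ0 hΛ using fun l => comm_unif hD (fc l) (ε := ε / 2) (by positivity)
  set K : ℝ := 2 * ∑ l, C l with hK
  have hK0 : 0 ≤ K := by positivity
  set Λs : ℝ := ∑ l, Λ l + ε⁻¹ with hΛs
  have hΛsum0 : 0 ≤ ∑ l, Λ l := Finset.sum_nonneg fun l _ => (hΛ0 l).le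
  have hΛs0 : 0 < Λs := by positivity
  obtain ⟨J₂, hJ₂⟩ := eventually_atTop.1 ((lam_top (hSurf 0) (hbas 0)).eventually_ge_atTop
    (Real.exp (6 * K * δ) * Λs))
  refine ⟨max J₁ J₂, fun j hj => ?_⟩
  obtain ⟨t, ht, r, v, g, c, hr, hp, ho, hc0, hc1, hq⟩ := hJ₁ j ((le_max_left _ _).trans hj)
  have hlamt : Λs ≤ lam (φs t) j := by
    have h1 := hJ₂ j ((le_max_right _ _).trans hj)
    have h2 := lip_fam hfam hSurf hbas j 0 t
    rw [zero_sub, norm_neg] at h2
    have h3 : Real.exp (6 * K * ‖t‖) ≤ Real.exp (6 * K * δ) :=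
      Real.exp_le_exp.2 (mul_le_mul_of_nonneg_left ht.le (by positivity))
    have h4 : 0 ≤ lam (φs t) j := lam_nonneg (hSurf t) (hbas t) j
    have h5 := mul_le_mul_of_nonneg_right h3 h4
    exact le_of_mul_le_mul_left (h1.trans (h2.trans h5)) (Real.exp_pos _)
  have hlam0 : 0 < lam (φs t) j := hΛs0.trans_le hlamt
  have hlamΛ : ∀ l, Λ l ≤ lam (φs t) j := fun l => by
    have h1 := Finset.single_le_sum (f := Λ) (fun l _ => (hΛ0 l).le) (Finset.mem_univ l)
    have h2 : 0 < ε⁻¹ := inv_pos.2 hε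
    linarith
  have hMix : IsMixed (fr D (cof D (ι (φs t)))) (ar D μ (ι (φs t))) (lam (φs t) j) r v g c := by
    rw [hφs]
    exact ⟨hp, ho, hc0, hc1⟩
  have hLe : Le D (ι (φs t)) (δ * S) := by
    rw [hφs]
    exact Hs_le hC0 hC δ t fun l => (th_le' hη0 (t l)).trans
      ((PiLp.norm_apply_le t l).trans ht.le)
  refine ⟨φs t, hδV t (ht.trans_le hδ2), fun i z hz w => (hLe i z hz w).trans
    (mul_le_mul_of_nonneg_right hκ2 (norm_nonneg _)), hhalf t, r, v, g, c, hr, hMix, ?_,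
    fun l => ?_⟩
  · have : ε⁻¹ ≤ Λs := by linarith
    exact this.trans hlamt
  -- the estimate
  have hcov := hD.cover
  have hfinT : IsFiniteMeasure (ar D μ (Hs f η t)) := (tFin M _ _ (hSurf t)).1
  have hposT : 0 < (ar D μ (Hs f η t)).real univ := (fam_area hfam hSurf t 0).1
  obtain ⟨g1, g2, g3, -⟩ := fam_facts hfam hSurf t (EuclideanSpace.single l 1)
  have hnorm1 : ‖(EuclideanSpace.single l 1 : EuclideanSpace ℝ (Fin m))‖ = 1 := by simp
  rw [hnorm1, mul_one] at g2 g3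
  have hnv : ∀ p, ∫ x, v p x ^ 2 ∂(ar D μ (Hs f η t)) = 1 := fun p => by
    have := hMix.norm p
    rwa [hφs] at this
  have hng : ∀ p, ∫ x, ‖g p x‖ ^ 2 ∂(ar D μ (Hs f η t)) = lam (φs t) j := fun p => by
    rw [pair_norm (hSurf t) (hp p), hnv, mul_one]
  set κ' : ℝ := δ * (C l * ((η ^ 2)⁻¹ + 2 * ∑ l, C l)) with hκ'
  have hclose := Bs_close hη0 hC0 hC hηC hδ1 t ht.le l
  have hκ'Q : κ' ≤ δ * Q := mul_le_mul_of_nonneg_left (hQl l) hδ0.le
  have c1 : |∑ p, c p * PS.kap D (Bs f η t (EuclideanSpace.single l 1)) (ar D μ (Hs f η t)) (v p)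
      (g p) (lam (φs t) j) - ∑ p, c p * PS.kap D (f l) (ar D μ (Hs f η t)) (v p) (g p)
      (lam (φs t) j)| ≤ 6 * κ' := by
    refine conv_le hc0 hc1 fun p => ?_
    refine kap_close hcov hclose (C := max (4 * K) (2 * K)) g1 (fm l) (fun x => (g2 x).trans
      (le_max_right _ _)) (hCfb l) ((g3 _).mono (le_max_left _ _)) (hCfq l _) (hp p).memv
      (hp p).memg hlam0 (hnv p) (hng p)
  have c2 := mn_close hcov hclose (m := ar D μ (Hs f η t)) hposT g1 (fm l) g2 (hCfb l)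
  have c3 := mean_close hD (by rw [← hφs]; exact hι _ : IsField D (Hs f η t)) hκ1
    (by rw [← hφs]; exact hLe) (fm l) (hCfb l)
  have c4 : |∑ p, c p * PS.kap D (f l) (ar D μ (Hs f η t)) (v p) (g p) (lam (φs t) j) -
      ∑ p, c p * (2 * ((lam (φs t) j)⁻¹ * ∫ x, qq D (f l) (g p) x ∂(ar D μ (Hs f η t))))| ≤
      ε / 2 := by
    refine conv_le hc0 hc1 fun p => ?_
    rw [kap_obs hcov (fm l) (hCfb l) (hCfq l _) (hp p).memg]
    have h1 := hΛ l (Hs f η t) (by rw [← hφs]; exact hι _) (by rw [← hφs]; exact hhalf t)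
      (lam (φs t) j) (v p) (g p) (hlamΛ l) (hp p) (hnv p)
    exact h1
  have e1 : ∑ p, c p * (2 * ((lam (φs t) j)⁻¹ * ∫ x, qq D (f l) (g p) x ∂(ar D μ (Hs f η t)))) =
      2 * obs D (f l) (ar D μ (Hs f η t)) (lam (φs t) j) g c := by
    unfold obs
    rw [Finset.mul_sum]
    exact Finset.sum_congr rfl fun p _ => by ring
  rw [hφs]
  show |obs D (f l) (ar D μ (Hs f η t)) (lam (φs t) j) g c - mn D (f l) μ / 2| ≤ ε
  rw [e1] at c4
  rw [hq l] at c1
  have c5 : |mn D (f l) (ar D μ (Hs f η t)) - mn D (f l) μ| ≤ δ * (12 * S * Cs) := by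
    refine c3.trans ?_
    have := mul_le_mul_of_nonneg_left (hCfs l) (by positivity : 0 ≤ 12 * (δ * S))
    refine this.trans (le_of_eq (by ring))
  have htl : |t l| ≤ δ := (PiLp.norm_apply_le t l).trans ht.le
  have hκ6 : 8 * κ' ≤ δ * (8 * Q) := by linarith
  rw [abs_le] at c1 c2 c4 c5 htl ⊢
  constructor <;> linarith [c1.1, c1.2, c2.1, c2.2, c4.1, c4.2, c5.1, c5.2, htl.1, htl.2]

end Pool.Agent.J4.H45.PM
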