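import Pool.Agent.J4.H45.PM.Pair
import Pool.Agent.J4.H45.PM.Der2

/-!
# Forms on the eigenspaces
-/

set_option autoImplicit false

open Set Filter Topology MeasureTheory
open scoped Real NNReal
open Pool.Agent.Y262.QE Pool.Agent.Y264.QR Pool.Agent.J4.H45.PS

noncomputable section

namespace Pool.Agent.J4.H45.PM

section pt

variable {M : Type}

/-- the field of endomorphisms on the surface -/
def fldx (D : Data M) (b : Fin D.N → ℂ → ℂ →L[ℝ] ℂ) (x : M) : ℂ →L[ℝ] ℂ :=
  ∑ i, (D.pc i).indicator (fun x => b i (D.φ i x)) x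

theorem fldx_eq {D : Data M} (b : Fin D.N → ℂ → ℂ →L[ℝ] ℂ) {x : M} {i : Fin D.N}
    (hi : x ∈ D.pc i) : fldx D b x = b i (D.φ i x) := pc_sum D hi fun i x => b i (D.φ i x)

theorem trf_x {D : Data M} (hc : ∀ x, ∃ i, x ∈ D.U i) (b : Fin D.N → ℂ → ℂ →L[ℝ] ℂ) (x : M) :
    trf D b x = tr (fldx D b x) := by
  obtain ⟨i, hi⟩ := pc_ex D hc x
  rw [fldx_eq b hi]
  exact pc_sum D hi fun i x => tr (b i (D.φ i x))

theorem qd_x {D : Data M} (hc : ∀ x, ∃ i, x ∈ D.U i) (b : Fin D.N → ℂ → ℂ →L[ℝ] ℂ) (x : M)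
    (W : ℂ) : qd D b x W = tr (fldx D b x) * ‖W‖ ^ 2 - 2 * inner ℝ W (fldx D b x W) := by
  obtain ⟨i, hi⟩ := pc_ex D hc x
  unfold qd qf
  rw [fldx_eq b hi, pc_sum D hi]

theorem qq_x {D : Data M} (hc : ∀ x, ∃ i, x ∈ D.U i) (b : Fin D.N → ℂ → ℂ →L[ℝ] ℂ) (G : M → ℂ)
    (x : M) : qq D b G x = inner ℝ (G x) (fldx D b x (G x)) := by
  obtain ⟨i, hi⟩ := pc_ex D hc x
  unfold qq
  rw [fldx_eq b hi, pc_sum D hi]

theorem tr_lin (α β : ℝ) (b b' : ℂ →L[ℝ] ℂ) : tr (α • b + β • b') = α * tr b + β * tr b' := by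
  unfold tr
  simp only [ContinuousLinearMap.add_apply, ContinuousLinearMap.smul_apply, Complex.add_re,
    Complex.add_im, Complex.real_smul, Complex.mul_re, Complex.mul_im, Complex.ofReal_re,
    Complex.ofReal_im]
  ring

theorem fldx_lin {D : Data M} (hc : ∀ x, ∃ i, x ∈ D.U i) (α β : ℝ)
    (b b' : Fin D.N → ℂ → ℂ →L[ℝ] ℂ) (x : M) :
    fldx D (α • b + β • b') x = α • fldx D b x + β • fldx D b' x := by
  obtain ⟨i, hi⟩ := pc_ex D hc x
  rw [fldx_eq _ hi, fldx_eq _ hi, fldx_eq _ hi]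
  rfl

theorem trf_lin {D : Data M} (hc : ∀ x, ∃ i, x ∈ D.U i) (α β : ℝ)
    (b b' : Fin D.N → ℂ → ℂ →L[ℝ] ℂ) (x : M) :
    trf D (α • b + β • b') x = α * trf D b x + β * trf D b' x := by
  rw [trf_x hc, trf_x hc, trf_x hc, fldx_lin hc, tr_lin]

theorem qd_lin {D : Data M} (hc : ∀ x, ∃ i, x ∈ D.U i) (α β : ℝ)
    (b b' : Fin D.N → ℂ → ℂ →L[ℝ] ℂ) (x : M) (W : ℂ) :
    qd D (α • b + β • b') x W = α * qd D b x W + β * qd D b' x W := by
  rw [qd_x hc, qd_x hc, qd_x hc, fldx_lin hc, tr_lin, ContinuousLinearMap.add_apply,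
    ContinuousLinearMap.smul_apply, ContinuousLinearMap.smul_apply, inner_add_right,
    inner_smul_right, inner_smul_right]
  ring

end pt

section fam

variable {M : Type} [MetricSpace M] [CompactSpace M] [MeasurableSpace M] [BorelSpace M]
  [Nonempty M] {E : Type*} [NormedAddCommGroup E] [NormedSpace ℝ E] {D : Data M}
  {A : E → Fin D.N → ℂ → ℂ →L[ℝ] ℂ} {B : E → E →ₗ[ℝ] (Fin D.N → ℂ → ℂ →L[ℝ] ℂ)} {K : ℝ}
  {μ : E → Measure M}

theorem fam_facts (h : IsFamily D A B K) (hS : ∀ s, (fr D (A s)).IsSurf (μ s)) (s w : E) :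
    Measurable (trf D (B s w)) ∧ (∀ x, |trf D (B s w) x| ≤ 2 * (K * ‖w‖)) ∧
      (∀ m : Measure M, QD m (qd D (B s w)) (4 * (K * ‖w‖))) ∧ Continuous (trf D (B s w)) := by
  have hp := fam_path h s w
  have h1 := trf_meas hp (μ := fun t : ℝ => μ (s + t • w)) (fun t => hS _) 0
  have h2 := trf_bound hp (hS s).cover 0
  have h3 := fun m => qd_QD hp (μ := fun t : ℝ => μ (s + t • w)) (fun t => hS _) 0 m
  have h4 := trf_cont hp (μ := fun t : ℝ => μ (s + t • w)) (fun t => hS _) 0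
  simp only [zero_smul, add_zero] at h1 h2 h3 h4
  exact ⟨h1, h2, h3, h4⟩

theorem kap_lin (h : IsFamily D A B K) (hS : ∀ s, (fr D (A s)).IsSurf (μ s)) (s : E)
    {v : M → ℝ} {g : M → ℂ} (hv : MemLp v 2 (μ s)) (hg : MemLp g 2 (μ s)) (l : ℝ) (α β : ℝ)
    (w w' : E) : kap D (B s (α • w + β • w')) (μ s) v g l =
      α * kap D (B s w) (μ s) v g l + β * kap D (B s w') (μ s) v g l := by
  obtain ⟨f1, f2, f3, -⟩ := fam_facts h hS s w
  obtain ⟨f1', f2', f3', -⟩ := fam_facts h hS s w'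
  have hc := (hS s).cover
  have i1 : Integrable (fun x => trf D (B s w) x * ‖v x‖ ^ 2) (μ s) :=
    hv.norm.integrable_sq.bdd_mul f1.aestronglyMeasurable (Eventually.of_forall f2)
  have i2 : Integrable (fun x => trf D (B s w') x * ‖v x‖ ^ 2) (μ s) :=
    hv.norm.integrable_sq.bdd_mul f1'.aestronglyMeasurable (Eventually.of_forall f2')
  have i3 := quad_int (f3 (μ s)) hg
  have i4 := quad_int (f3' (μ s)) hg
  rw [kap_eq (D := D) hc, kap_eq (D := D) hc, kap_eq (D := D) hc, map_add, map_smul, map_smul]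
  simp only [trf_lin (D := D) hc, qd_lin (D := D) hc]
  have e1 : ∫ x, (α * trf D (B s w) x + β * trf D (B s w') x) * ‖v x‖ ^ 2 ∂μ s =
      α * ∫ x, trf D (B s w) x * ‖v x‖ ^ 2 ∂μ s + β * ∫ x, trf D (B s w') x * ‖v x‖ ^ 2 ∂μ s := by
    rw [← integral_const_mul, ← integral_const_mul, ← integral_add (i1.const_mul _)
      (i2.const_mul _)]
    exact integral_congr_ae (Eventually.of_forall fun x => by ring)
  have e2 : ∫ x, (α * qd D (B s w) x (g x) + β * qd D (B s w') x (g x)) ∂μ s =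
      α * ∫ x, qd D (B s w) x (g x) ∂μ s + β * ∫ x, qd D (B s w') x (g x) ∂μ s := by
    rw [← integral_const_mul, ← integral_const_mul, ← integral_add (i3.const_mul _)
      (i4.const_mul _)]
  rw [e1, e2]
  ring

theorem mn_lin (h : IsFamily D A B K) (hS : ∀ s, (fr D (A s)).IsSurf (μ s)) (s : E) (α β : ℝ)
    (w w' : E) : mn D (B s (α • w + β • w')) (μ s) =
      α * mn D (B s w) (μ s) + β * mn D (B s w') (μ s) := by
  obtain ⟨f1, f2, -, -⟩ := fam_facts h hS s w
  obtain ⟨f1', f2', -, -⟩ := fam_facts h hS s w'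
  have := (tFin M (μ s) (fr D (A s)) (hS s)).1
  have i1 : Integrable (trf D (B s w)) (μ s) :=
    Integrable.of_bound f1.aestronglyMeasurable _ (Eventually.of_forall f2)
  have i2 : Integrable (trf D (B s w')) (μ s) :=
    Integrable.of_bound f1'.aestronglyMeasurable _ (Eventually.of_forall f2')
  unfold mn
  rw [map_add, map_smul, map_smul]
  simp only [trf_lin (D := D) (hS s).cover]
  rw [integral_add (i1.const_mul _) (i2.const_mul _), integral_const_mul, integral_const_mul]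
  ring

end fam

section bil

variable {M : Type} [MeasurableSpace M] {V : Type} [NormedAddCommGroup V] [NormedSpace ℝ V]
  {μ : Measure M}

/-- the quadratic density `q` with the symmetric bilinear densities `b` on finitely many functions -/
theorem quad_bil {q : M → V → ℝ} {C : ℝ} (hq : QD μ q C) (b : M → V →ₗ[ℝ] V →ₗ[ℝ] ℝ)
    (hb : ∀ x W, b x W W = q x W) (hs : ∀ x W W', b x W W' = b x W' W) {ι : Type} [Fintype ι]
    (X : ι → M → V) (hX : ∀ l, MemLp (X l) 2 μ) (a : ι → ℝ) :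
    ∫ x, q x (∑ l, a l • X l x) ∂μ = ∑ l, ∑ l', a l * a l' * ∫ x, b x (X l x) (X l' x) ∂μ := by
  have hint : ∀ l l', Integrable (fun x => b x (X l x) (X l' x)) μ := by
    intro l l'
    have h1 := quad_int hq ((hX l).add (hX l'))
    have h2 := quad_int hq ((hX l).sub (hX l'))
    have h3 := (h1.sub h2).div_const 4
    refine h3.congr (Eventually.of_forall fun x => ?_)
    show (q x (X l x + X l' x) - q x (X l x - X l' x)) / 4 = b x (X l x) (X l' x)
    rw [← hb, ← hb]
    simp only [map_add, map_sub, LinearMap.add_apply, LinearMap.sub_apply]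
    rw [hs x (X l' x) (X l x)]
    ring
  have h1 : ∀ x, q x (∑ l, a l • X l x) = ∑ l, ∑ l', a l * a l' * b x (X l x) (X l' x) := by
    intro x
    rw [← hb, map_sum]
    simp only [map_smul, LinearMap.sum_apply, LinearMap.smul_apply, map_sum, smul_eq_mul,
      Finset.mul_sum, mul_assoc]
    exact Finset.sum_congr rfl fun l _ => Finset.sum_congr rfl fun l' _ => by
      rw [hs x (X l' x) (X l x)]
  simp only [h1]
  rw [integral_finset_sum _ fun l _ => integrable_finset_sum _ fun l' _ =>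
    (hint l l').const_mul _]
  refine Finset.sum_congr rfl fun l _ => ?_
  rw [integral_finset_sum _ fun l' _ => (hint l l').const_mul _]
  exact Finset.sum_congr rfl fun l' _ => integral_const_mul _ _

/-- the form on the space of the coefficients -/
def mat {ι : Type} [Fintype ι] (k : ι → ι → ℝ) :
    EuclideanSpace ℝ ι →ₗ[ℝ] EuclideanSpace ℝ ι →ₗ[ℝ] ℝ :=
  LinearMap.mk₂ ℝ (fun x y => ∑ l, ∑ l', x l * y l' * k l l')
    (fun x y z => by
      simp only [PiLp.add_apply, add_mul, Finset.sum_add_distrib])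
    (fun c x y => by
      simp only [PiLp.smul_apply, smul_eq_mul, Finset.mul_sum]
      refine Finset.sum_congr rfl fun l _ => Finset.sum_congr rfl fun l' _ => ?_
      ring)
    (fun x y z => by
      simp only [PiLp.add_apply, mul_add, add_mul, Finset.sum_add_distrib])
    (fun c x y => by
      simp only [PiLp.smul_apply, smul_eq_mul, Finset.mul_sum]
      refine Finset.sum_congr rfl fun l _ => Finset.sum_congr rfl fun l' _ => ?_
      ring)

theorem mat_apply {ι : Type} [Fintype ι] (k : ι → ι → ℝ) (x y : EuclideanSpace ℝ ι) :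
    mat k x y = ∑ l, ∑ l', x l * y l' * k l l' := rfl

theorem mat_cont {ι : Type} [Fintype ι] (k : ι → ι → ℝ) : Continuous fun x => mat k x x := by
  simp only [mat_apply]
  fun_prop

end bil

end Pool.Agent.J4.H45.PM
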