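import Pool.Agent.J4.H45.PS.Exi

/-!
# Eigenfunctions with their gradients
-/

set_option autoImplicit false

open Set Filter Topology MeasureTheory
open scoped Real NNReal
open Pool.Agent.Y262.QE Pool.Agent.Y264.QR Pool.Agent.J4.H45.PS

noncomputable section

namespace Pool.Agent.J4.H45.PM

/-- `v` is an eigenfunction (or zero) of the surface `D` with the area `μ` for the eigenvalue `lam`,
and `g` is its gradient in the orthonormal frames of `D`: the limit in `L²` of the gradients of `C¹`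
functions which tend to `v`; `∫ ⟪g, ∇F⟫ = lam ∫ v F` for all `C¹` functions `F` -/
structure IsPair {M : Type} [MeasurableSpace M] (D : Data M) (μ : Measure M) (lam : ℝ) (v : M → ℝ)
    (g : M → ℂ) : Prop where
  memv : MemLp v 2 μ
  memg : MemLp g 2 μ
  grad : ∃ F : ℕ → M → ℝ, (∀ k, D.C1 (F k)) ∧
    Tendsto (fun k => ∫ x, (F k x - v x) ^ 2 ∂μ) atTop (𝓝 0) ∧
    Tendsto (fun k => ∫ x, ‖D.gr (F k) x - g x‖ ^ 2 ∂μ) atTop (𝓝 0)
  weak : ∀ F : M → ℝ, D.C1 F → ∫ x, inner ℝ (g x) (D.gr F x) ∂μ = lam * ∫ x, v x * F x ∂μ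

variable {M : Type} [MetricSpace M] [CompactSpace M] [MeasurableSpace M] [BorelSpace M]
  {D : Data M} {μ : Measure M}

omit [MetricSpace M] [CompactSpace M] [BorelSpace M] in
theorem basis_pair {u : ℕ → M → ℝ} {G : ℕ → M → ℂ} {lam : ℕ → ℝ}
    (h : IsEigenbasis D μ u G lam) (j : ℕ) : IsPair D μ (lam j) (u j) (G j) :=
  ⟨(h.eig j).mem, h.memG j, h.grad j, h.weak j⟩

omit [MetricSpace M] [CompactSpace M] [BorelSpace M] in
/-- squares of sums in the limit -/
theorem lim_comb {E : Type*} [NormedAddCommGroup E] [NormedSpace ℝ E] {X X' : ℕ → M → E}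
    {Y Y' : M → E} (hX : ∀ k, MemLp (X k) 2 μ) (hX' : ∀ k, MemLp (X' k) 2 μ) (hY : MemLp Y 2 μ)
    (hY' : MemLp Y' 2 μ) (h : Tendsto (fun k => ∫ x, ‖X k x - Y x‖ ^ 2 ∂μ) atTop (𝓝 0))
    (h' : Tendsto (fun k => ∫ x, ‖X' k x - Y' x‖ ^ 2 ∂μ) atTop (𝓝 0)) (α β : ℝ) :
    Tendsto (fun k => ∫ x, ‖(α • X k x + β • X' k x) - (α • Y x + β • Y' x)‖ ^ 2 ∂μ) atTop
      (𝓝 0) := by
  have hb := (h.const_mul (2 * α ^ 2)).add (h'.const_mul (2 * β ^ 2))
  rw [mul_zero, mul_zero, add_zero] at hb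
  refine squeeze_zero (fun k => integral_nonneg fun x => sq_nonneg _) (fun k => ?_) hb
  have i1 : Integrable (fun x => ‖X k x - Y x‖ ^ 2) μ := ((hX k).sub hY).norm.integrable_sq
  have i2 : Integrable (fun x => ‖X' k x - Y' x‖ ^ 2) μ := ((hX' k).sub hY').norm.integrable_sq
  rw [← integral_const_mul, ← integral_const_mul, ← integral_add (i1.const_mul _)
    (i2.const_mul _)]
  refine integral_mono_of_nonneg (Eventually.of_forall fun x => sq_nonneg _)
    ((i1.const_mul _).add (i2.const_mul _)) (Eventually.of_forall fun x => ?_)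
  show ‖(α • X k x + β • X' k x) - (α • Y x + β • Y' x)‖ ^ 2 ≤
    2 * α ^ 2 * ‖X k x - Y x‖ ^ 2 + 2 * β ^ 2 * ‖X' k x - Y' x‖ ^ 2
  have e1 : (α • X k x + β • X' k x) - (α • Y x + β • Y' x) =
      α • (X k x - Y x) + β • (X' k x - Y' x) := by
    rw [smul_sub, smul_sub]; abel
  rw [e1]
  have h1 := norm_add_le (α • (X k x - Y x)) (β • (X' k x - Y' x))
  rw [norm_smul, norm_smul, Real.norm_eq_abs, Real.norm_eq_abs] at h1
  have h2 := pow_le_pow_left₀ (norm_nonneg _) h1 2
  have h3 : (|α| * ‖X k x - Y x‖ + |β| * ‖X' k x - Y' x‖) ^ 2 ≤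
      2 * (|α| * ‖X k x - Y x‖) ^ 2 + 2 * (|β| * ‖X' k x - Y' x‖) ^ 2 := by
    nlinarith [sq_nonneg (|α| * ‖X k x - Y x‖ - |β| * ‖X' k x - Y' x‖)]
  rw [mul_pow, mul_pow, sq_abs, sq_abs] at h3
  linarith

theorem pair_comb (hD : D.IsSurf μ) {lam : ℝ} {v v' : M → ℝ} {g g' : M → ℂ}
    (h : IsPair D μ lam v g) (h' : IsPair D μ lam v' g') (α β : ℝ) :
    IsPair D μ lam (fun x => α * v x + β * v' x) (fun x => α • g x + β • g' x) := by
  obtain ⟨F, hF1, hF2, hF3⟩ := h.grad
  obtain ⟨F', hF1', hF2', hF3'⟩ := h'.grad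
  have hlin := (tGr M μ D hD).2.2
  refine ⟨(h.memv.const_mul α).add (h'.memv.const_mul β),
    (h.memg.const_smul α).add (h'.memg.const_smul β),
    ⟨fun k x => α * F k x + β * F' k x, fun k => (hlin _ _ (hF1 k) (hF1' k) α β).1, ?_, ?_⟩,
    fun H hH => ?_⟩
  · have h1 := lim_comb (fun k => memF hD (hF1 k)) (fun k => memF hD (hF1' k)) h.memv h'.memv
      (by simpa only [Real.norm_eq_abs, sq_abs] using hF2)
      (by simpa only [Real.norm_eq_abs, sq_abs] using hF2') α β
    simpa only [Real.norm_eq_abs, sq_abs, smul_eq_mul] using h1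
  · have h1 := lim_comb (fun k => memgr hD (hF1 k)) (fun k => memgr hD (hF1' k)) h.memg h'.memg
      hF3 hF3' α β
    refine h1.congr fun k => ?_
    refine integral_congr_ae (Eventually.of_forall fun x => ?_)
    show ‖_‖ ^ 2 = ‖_‖ ^ 2
    rw [(hlin _ _ (hF1 k) (hF1' k) α β).2 x]
  · have i1 := (int_inner h.memg (memgr hD hH)).const_mul α
    have i2 := (int_inner h'.memg (memgr hD hH)).const_mul β
    have i3 : Integrable (fun x => v x * H x) μ := h.memv.integrable_mul (memF hD hH)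
    have i4 : Integrable (fun x => v' x * H x) μ := h'.memv.integrable_mul (memF hD hH)
    have e1 : ∫ x, inner ℝ (α • g x + β • g' x) (D.gr H x) ∂μ =
        α * ∫ x, inner ℝ (g x) (D.gr H x) ∂μ + β * ∫ x, inner ℝ (g' x) (D.gr H x) ∂μ := by
      rw [← integral_const_mul, ← integral_const_mul, ← integral_add i1 i2]
      refine integral_congr_ae (Eventually.of_forall fun x => ?_)
      show inner ℝ (α • g x + β • g' x) (D.gr H x) = _
      rw [inner_add_left, inner_smul_left, inner_smul_left]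
      simp
    have e2 : ∫ x, (α * v x + β * v' x) * H x ∂μ =
        α * ∫ x, v x * H x ∂μ + β * ∫ x, v' x * H x ∂μ := by
      rw [← integral_const_mul, ← integral_const_mul, ← integral_add (i3.const_mul _)
        (i4.const_mul _)]
      refine integral_congr_ae (Eventually.of_forall fun x => ?_)
      show (α * v x + β * v' x) * H x = α * (v x * H x) + β * (v' x * H x)
      ring
    rw [e1, e2, h.weak H hH, h'.weak H hH]
    ring

theorem pair_zero (hD : D.IsSurf μ) (lam : ℝ) : IsPair D μ lam (fun _ => 0) (fun _ => 0) := by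
  have hc : D.C1 (fun _ : M => (0 : ℝ)) := fun _ => contDiffOn_const
  have h0 : ∀ x, D.gr (fun _ : M => (0 : ℝ)) x = 0 := by
    have h1 := ((tGr M μ D hD).2.2 _ _ hc hc 0 0).2
    simpa only [mul_zero, add_zero, zero_smul] using h1
  refine ⟨MemLp.zero', MemLp.zero', ⟨fun _ _ => 0, fun _ => hc, ?_, ?_⟩, fun F hF => ?_⟩
  · simp
  · simp only [h0]
    simp
  · simp

theorem pair_sum (hD : D.IsSurf μ) {lam : ℝ} {ι : Type} (s : Finset ι) (v : ι → M → ℝ)
    (g : ι → M → ℂ) (h : ∀ p ∈ s, IsPair D μ lam (v p) (g p)) (c : ι → ℝ) :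
    IsPair D μ lam (fun x => ∑ p ∈ s, c p * v p x) (fun x => ∑ p ∈ s, c p • g p x) := by
  classical
  induction s using Finset.induction_on with
  | empty => simpa only [Finset.sum_empty] using pair_zero hD lam
  | insert a s ha ih =>
    have h1 := pair_comb hD (h a (Finset.mem_insert_self a s))
      (ih fun p hp => h p (Finset.mem_insert_of_mem hp)) (c a) 1
    simpa only [one_mul, one_smul, Finset.sum_insert ha] using h1

theorem pair_norm (hD : D.IsSurf μ) {lam : ℝ} {v : M → ℝ} {g : M → ℂ}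
    (h : IsPair D μ lam v g) : ∫ x, ‖g x‖ ^ 2 ∂μ = lam * ∫ x, v x ^ 2 ∂μ := by
  obtain ⟨F, hF1, hF2, hF3⟩ := h.grad
  have h1 := inner_lim h.memg (fun k => memgr hD (hF1 k)) h.memg hF3
  have h2 : Tendsto (fun k => ∫ x, ‖F k x - v x‖ ^ 2 ∂μ) atTop (𝓝 0) := by
    simp only [Real.norm_eq_abs, sq_abs]
    exact hF2
  have h3 := inner_lim h.memv (fun k => memF hD (hF1 k)) h.memv h2
  have e : ∀ a b : ℝ, inner ℝ a b = a * b := fun a b => by simp [mul_comm]
  simp only [e] at h3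
  have h4 : Tendsto (fun k => ∫ x, inner ℝ (g x) (D.gr (F k) x) ∂μ) atTop
      (𝓝 (lam * ∫ x, v x * v x ∂μ)) := by
    simp only [fun k => h.weak (F k) (hF1 k)]
    exact h3.const_mul _
  have h5 := tendsto_nhds_unique h1 h4
  simp only [real_inner_self_eq_norm_sq, ← sq] at h5
  exact h5

theorem pair_eig (hD : D.IsSurf μ) {lam : ℝ} {v : M → ℝ} {g : M → ℂ}
    (h : IsPair D μ lam v g) : D.IsEig μ lam v := by
  obtain ⟨F, hF1, hF2, hF3⟩ := h.grad
  refine ⟨h.memv, F, hF1, hF2, ?_, fun H hH => ?_⟩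
  · have hb : Tendsto (fun p : ℕ × ℕ => 2 * ∫ x, ‖D.gr (F p.1) x - g x‖ ^ 2 ∂μ +
        2 * ∫ x, ‖D.gr (F p.2) x - g x‖ ^ 2 ∂μ) atTop (𝓝 0) := by
      have h1 := (hF3.comp (tendsto_fst (f := (atTop : Filter ℕ)) (g := (atTop : Filter ℕ)))).const_mul 2
      have h2 := (hF3.comp (tendsto_snd (f := (atTop : Filter ℕ)) (g := (atTop : Filter ℕ)))).const_mul 2
      rw [← prod_atTop_atTop_eq]
      have h3 := h1.add h2
      rw [mul_zero, add_zero] at h3
      exact h3
    refine squeeze_zero (fun p => integral_nonneg fun x => sq_nonneg _) (fun p => ?_) hb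
    have i1 : ∀ k, Integrable (fun x => ‖D.gr (F k) x - g x‖ ^ 2) μ := fun k =>
      ((memgr hD (hF1 k)).sub h.memg).norm.integrable_sq
    rw [← integral_const_mul, ← integral_const_mul, ← integral_add ((i1 _).const_mul _)
      ((i1 _).const_mul _)]
    refine integral_mono_of_nonneg (Eventually.of_forall fun x => sq_nonneg _)
      (((i1 _).const_mul _).add ((i1 _).const_mul _)) (Eventually.of_forall fun x => ?_)
    show ‖D.gr (F p.1) x - D.gr (F p.2) x‖ ^ 2 ≤
      2 * ‖D.gr (F p.1) x - g x‖ ^ 2 + 2 * ‖D.gr (F p.2) x - g x‖ ^ 2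
    have h1 : ‖D.gr (F p.1) x - D.gr (F p.2) x‖ ≤
        ‖D.gr (F p.1) x - g x‖ + ‖D.gr (F p.2) x - g x‖ := by
      have := norm_sub_le (D.gr (F p.1) x - g x) (D.gr (F p.2) x - g x)
      rwa [sub_sub_sub_cancel_right] at this
    have h2 := pow_le_pow_left₀ (norm_nonneg _) h1 2
    nlinarith [sq_nonneg (‖D.gr (F p.1) x - g x‖ - ‖D.gr (F p.2) x - g x‖)]
  · have h1 := inner_lim (memgr hD hH) (fun k => memgr hD (hF1 k)) h.memg hF3
    rw [← h.weak H hH]
    have e1 : ∫ x, inner ℝ (g x) (D.gr H x) ∂μ = ∫ x, inner ℝ (D.gr H x) (g x) ∂μ :=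
      integral_congr_ae (Eventually.of_forall fun x => real_inner_comm _ _)
    rw [e1]
    refine h1.congr fun k => ?_
    exact integral_congr_ae (Eventually.of_forall fun x => real_inner_comm _ _)

/-- the kinetic and the potential density of an eigenfunction are nearly the same -/
theorem pair_comm (hD : D.IsSurf μ) {lam : ℝ} {v : M → ℝ} {g : M → ℂ}
    (h : IsPair D μ lam v g) (hv : ∫ x, v x ^ 2 ∂μ = 1) {β : M → ℝ} (hβ : D.C1 β) {C : ℝ}
    (hC0 : 0 ≤ C) (hC : ∀ x, ‖D.gr β x‖ ≤ C) :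
    |lam * ∫ x, β x * v x ^ 2 ∂μ - ∫ x, β x * ‖g x‖ ^ 2 ∂μ| ≤ C * Real.sqrt lam := by
  obtain ⟨hfin, -⟩ := tFin M μ D hD
  have := hfin
  obtain ⟨hβc, hβm, -⟩ := (tGr M μ D hD).1 β hβ
  obtain ⟨C', hC'⟩ := isCompact_univ.exists_bound_of_continuousOn hβc.continuousOn
  obtain ⟨F, hF1, hF2, hF3⟩ := h.grad
  have hG := h.memg
  have hu := h.memv
  have m1 : MemLp (fun x => β x • g x) 2 μ := by
    refine MemLp.of_le_mul (c := C') hG (hβc.aestronglyMeasurable.smul hG.aestronglyMeasurable)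
      (Eventually.of_forall fun x => ?_)
    rw [norm_smul]
    exact mul_le_mul_of_nonneg_right (hC' x (mem_univ x)) (norm_nonneg _)
  have m2 : MemLp (fun x => inner ℝ (g x) (D.gr β x)) 2 μ := by
    refine MemLp.of_le_mul (c := C) hG
      (hG.aestronglyMeasurable.inner hβm.aestronglyMeasurable)
      (Eventually.of_forall fun x => ?_)
    rw [Real.norm_eq_abs, mul_comm]
    exact (abs_real_inner_le_norm _ _).trans (mul_le_mul_of_nonneg_left (hC x) (norm_nonneg _))
  have m3 : MemLp (fun x => β x * v x) 2 μ := by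
    refine MemLp.of_le_mul (c := C') hu (hβc.aestronglyMeasurable.mul hu.aestronglyMeasurable)
      (Eventually.of_forall fun x => ?_)
    rw [norm_mul]
    exact mul_le_mul_of_nonneg_right (hC' x (mem_univ x)) (norm_nonneg _)
  have h2 : Tendsto (fun k => ∫ x, ‖F k x - v x‖ ^ 2 ∂μ) atTop (𝓝 0) := by
    simp only [Real.norm_eq_abs, sq_abs]
    exact hF2
  have e : ∀ a b : ℝ, inner ℝ a b = a * b := fun a b => by simp [mul_comm]
  have l1 := inner_lim m1 (fun k => memgr hD (hF1 k)) hG hF3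
  have l2 := inner_lim m2 (fun k => memF hD (hF1 k)) hu h2
  have l3 := inner_lim m3 (fun k => memF hD (hF1 k)) hu h2
  simp only [e] at l2 l3
  have hw : ∀ k, lam * ∫ x, β x * v x * F k x ∂μ =
      ∫ x, inner ℝ (β x • g x) (D.gr (F k) x) ∂μ +
        ∫ x, inner ℝ (g x) (D.gr β x) * F k x ∂μ := by
    intro k
    have h3 := h.weak _ (gr_mul hD hβ (hF1 k)).1
    have e1 : ∫ x, v x * (β x * F k x) ∂μ = ∫ x, β x * v x * F k x ∂μ :=
      integral_congr_ae (Eventually.of_forall fun x => by ring)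
    rw [← e1, ← h3]
    have i1 : Integrable (fun x => inner ℝ (β x • g x) (D.gr (F k) x)) μ :=
      int_inner m1 (memgr hD (hF1 k))
    have i2 : Integrable (fun x => inner ℝ (g x) (D.gr β x) * F k x) μ :=
      m2.integrable_mul (memF hD (hF1 k))
    rw [← integral_add i1 i2]
    refine integral_congr_ae (Eventually.of_forall fun x => ?_)
    show inner ℝ (g x) (D.gr (fun x => β x * F k x) x) =
      inner ℝ (β x • g x) (D.gr (F k) x) + inner ℝ (g x) (D.gr β x) * F k x
    rw [(gr_mul hD hβ (hF1 k)).2 x, inner_add_right, inner_smul_right, inner_smul_right,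
      inner_smul_left]
    simp only [conj_trivial]
    ring
  have h3 := tendsto_nhds_unique (l3.const_mul lam)
    ((l1.add l2).congr fun k => (hw k).symm)
  have e2 : ∫ x, β x * v x * v x ∂μ = ∫ x, β x * v x ^ 2 ∂μ :=
    integral_congr_ae (Eventually.of_forall fun x => by ring)
  have e3 : ∫ x, inner ℝ (β x • g x) (g x) ∂μ = ∫ x, β x * ‖g x‖ ^ 2 ∂μ :=
    integral_congr_ae (Eventually.of_forall fun x => by
      show inner ℝ (β x • g x) (g x) = _
      rw [inner_smul_left, real_inner_self_eq_norm_sq]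
      simp)
  rw [e2, e3] at h3
  rw [h3, add_sub_cancel_left]
  have h4 : |∫ x, inner ℝ (g x) (D.gr β x) * v x ∂μ| ≤ ‖m2.toLp‖ * ‖hu.toLp‖ := by
    have h5 := l2_inner m2 hu
    simp only [e] at h5
    rw [← h5]
    exact abs_real_inner_le_norm _ _
  refine h4.trans ?_
  have h5 : ‖hu.toLp‖ = 1 := by
    rw [← Real.sqrt_sq (norm_nonneg hu.toLp), l2_norm hu]
    simp only [Real.norm_eq_abs, sq_abs]
    rw [hv, Real.sqrt_one]
  have h6 : ‖m2.toLp‖ ≤ C * Real.sqrt lam := by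
    rw [← Real.sqrt_sq (norm_nonneg m2.toLp), l2_norm m2, ← Real.sqrt_sq hC0,
      ← Real.sqrt_mul (sq_nonneg C)]
    refine Real.sqrt_le_sqrt ?_
    have h7 := pair_norm hD h
    rw [hv, mul_one] at h7
    rw [← h7, ← integral_const_mul]
    refine integral_mono_of_nonneg (Eventually.of_forall fun x => sq_nonneg _)
      (hG.norm.integrable_sq.const_mul _) (Eventually.of_forall fun x => ?_)
    show ‖inner ℝ (g x) (D.gr β x)‖ ^ 2 ≤ C ^ 2 * ‖g x‖ ^ 2
    rw [← mul_pow]
    refine pow_le_pow_left₀ (norm_nonneg _) ?_ 2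
    rw [Real.norm_eq_abs, mul_comm]
    exact (abs_real_inner_le_norm _ _).trans (mul_le_mul_of_nonneg_left (hC x) (norm_nonneg _))
  rw [h5, mul_one]
  exact h6

end Pool.Agent.J4.H45.PM
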