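import Pool.Agent.J4.H45.PM.Crit

/-!
# Perturbations of a metric by fields of endomorphisms
-/

set_option autoImplicit false

open Set Filter Topology MeasureTheory
open scoped Real NNReal
open Pool.Agent.Y262.QE Pool.Agent.J4.H45.PS

noncomputable section

namespace Pool.Agent.J4.H45.PM

/-- `h` is a bounded continuous field of endomorphisms of the tangent spaces of the surface `D`,
written in the orthonormal frames: `(v, w) ↦ ⟪A i z v, h i z (A i z w)⟫` is a well-defined tensor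
field on the surface -/
structure IsField {M : Type} (D : Data M) (h : Fin D.N → ℂ → ℂ →L[ℝ] ℂ) : Prop where
  cont : ∀ i, ContinuousOn (h i) (D.T i)
  bdd : ∃ C, ∀ i, ∀ z ∈ D.T i, ∀ v, ‖h i z v‖ ≤ C * ‖v‖
  tens : ∀ i j, ∀ x ∈ D.U i, x ∈ D.U j → ∀ v w,
    inner ℝ (D.A j (D.φ j x) (fderiv ℝ (fun z => D.φ j (D.ψ i z)) (D.φ i x) v))
      (h j (D.φ j x) (D.A j (D.φ j x) (fderiv ℝ (fun z => D.φ j (D.ψ i z)) (D.φ i x) w))) =
    inner ℝ (D.A i (D.φ i x) v) (h i (D.φ i x) (D.A i (D.φ i x) w))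

/-- the coframes `(1 + h) A` -/
def cof {M : Type} (D : Data M) (h : Fin D.N → ℂ → ℂ →L[ℝ] ℂ) : Fin D.N → ℂ → ℂ →L[ℝ] ℂ :=
  fun i z => (ContinuousLinearMap.id ℝ ℂ + h i z).comp (D.A i z)

/-- the area of the metric `‖(1 + h) A v‖ ^ 2` -/
def ar {M : Type} [MeasurableSpace M] (D : Data M) (μ : Measure M)
    (h : Fin D.N → ℂ → ℂ →L[ℝ] ℂ) : Measure M :=
  μ.withDensity fun x => ENNReal.ofReal |(ContinuousLinearMap.id ℝ ℂ + fldx D h x).det|

section lin

theorem det_ne {S : ℂ →L[ℝ] ℂ} (h : ∀ v, ‖v‖ ≤ 2 * ‖S v‖) : S.det ≠ 0 := by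
  intro h0
  have h1 := LinearMap.bot_lt_ker_of_det_eq_zero (f := (S : ℂ →ₗ[ℝ] ℂ)) h0
  obtain ⟨v, hv, hv0⟩ := (Submodule.ne_bot_iff _).1 h1.ne'
  have h2 : S v = 0 := hv
  have h3 := h v
  rw [h2, norm_zero, mul_zero] at h3
  exact hv0 (norm_le_zero_iff.1 h3)

theorem small_low {b : ℂ →L[ℝ] ℂ} (h : ∀ v, ‖b v‖ ≤ 1 / 2 * ‖v‖) (v : ℂ) :
    ‖v‖ ≤ 2 * ‖(ContinuousLinearMap.id ℝ ℂ + b) v‖ := by
  have h1 : v = (ContinuousLinearMap.id ℝ ℂ + b) v - b v := by
    simp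
  have h2 := norm_sub_le ((ContinuousLinearMap.id ℝ ℂ + b) v) (b v)
  rw [← h1] at h2
  have h3 := h v
  linarith

theorem small_up {b : ℂ →L[ℝ] ℂ} (h : ∀ v, ‖b v‖ ≤ 1 / 2 * ‖v‖) (v : ℂ) :
    ‖(ContinuousLinearMap.id ℝ ℂ + b) v‖ ≤ 2 * ‖v‖ := by
  have h2 := norm_add_le v (b v)
  have h3 := h v
  have h4 := norm_nonneg v
  show ‖v + b v‖ ≤ 2 * ‖v‖
  linarith

theorem norm_pert {P Q b c : ℂ →L[ℝ] ℂ} (hP : P.det ≠ 0) (hn : ∀ v, ‖P v‖ = ‖Q v‖)
    (ht : ∀ v w, inner ℝ (P v) (b (P w)) = inner ℝ (Q v) (c (Q w))) (v : ℂ) :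
    ‖(ContinuousLinearMap.id ℝ ℂ + b) (P v)‖ = ‖(ContinuousLinearMap.id ℝ ℂ + c) (Q v)‖ := by
  have hQ : Q.det ≠ 0 := by
    intro h0
    have := det_sq hn
    rw [h0] at this
    exact hP (by simpa using this)
  have hbc : ‖b (P v)‖ = ‖c (Q v)‖ := by
    refine le_antisymm ?_ ?_
    · set w := P.inverse (b (P v)) with hw
      have h1 : P w = b (P v) := (inv_of_det P hP).self_apply_inverse _
      have h2 := ht w v
      rw [h1, real_inner_self_eq_norm_sq] at h2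
      have h3 := real_inner_le_norm (Q w) (c (Q v))
      rw [← h2, ← hn w, h1] at h3
      by_contra hcon
      rw [not_le] at hcon
      have h4 : 0 < ‖b (P v)‖ := (norm_nonneg _).trans_lt hcon
      nlinarith
    · set w := Q.inverse (c (Q v)) with hw
      have h1 : Q w = c (Q v) := (inv_of_det Q hQ).self_apply_inverse _
      have h2 := ht w v
      rw [h1, real_inner_self_eq_norm_sq] at h2
      have h3 := real_inner_le_norm (P w) (b (P v))
      rw [h2, hn w, h1] at h3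
      by_contra hcon
      rw [not_le] at hcon
      have h4 : 0 < ‖c (Q v)‖ := (norm_nonneg _).trans_lt hcon
      nlinarith
  have h1 : ‖(ContinuousLinearMap.id ℝ ℂ + b) (P v)‖ ^ 2 =
      ‖(ContinuousLinearMap.id ℝ ℂ + c) (Q v)‖ ^ 2 := by
    show ‖P v + b (P v)‖ ^ 2 = ‖Q v + c (Q v)‖ ^ 2
    rw [norm_add_sq_real, norm_add_sq_real, hn v, ht v v, hbc]
  exact (sq_eq_sq₀ (norm_nonneg _) (norm_nonneg _)).1 h1

end lin

section surf

variable {M : Type} [MetricSpace M] [CompactSpace M] [MeasurableSpace M] [BorelSpace M]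
  {D : Data M} {μ : Measure M}

/-- the perturbed metric is a metric -/
theorem pert_surf (hD : D.IsSurf μ) {h : Fin D.N → ℂ → ℂ →L[ℝ] ℂ} (hh : IsField D h)
    (hs : ∀ i, ∀ z ∈ D.T i, ∀ v, ‖h i z v‖ ≤ 1 / 2 * ‖v‖) : (fr D (cof D h)).IsSurf (ar D μ h) := by
  have hdet1 : ∀ i, ∀ z ∈ D.T i, (ContinuousLinearMap.id ℝ ℂ + h i z).det ≠ 0 := fun i z hz =>
    det_ne (small_low (hs i z hz))
  have hJ : ∀ i j, ∀ x ∈ D.U i, x ∈ D.U j → ((D.A j (D.φ j x)).comp
      (fderiv ℝ (fun z => D.φ j (D.ψ i z)) (D.φ i x))).det ^ 2 = (D.A i (D.φ i x)).det ^ 2 :=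
    fun i j x hi hj => det_sq fun v => (hD.tr i j x hi hj).2 v
  have hJ0 : ∀ i j, ∀ x ∈ D.U i, x ∈ D.U j → ((D.A j (D.φ j x)).comp
      (fderiv ℝ (fun z => D.φ j (D.ψ i z)) (D.φ i x))).det ≠ 0 := by
    intro i j x hi hj h0
    have h1 := hJ i j x hi hj
    rw [h0] at h1
    exact hD.det i _ (mem_image_of_mem _ hi) (by simpa using h1.symm)
  have htr : ∀ i j, ∀ x ∈ D.U i, x ∈ D.U j → ∀ v,
      ‖cof D h j (D.φ j x) (fderiv ℝ (fun z => D.φ j (D.ψ i z)) (D.φ i x) v)‖ =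
        ‖cof D h i (D.φ i x) v‖ := fun i j x hi hj v =>
    norm_pert (P := (D.A j (D.φ j x)).comp (fderiv ℝ (fun z => D.φ j (D.ψ i z)) (D.φ i x)))
      (Q := D.A i (D.φ i x)) (hJ0 i j x hi hj) (fun v => (hD.tr i j x hi hj).2 v)
      (fun v w => hh.tens i j x hi hj v w) v
  have hdd : ∀ i k, ∀ x ∈ D.U i, x ∈ D.U k →
      |(ContinuousLinearMap.id ℝ ℂ + h k (D.φ k x)).det| =
      |(ContinuousLinearMap.id ℝ ℂ + h i (D.φ i x)).det| := by
    intro i k x hi hk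
    have h1 := det_sq (P := (cof D h k (D.φ k x)).comp
      (fderiv ℝ (fun z => D.φ k (D.ψ i z)) (D.φ i x))) (Q := cof D h i (D.φ i x))
      fun v => htr i k x hi hk v
    have h2 := hJ i k x hi hk
    have e1 : (cof D h k (D.φ k x)).comp (fderiv ℝ (fun z => D.φ k (D.ψ i z)) (D.φ i x)) =
        (ContinuousLinearMap.id ℝ ℂ + h k (D.φ k x)).comp ((D.A k (D.φ k x)).comp
          (fderiv ℝ (fun z => D.φ k (D.ψ i z)) (D.φ i x))) := rfl
    rw [e1, det_mul, mul_pow, h2] at h1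
    unfold cof at h1
    rw [det_mul, mul_pow] at h1
    have h3 : (D.A i (D.φ i x)).det ^ 2 ≠ 0 := pow_ne_zero _ (hD.det i _ (mem_image_of_mem _ hi))
    exact (sq_eq_sq_iff_abs_eq_abs _ _).1 (mul_right_cancel₀ h3 h1)
  have hdc : ∀ i, ContinuousOn (fun z => |(ContinuousLinearMap.id ℝ ℂ + h i z).det|) (D.T i) :=
    fun i => (ContinuousLinearMap.continuous_det.comp_continuousOn
      (continuousOn_const.add (hh.cont i))).abs
  have hdx : ∀ x, |(ContinuousLinearMap.id ℝ ℂ + fldx D h x).det| =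
      ∑ i, (D.pc i).indicator (fun x => |(ContinuousLinearMap.id ℝ ℂ + h i (D.φ i x)).det|) x := by
    intro x
    obtain ⟨i, hi⟩ := pc_ex D hD.cover x
    rw [fldx_eq _ hi, pc_sum D hi]
  have hρm : Measurable fun x => |(ContinuousLinearMap.id ℝ ℂ + fldx D h x).det| := by
    simp only [hdx]
    exact fld_meas D hD (fun i z => |(ContinuousLinearMap.id ℝ ℂ + h i z).det|) hdc
  refine ⟨hD.openU, hD.cover, hD.left, hD.contφ, hD.openT, hD.contψ, fun i z hz => ?_, fun i => ?_,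
    fun i j x hi hj => ⟨(hD.tr i j x hi hj).1, htr i j x hi hj⟩, fun i s hsU hsm => ?_⟩
  · show ((ContinuousLinearMap.id ℝ ℂ + h i z).comp (D.A i z)).det ≠ 0
    rw [det_mul]
    exact mul_ne_zero (hdet1 i z hz) (hD.det i z hz)
  · show ContinuousOn (fun z => (ContinuousLinearMap.id ℝ ℂ + h i z).comp (D.A i z)) (D.T i)
    exact (continuousOn_const.add (hh.cont i)).clm_comp (hD.contA i)
  · have hρ : Measurable fun x => ENNReal.ofReal |(ContinuousLinearMap.id ℝ ℂ + fldx D h x).det| :=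
      hρm.ennreal_ofReal
    have h1 := (Pool.Agent.Y960.QE.int_chart M μ D hD i).1
      (s.indicator fun x => ENNReal.ofReal |(ContinuousLinearMap.id ℝ ℂ + fldx D h x).det|)
      (hρ.indicator hsm)
    have h2 : ∫⁻ x in D.U i, s.indicator
        (fun x => ENNReal.ofReal |(ContinuousLinearMap.id ℝ ℂ + fldx D h x).det|) x ∂μ =
        ar D μ h s := by
      unfold ar
      rw [lintegral_indicator hsm, Measure.restrict_restrict hsm, withDensity_apply _ hsm]
      have : s ∩ D.U i = s := inter_eq_left.2 hsU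
      rw [this]
    rw [← h2, h1]
    have him : ∀ z ∈ D.T i, (D.ψ i z ∈ s ↔ z ∈ D.φ i '' s) := by
      rintro z ⟨x, hx, rfl⟩
      have hl : D.ψ i (D.φ i x) = x := hD.left i x hx
      rw [hl]
      constructor
      · intro h; exact ⟨x, h, rfl⟩
      · rintro ⟨y, hy, hxy⟩
        have h3 : D.ψ i (D.φ i y) = D.ψ i (D.φ i x) := by rw [hxy]
        rw [hl, hD.left i y (hsU hy)] at h3
        exact h3 ▸ hy
    have hTm : MeasurableSet (D.T i) := (hD.openT i).measurableSet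
    have hsm' : MeasurableSet (D.φ i '' s) := Pool.Agent.Y960.QE.meas_im hD i hsU hsm
    have hsub : D.φ i '' s ⊆ D.T i := image_mono hsU
    have h4 : ∫⁻ z in D.φ i '' s, ENNReal.ofReal |(cof D h i z).det| =
        ∫⁻ z in D.T i, (D.φ i '' s).indicator (fun z => ENNReal.ofReal |(cof D h i z).det|) z := by
      rw [lintegral_indicator hsm', Measure.restrict_restrict hsm', inter_eq_left.2 hsub]
    show _ = ∫⁻ z in D.φ i '' s, ENNReal.ofReal |(cof D h i z).det|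
    rw [h4]
    refine setLIntegral_congr_fun hTm fun z hz => ?_
    show s.indicator (fun x =>
        ENNReal.ofReal |(ContinuousLinearMap.id ℝ ℂ + fldx D h x).det|) (D.ψ i z) *
        ENNReal.ofReal |(D.A i z).det| =
      (D.φ i '' s).indicator (fun z => ENNReal.ofReal |(cof D h i z).det|) z
    by_cases h5 : z ∈ D.φ i '' s
    · rw [indicator_of_mem h5, indicator_of_mem ((him z hz).2 h5)]
      obtain ⟨x, hx, rfl⟩ := h5
      have hl : D.ψ i (D.φ i x) = x := hD.left i x (hsU hx)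
      rw [hl, ← ENNReal.ofReal_mul (abs_nonneg _)]
      obtain ⟨k, hk⟩ := pc_ex D hD.cover x
      rw [fldx_eq _ hk, hdd i k x (hsU hx) (pc_sub D k hk), ← abs_mul, ← det_mul]
      rfl
    · rw [indicator_of_notMem h5, indicator_of_notMem fun h6 => h5 ((him z hz).1 h6), zero_mul]

end surf

end Pool.Agent.J4.H45.PM
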