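import Pool.Agent.J4.H45.PM.Fin

/-!
# Separability of the fields
-/

set_option autoImplicit false

open Set Filter Topology MeasureTheory
open scoped Real NNReal
open Pool.Agent.Y262.QE Pool.Agent.J4.H45.PS

noncomputable section

namespace Pool.Agent.J4.H45.PM

theorem norm_fld {P Q b c : ℂ →L[ℝ] ℂ} (hP : P.det ≠ 0) (hn : ∀ v, ‖P v‖ = ‖Q v‖)
    (ht : ∀ v w, inner ℝ (P v) (b (P w)) = inner ℝ (Q v) (c (Q w))) (v : ℂ) :
    ‖c (Q v)‖ ≤ ‖b (P v)‖ := by
  have hQ : Q.det ≠ 0 := by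
    intro h0
    have := det_sq hn
    rw [h0] at this
    exact hP (by simpa using this)
  set w := Q.inverse (c (Q v)) with hw
  have h1 : Q w = c (Q v) := (inv_of_det Q hQ).self_apply_inverse _
  have h2 := ht w v
  rw [h1, real_inner_self_eq_norm_sq] at h2
  have h3 := real_inner_le_norm (P w) (b (P v))
  rw [h2, hn w, h1] at h3
  by_contra hcon
  rw [not_le] at hcon
  have h4 : 0 < ‖c (Q v)‖ := (norm_nonneg _).trans_lt hcon
  nlinarith

variable {M : Type} [MetricSpace M] [CompactSpace M] [MeasurableSpace M] [BorelSpace M]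
  {D : Data M} {μ : Measure M}

/-- the bound of a field can be checked in any charts -/
theorem le_chart (hD : D.IsSurf μ) {h : Fin D.N → ℂ → ℂ →L[ℝ] ℂ} (hh : IsField D h) {κ : ℝ}
    (hx : ∀ x, ∃ k, x ∈ D.U k ∧ ∀ v, ‖h k (D.φ k x) v‖ ≤ κ * ‖v‖) : Le D h κ := by
  rintro i z ⟨x, hxi, rfl⟩ v
  obtain ⟨k, hxk, hk⟩ := hx x
  set P := (D.A k (D.φ k x)).comp (fderiv ℝ (fun z => D.φ k (D.ψ i z)) (D.φ i x)) with hP
  have hn : ∀ v, ‖P v‖ = ‖D.A i (D.φ i x) v‖ := fun v => (hD.tr i k x hxi hxk).2 v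
  have hQ0 : (D.A i (D.φ i x)).det ≠ 0 := hD.det i _ (mem_image_of_mem _ hxi)
  have hP0 : P.det ≠ 0 := by
    intro h0
    have := det_sq hn
    rw [h0] at this
    exact hQ0 (by simpa using this.symm)
  set v' := (D.A i (D.φ i x)).inverse v with hv'
  have hv : D.A i (D.φ i x) v' = v := (inv_of_det _ hQ0).self_apply_inverse _
  have h1 := norm_fld (b := h k (D.φ k x)) (c := h i (D.φ i x)) hP0 hn
    (fun v w => hh.tens i k x hxi hxk v w) v'
  rw [hv] at h1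
  have h2 := hk (P v')
  rw [hn v', hv] at h2
  exact h1.trans h2

/-- there is a sequence which is dense in the sense of the uniform norm -/
theorem dense_seq (hD : D.IsSurf μ) {F : Type} [AddCommGroup F] [Module ℝ F]
    (ι : F →ₗ[ℝ] (Fin D.N → ℂ → ℂ →L[ℝ] ℂ)) (hι : ∀ φ, IsField D (ι φ)) :
    ∃ ψ : ℕ → F, ∀ φ : F, ∀ κ : ℝ, 0 < κ → ∃ l, Le D (ι φ - ι (ψ l)) κ := by
  classical
  have h1 : ∀ x : M, ∃ (i : Fin D.N) (r : ℝ), 0 < r ∧ Metric.closedBall x r ⊆ D.U i := by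
    intro x
    obtain ⟨i, hi⟩ := hD.cover x
    obtain ⟨r, hr, h2⟩ := Metric.isOpen_iff.1 (hD.openU i) x hi
    exact ⟨i, r / 2, by positivity, (Metric.closedBall_subset_ball (by linarith)).trans h2⟩
  choose ci ra hra hball using h1
  obtain ⟨t, ht⟩ := isCompact_univ.elim_nhds_subcover (fun x => Metric.ball x (ra x))
    fun x _ => Metric.ball_mem_nhds x (hra x)
  haveI : ∀ k : t, CompactSpace (Metric.closedBall (k : M) (ra k)) := fun k =>
    isCompact_iff_compactSpace.1 Metric.isClosed_closedBall.isCompact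
  haveI : FiniteDimensional ℝ (ℂ →L[ℝ] ℂ) := inferInstance
  haveI : ProperSpace (ℂ →L[ℝ] ℂ) := FiniteDimensional.proper_real _
  let T : F → (k : t) → C(Metric.closedBall (k : M) (ra k), ℂ →L[ℝ] ℂ) := fun φ k =>
    ⟨fun y => ι φ (ci k) (D.φ (ci k) y), by
      have h2 : ContinuousOn (fun y => ι φ (ci k) (D.φ (ci k) y)) (D.U (ci k)) :=
        ((hι φ).cont (ci k)).comp (hD.contφ (ci k)) fun y hy => mem_image_of_mem _ hy
      exact (h2.mono (hball k)).restrict⟩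
  haveI : Nonempty (range T) := ⟨⟨T 0, mem_range_self 0⟩⟩
  have hsep : TopologicalSpace.SeparableSpace (range T) := inferInstance
  obtain ⟨d, hd⟩ := @TopologicalSpace.exists_dense_seq (range T) _ hsep _
  choose ψ hψ using fun l => (d l).2
  refine ⟨ψ, fun φ κ hκ => ?_⟩
  obtain ⟨l, h2⟩ := @DenseRange.exists_dist_lt (range T) _ ℕ d hd ⟨T φ, mem_range_self φ⟩ κ hκ
  refine ⟨l, ?_⟩
  have h3 : dist (T φ) (T (ψ l)) < κ := by
    rw [hψ l]
    exact h2
  rw [← map_sub]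
  refine le_chart hD (hι _) fun x => ?_
  obtain ⟨k, hk, hxk⟩ := mem_iUnion₂.1 (ht.2 (mem_univ x))
  have hxk' : x ∈ Metric.closedBall k (ra k) := Metric.ball_subset_closedBall hxk
  refine ⟨ci k, hball k hxk', fun v => ?_⟩
  have h4 := (dist_le_pi_dist (T φ) (T (ψ l)) ⟨k, hk⟩).trans h3.le
  have h5 := (ContinuousMap.dist_apply_le_dist (f := T φ ⟨k, hk⟩) (g := T (ψ l) ⟨k, hk⟩)
    ⟨x, hxk'⟩).trans h4
  rw [dist_eq_norm] at h5
  rw [map_sub]
  have h6 : ‖(ι φ (ci k) (D.φ (ci k) x) - ι (ψ l) (ci k) (D.φ (ci k) x)) v‖ ≤ κ * ‖v‖ :=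
    (ContinuousLinearMap.le_opNorm _ _).trans (mul_le_mul_of_nonneg_right h5 (norm_nonneg _))
  exact h6

end Pool.Agent.J4.H45.PM
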