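import Pool.Agent.J4.H45.PM.Fin
import Pool.Agent.J4.H45.PM.Sep

/-!
# Sequences of metrics
-/

set_option autoImplicit false

open Set Filter Topology MeasureTheory
open scoped Real NNReal
open Pool.Agent.Y262.QE Pool.Agent.J4.H45.PS

noncomputable section

namespace Pool.Agent.J4.H45.PM

/-- the field `β · id` -/
def sc {M : Type} (D : Data M) (β : M → ℝ) : Fin D.N → ℂ → ℂ →L[ℝ] ℂ :=
  fun i z => β (D.ψ i z) • ContinuousLinearMap.id ℝ ℂ

variable {M : Type} [MetricSpace M] [CompactSpace M] [MeasurableSpace M] [BorelSpace M]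
  [Nonempty M] {D : Data M} {μ : Measure M}

omit [Nonempty M] in
theorem sc_field (hD : D.IsSurf μ) {β : M → ℝ} (hβ : Continuous β) : IsField D (sc D β) := by
  obtain ⟨C, hC⟩ := isCompact_univ.exists_bound_of_continuousOn hβ.continuousOn
  refine ⟨fun i => ?_, ⟨C, fun i z _ v => ?_⟩, fun i j x hi hj v w => ?_⟩
  · exact ((hβ.comp_continuousOn (hD.contψ i)).smul continuousOn_const)
  · show ‖β (D.ψ i z) • v‖ ≤ C * ‖v‖
    rw [norm_smul]
    exact mul_le_mul_of_nonneg_right (hC _ (mem_univ _)) (norm_nonneg _)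
  · show inner ℝ _ (β (D.ψ j (D.φ j x)) • D.A j (D.φ j x) _) =
      inner ℝ _ (β (D.ψ i (D.φ i x)) • D.A i (D.φ i x) w)
    rw [hD.left i x hi, hD.left j x hj, inner_smul_right, inner_smul_right]
    have hn := (hD.tr i j x hi hj).2
    have h1 := hn (v + w)
    rw [map_add, map_add, map_add] at h1
    have h2 := congrArg (fun t => t ^ 2) h1
    rw [norm_add_sq_real, norm_add_sq_real, hn v, hn w] at h2
    have h3 : inner ℝ (D.A j (D.φ j x) (fderiv ℝ (fun z => D.φ j (D.ψ i z)) (D.φ i x) v))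
        (D.A j (D.φ j x) (fderiv ℝ (fun z => D.φ j (D.ψ i z)) (D.φ i x) w)) =
        inner ℝ (D.A i (D.φ i x) v) (D.A i (D.φ i x) w) := by linarith
    rw [h3]

omit [MetricSpace M] [CompactSpace M] [MeasurableSpace M] [BorelSpace M] [Nonempty M] in
theorem sc_fldx (hc : ∀ x, ∃ i, x ∈ D.U i) (hl : ∀ i, ∀ x ∈ D.U i, D.ψ i (D.φ i x) = x)
    (β : M → ℝ) (x : M) : fldx D (sc D β) x = β x • ContinuousLinearMap.id ℝ ℂ := by
  obtain ⟨i, hi⟩ := pc_ex D hc x
  rw [fldx_eq _ hi]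
  unfold sc
  rw [hl i x (pc_sub D i hi)]

omit [Nonempty M] in
theorem sc_trf (hD : D.IsSurf μ) (β : M → ℝ) (x : M) : trf D (sc D β) x = 2 * β x := by
  rw [trf_x hD.cover, sc_fldx hD.cover hD.left]
  unfold tr
  simp
  ring

omit [Nonempty M] in
theorem sc_qq (hD : D.IsSurf μ) (β : M → ℝ) (g : M → ℂ) (x : M) :
    qq D (sc D β) g x = β x * ‖g x‖ ^ 2 := by
  rw [qq_x hD.cover, sc_fldx hD.cover hD.left]
  show inner ℝ (g x) (β x • g x) = _
  rw [inner_smul_right, real_inner_self_eq_norm_sq]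

omit [Nonempty M] in
theorem sc_mn (hD : D.IsSurf μ) (β : M → ℝ) :
    mn D (sc D β) μ / 2 = (∫ x, β x ∂μ) / μ.real univ := by
  unfold mn
  simp only [sc_trf hD]
  rw [integral_const_mul]
  ring

theorem qq_int (hD : D.IsSurf μ) {h : Fin D.N → ℂ → ℂ →L[ℝ] ℂ} (hh : IsField D h) {m : Measure M}
    {g : M → ℂ} (hg : MemLp g 2 m) : Integrable (fun x => qq D h g x) m := by
  obtain ⟨fm, -, C, -, hC, hq⟩ := field_facts hD hh
  have i1 : Integrable (fun x => trf D h x * ‖g x‖ ^ 2) m :=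
    (hg.norm.integrable_sq).bdd_mul fm.aestronglyMeasurable (Eventually.of_forall hC)
  have i2 : Integrable (fun x => qf D h g x) m := by
    have := quad_int (hq m) hg
    simp only [← qf_eq (D := D) hD.cover] at this
    exact this
  refine ((i1.sub i2).div_const 2).congr (Eventually.of_forall fun x => ?_)
  show (trf D h x * ‖g x‖ ^ 2 - qf D h g x) / 2 = qq D h g x
  rw [qf_qq (D := D) hD.cover]
  ring

/-- the values of close fields in a mixed state are close -/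
theorem obs_close (hD : D.IsSurf μ) {k : Fin D.N → ℂ → ℂ →L[ℝ] ℂ} (hk : IsField D k)
    (hk2 : Le D k (1 / 2)) {h h' : Fin D.N → ℂ → ℂ →L[ℝ] ℂ} (hh : IsField D h)
    (hh' : IsField D h') {κ : ℝ} (hl : Le D (h - h') κ) {lam : ℝ} (h0 : 0 < lam) {r : ℕ}
    {v : Fin r → M → ℝ} {g : Fin r → M → ℂ} {c : Fin r → ℝ}
    (hM : IsMixed (fr D (cof D k)) (ar D μ k) lam r v g c) :
    |obs D h (ar D μ k) lam g c - obs D h' (ar D μ k) lam g c| ≤ κ := by
  unfold obs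
  refine conv_le hM.pos hM.sum fun p => ?_
  have hg := (hM.pair p).memg
  have ng : ∫ x, ‖g p x‖ ^ 2 ∂(ar D μ k) = lam := by
    rw [pair_norm (pert_surf hD hk hk2) (hM.pair p), hM.norm p, mul_one]
  rw [← mul_sub, abs_mul, abs_of_pos (inv_pos.2 h0), inv_mul_le_iff₀ h0,
    ← integral_sub (qq_int hD hh hg) (qq_int hD hh' hg), ← Real.norm_eq_abs]
  have h1 : ∫ x, κ * ‖g p x‖ ^ 2 ∂(ar D μ k) = lam * κ := by
    rw [integral_const_mul, ng, mul_comm]
  rw [← h1]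
  refine norm_integral_le_of_norm_le ((hg.norm.integrable_sq).const_mul _)
    (Eventually.of_forall fun x => ?_)
  rw [Real.norm_eq_abs]
  exact (dens_close hD.cover hl x).2.2 (g p)

/-- **Sequences of metrics.** -/
theorem seq (hD : D.IsSurf μ) {F : Type} [AddCommGroup F] [Module ℝ F] [TopologicalSpace F]
    [IsTopologicalAddGroup F] [ContinuousSMul ℝ F] [FirstCountableTopology F]
    (ι : F →ₗ[ℝ] (Fin D.N → ℂ → ℂ →L[ℝ] ℂ)) (hι : ∀ φ, IsField D (ι φ))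
    {u : F → ℕ → M → ℝ} {G : F → ℕ → M → ℂ} {lam : F → ℕ → ℝ}
    (hb : ∀ φ, Le D (ι φ) (1 / 2) →
      IsEigenbasis (fr D (cof D (ι φ))) (ar D μ (ι φ)) (u φ) (G φ) (lam φ))
    (R : ℕ → ℕ) (hR : Tendsto R atTop atTop) (hR1 : ∀ j, 1 ≤ R j) :
    ∃ (φ : ℕ → F) (r : ℕ → ℕ) (v : ∀ j, Fin (r j) → M → ℝ) (g : ∀ j, Fin (r j) → M → ℂ)
      (c : ∀ j, Fin (r j) → ℝ), Tendsto φ atTop (𝓝 0) ∧ (∀ j, Le D (ι (φ j)) (1 / 2)) ∧
      (∀ κ : ℝ, 0 < κ → ∀ᶠ j in atTop, Le D (ι (φ j)) κ) ∧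
      (∀ j, r j ≤ R j ∧ IsMixed (fr D (cof D (ι (φ j)))) (ar D μ (ι (φ j))) (lam (φ j) j) (r j)
        (v j) (g j) (c j)) ∧
      (∀ h, IsField D h → (∀ κ : ℝ, 0 < κ → ∃ φ, Le D (h - ι φ) κ) →
        Tendsto (fun j => obs D h (ar D μ (ι (φ j))) (lam (φ j) j) (g j) (c j)) atTop
          (𝓝 (mn D h μ / 2))) ∧
      ∀ β : M → ℝ, Continuous β → (∀ κ : ℝ, 0 < κ → ∃ φ, Le D (sc D β - ι φ) κ) →
        Tendsto (fun j => mass β (ar D μ (ι (φ j))) (v j) (c j)) atTop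
          (𝓝 ((∫ x, β x ∂μ) / μ.real univ)) := by
  classical
  obtain ⟨hfin, hpos⟩ := tFin M μ D hD
  haveI := hfin
  have hZ0 : 0 < μ.real univ :=
    ENNReal.toReal_pos (hpos univ isOpen_univ univ_nonempty).ne' (measure_ne_top _ _)
  have hcov := hD.cover
  obtain ⟨V, hV⟩ := (𝓝 (0 : F)).exists_antitone_basis
  obtain ⟨d, hd⟩ := dense_seq hD ι hι
  choose J hJ using fun n : ℕ => fin1 hD ι hι hb (fun l : Fin n => d l) (V n)
    (hV.1.mem_of_mem trivial) (1 / ((n : ℝ) + 1)) (by positivity)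
  have hR' : ∀ n : ℕ, ∃ K : ℕ, ∀ j, K ≤ j → n + 1 ≤ R j := fun n =>
    eventually_atTop.1 (hR.eventually_ge_atTop (n + 1))
  choose K hK using hR'
  set J' : ℕ → ℕ := fun n => max (J n) (K n) with hJ'
  set N : ℕ → ℕ := fun j => Nat.findGreatest (fun n => J' n ≤ j) j with hN
  have hNspec : ∀ j, J' 0 ≤ j → J' (N j) ≤ j := fun j hj =>
    Nat.findGreatest_spec (P := fun n => J' n ≤ j) (Nat.zero_le j) hj
  have hNle : ∀ n j, n ≤ j → J' n ≤ j → n ≤ N j := fun n j h1 h2 =>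
    Nat.le_findGreatest h1 h2
  have key : ∀ j, ∃ (φ : F) (r : ℕ) (v : Fin r → M → ℝ) (g : Fin r → M → ℂ) (c : Fin r → ℝ),
      r ≤ R j ∧ Le D (ι φ) (1 / 2) ∧
      IsMixed (fr D (cof D (ι φ))) (ar D μ (ι φ)) (lam φ j) r v g c ∧
      (J' 0 ≤ j → φ ∈ V (N j) ∧ Le D (ι φ) (1 / ((N j : ℝ) + 1)) ∧ (N j : ℝ) + 1 ≤ lam φ j ∧
        ∀ l, l < N j → |obs D (ι (d l)) (ar D μ (ι φ)) (lam φ j) g c -
          mn D (ι (d l)) μ / 2| ≤ 1 / ((N j : ℝ) + 1)) := by
    intro j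
    by_cases hj : J' 0 ≤ j
    · have h1 := hNspec j hj
      obtain ⟨φ, hφ, hle, hle2, r, v, g, c, hr, hM, hlam, hq⟩ :=
        hJ (N j) j ((le_max_left _ _).trans h1)
      refine ⟨φ, r, v, g, c, ?_, hle2, hM, fun _ => ⟨hφ, hle, ?_, fun l hl => hq ⟨l, hl⟩⟩⟩
      · exact (Pool.Agent.J4.H84.QM.le_tri hr).trans (hK (N j) j ((le_max_right _ _).trans h1))
      · rwa [one_div, inv_inv] at hlam
    · have h0 : Le D (ι 0) (1 / 2) := by
        rw [map_zero]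
        intro i z _ v
        show ‖(0 : ℂ)‖ ≤ _
        rw [norm_zero]
        positivity
      have hB := hb 0 h0
      refine ⟨0, 1, fun _ => u 0 j, fun _ => G 0 j, fun _ => 1, hR1 j, h0,
        ⟨fun _ => basis_pair hB j, fun p p' => ?_, fun _ => one_pos, by simp⟩,
        fun h => absurd h hj⟩
      rw [hB.orth, if_pos rfl, if_pos (Subsingleton.elim p p')]
  choose φ r v g c hr hle hM hφ using key
  have hev : ∀ n : ℕ, ∀ᶠ j in atTop, J' 0 ≤ j ∧ n ≤ N j := by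
    intro n
    filter_upwards [eventually_ge_atTop (max n (max (J' n) (J' 0)))] with j hj
    have h1 : J' 0 ≤ j := (le_max_right _ _).trans ((le_max_right _ _).trans hj)
    have h2 : J' n ≤ j := (le_max_left _ _).trans ((le_max_right _ _).trans hj)
    exact ⟨h1, hNle n j ((le_max_left _ _).trans hj) h2⟩
  have hsmall : ∀ κ : ℝ, 0 < κ → ∀ᶠ j in atTop, J' 0 ≤ j ∧ 1 / ((N j : ℝ) + 1) ≤ κ := by
    intro κ hκ
    obtain ⟨n₀, hn₀⟩ := exists_nat_one_div_lt hκ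
    filter_upwards [hev n₀] with j hj
    refine ⟨hj.1, le_trans ?_ hn₀.le⟩
    refine one_div_le_one_div_of_le (by positivity) ?_
    have : (n₀ : ℝ) ≤ N j := by exact_mod_cast hj.2
    linarith
  have hφlim : Tendsto φ atTop (𝓝 0) := by
    refine hV.1.tendsto_right_iff.2 fun n _ => ?_
    filter_upwards [hev n] with j hj
    exact hV.2 hj.2 (hφ j hj.1).1
  have hlamtop : ∀ Λ : ℝ, ∀ᶠ j in atTop, Λ ≤ lam (φ j) j := by
    intro Λ
    obtain ⟨n, hn⟩ := exists_nat_ge Λ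
    filter_upwards [hev n] with j hj
    have h1 := (hφ j hj.1).2.2.1
    have h2 : (n : ℝ) ≤ N j := by exact_mod_cast hj.2
    linarith
  have hobs : ∀ h, IsField D h → (∀ κ : ℝ, 0 < κ → ∃ φ, Le D (h - ι φ) κ) →
      Tendsto (fun j => obs D h (ar D μ (ι (φ j))) (lam (φ j) j) (g j) (c j)) atTop
        (𝓝 (mn D h μ / 2)) := by
    intro h hh hcl
    rw [Metric.tendsto_atTop]
    intro ε hε
    obtain ⟨φ', hφ'⟩ := hcl (ε / 8) (by positivity)
    obtain ⟨l, hl⟩ := hd φ' (ε / 8) (by positivity)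
    have hle4 : Le D (h - ι (d l)) (ε / 4) := by
      intro i z hz w
      have e1 : (h - ι (d l)) i z w = (h - ι φ') i z w + (ι φ' - ι (d l)) i z w := by
        show h i z w - ι (d l) i z w = (h i z w - ι φ' i z w) + (ι φ' i z w - ι (d l) i z w)
        abel
      rw [e1]
      have h1 := hφ' i z hz w
      have h2 := hl i z hz w
      have h3 := norm_add_le ((h - ι φ') i z w) ((ι φ' - ι (d l)) i z w)
      linarith
    obtain ⟨n₁, hn₁⟩ := eventually_atTop.1 ((hev (l + 1)).and ((hsmall (ε / 4)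
      (by positivity)).and (hlamtop 1)))
    refine ⟨n₁, fun j hj => ?_⟩
    obtain ⟨⟨h1, h2⟩, ⟨-, h3⟩, h4⟩ := hn₁ j hj
    have h5 := (hφ j h1).2.2.2 l h2
    have h6 := obs_close hD (hι (φ j)) (hle j) hh (hι (d l)) hle4 (by linarith) (hM j)
    obtain ⟨fm, -, C, -, hC, -⟩ := field_facts hD hh
    obtain ⟨fm', -, C', -, hC', -⟩ := field_facts hD (hι (d l))
    have h7 := mn_close hcov hle4 (m := μ) hZ0 fm fm' hC hC'
    rw [Real.dist_eq]
    rw [abs_le] at h5 h6 h7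
    rw [abs_lt]
    constructor <;> linarith [h5.1, h5.2, h6.1, h6.2, h7.1, h7.2]
  refine ⟨φ, r, v, g, c, hφlim, hle, fun κ hκ => ?_, fun j => ⟨hr j, hM j⟩, hobs,
    fun β hβ hcl => ?_⟩
  · filter_upwards [hsmall κ hκ] with j hj
    exact fun i z hz w => ((hφ j hj.1).2.1 i z hz w).trans
      (mul_le_mul_of_nonneg_right hj.2 (norm_nonneg _))
  · have h1 := hobs (sc D β) (sc_field hD hβ) hcl
    rw [sc_mn hD] at h1
    refine tendsto_of_tendsto_of_dist h1 ?_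
    rw [Metric.tendsto_atTop]
    intro ε hε
    obtain ⟨Λ, hΛ0, hΛ⟩ := comm_unif hD hβ (ε := ε / 2) (by positivity)
    obtain ⟨n₁, hn₁⟩ := eventually_atTop.1 (hlamtop Λ)
    refine ⟨n₁, fun j hj => ?_⟩
    have h2 : |mass β (ar D μ (ι (φ j))) (v j) (c j) -
        obs D (sc D β) (ar D μ (ι (φ j))) (lam (φ j) j) (g j) (c j)| ≤ ε / 2 := by
      unfold mass obs
      refine conv_le (hM j).pos (hM j).sum fun p => ?_
      simp only [sc_qq hD]
      exact hΛ (ι (φ j)) (hι _) (hle j) _ _ _ (hn₁ j hj) ((hM j).pair p) ((hM j).norm p)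
    rw [Real.dist_eq, sub_zero, abs_of_nonneg dist_nonneg, Real.dist_eq, abs_sub_comm]
    linarith

end Pool.Agent.J4.H45.PM
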