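import Pool.Agent.J4.H45.PM.Pert

/-!
# The families of perturbations
-/

set_option autoImplicit false

open Set Filter Topology MeasureTheory
open scoped Real NNReal
open Pool.Agent.Y262.QE Pool.Agent.J4.H45.PS

noncomputable section

namespace Pool.Agent.J4.H45.PM

variable {M : Type} {D : Data M}

theorem field_comb {h h' : Fin D.N → ℂ → ℂ →L[ℝ] ℂ} (hh : IsField D h) (hh' : IsField D h')
    (α β : ℝ) : IsField D (α • h + β • h') := by
  obtain ⟨C, hC⟩ := hh.bdd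
  obtain ⟨C', hC'⟩ := hh'.bdd
  refine ⟨fun i => ((hh.cont i).const_smul α).add ((hh'.cont i).const_smul β),
    ⟨|α| * C + |β| * C', fun i z hz v => ?_⟩, fun i j x hi hj v w => ?_⟩
  · show ‖α • h i z v + β • h' i z v‖ ≤ _
    refine (norm_add_le _ _).trans ?_
    rw [norm_smul, norm_smul, Real.norm_eq_abs, Real.norm_eq_abs, add_mul, mul_assoc, mul_assoc]
    exact add_le_add (mul_le_mul_of_nonneg_left (hC i z hz v) (abs_nonneg _))
      (mul_le_mul_of_nonneg_left (hC' i z hz v) (abs_nonneg _))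
  · show inner ℝ _ (α • h j _ _ + β • h' j _ _) = inner ℝ _ (α • h i _ _ + β • h' i _ _)
    rw [inner_add_right, inner_add_right, real_inner_smul_right, real_inner_smul_right,
      real_inner_smul_right, real_inner_smul_right, hh.tens i j x hi hj v w,
      hh'.tens i j x hi hj v w]

theorem field_zero : IsField D (0 : Fin D.N → ℂ → ℂ →L[ℝ] ℂ) := by
  refine ⟨fun i => continuousOn_const, ⟨0, fun i z hz v => ?_⟩, fun i j x hi hj v w => ?_⟩
  · show ‖(0 : ℂ)‖ ≤ _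
    simp
  · show inner ℝ _ (0 : ℂ) = inner ℝ _ (0 : ℂ)
    rw [inner_zero_right, inner_zero_right]

theorem field_sum {ι : Type} (S : Finset ι) {f : ι → Fin D.N → ℂ → ℂ →L[ℝ] ℂ}
    (hf : ∀ l, IsField D (f l)) (a : ι → ℝ) : IsField D (∑ l ∈ S, a l • f l) := by
  classical
  induction S using Finset.induction_on with
  | empty => rw [Finset.sum_empty]; exact field_zero
  | insert p S hp ih =>
    rw [Finset.sum_insert hp]
    have := field_comb (hf p) ih (a p) 1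
    rwa [one_smul] at this

section sin

variable {m : ℕ}

/-- the bounded parameter -/
def th (η y : ℝ) : ℝ := η * Real.sin (y / η)

theorem th_le {η : ℝ} (hη : 0 < η) (y : ℝ) : |th η y| ≤ η := by
  unfold th
  rw [abs_mul, abs_of_pos hη]
  have := mul_le_mul_of_nonneg_left (Real.abs_sin_le_one (y / η)) hη.le
  linarith

theorem th_le' {η : ℝ} (hη : 0 < η) (y : ℝ) : |th η y| ≤ |y| := by
  unfold th
  rw [abs_mul, abs_of_pos hη]
  have h1 : |Real.sin (y / η)| ≤ |y / η| := Real.abs_sin_le_abs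
  have := mul_le_mul_of_nonneg_left h1 hη.le
  refine this.trans (le_of_eq ?_)
  rw [abs_div, abs_of_pos hη]
  field_simp

theorem th_deriv {η : ℝ} (hη : 0 < η) (y : ℝ) : HasDerivAt (th η) (Real.cos (y / η)) y := by
  have h1 := ((hasDerivAt_id y).div_const η).sin.const_mul η
  refine h1.congr_deriv ?_
  simp only [id]
  field_simp

/-- the field with the parameter `s` -/
def Hs (f : Fin m → Fin D.N → ℂ → ℂ →L[ℝ] ℂ) (η : ℝ) (s : EuclideanSpace ℝ (Fin m)) :
    Fin D.N → ℂ → ℂ →L[ℝ] ℂ := ∑ l, th η (s l) • f l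

theorem Hs_app (f : Fin m → Fin D.N → ℂ → ℂ →L[ℝ] ℂ) (η : ℝ) (s : EuclideanSpace ℝ (Fin m))
    (i : Fin D.N) (z v : ℂ) : Hs f η s i z v = ∑ l, th η (s l) • f l i z v := by
  unfold Hs
  simp only [Finset.sum_apply, Pi.smul_apply, ContinuousLinearMap.sum_apply,
    ContinuousLinearMap.smul_apply]

/-- the velocity of the family -/
def Bs (f : Fin m → Fin D.N → ℂ → ℂ →L[ℝ] ℂ) (η : ℝ) (s : EuclideanSpace ℝ (Fin m)) :
    EuclideanSpace ℝ (Fin m) →ₗ[ℝ] (Fin D.N → ℂ → ℂ →L[ℝ] ℂ) where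
  toFun w := fun i z => (∑ l, (Real.cos (s l / η) * w l) • f l i z).comp
    (ContinuousLinearMap.id ℝ ℂ + Hs f η s i z).inverse
  map_add' w w' := by
    funext i z
    ext1 v
    simp only [ContinuousLinearMap.comp_apply, ContinuousLinearMap.sum_apply,
      ContinuousLinearMap.smul_apply, PiLp.add_apply, mul_add, add_smul, Finset.sum_add_distrib,
      Pi.add_apply, ContinuousLinearMap.add_apply]
  map_smul' c w := by
    funext i z
    ext1 v
    simp only [ContinuousLinearMap.comp_apply, ContinuousLinearMap.sum_apply,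
      ContinuousLinearMap.smul_apply, PiLp.smul_apply, smul_eq_mul, RingHom.id_apply,
      Pi.smul_apply, Finset.smul_sum, smul_smul]
    refine Finset.sum_congr rfl fun l _ => ?_
    congr 1
    ring

theorem Bs_app (f : Fin m → Fin D.N → ℂ → ℂ →L[ℝ] ℂ) (η : ℝ) (s w : EuclideanSpace ℝ (Fin m))
    (i : Fin D.N) (z v : ℂ) : Bs f η s w i z v = ∑ l, (Real.cos (s l / η) * w l) •
      f l i z ((ContinuousLinearMap.id ℝ ℂ + Hs f η s i z).inverse v) := by
  show (∑ l, (Real.cos (s l / η) * w l) • f l i z)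
    ((ContinuousLinearMap.id ℝ ℂ + Hs f η s i z).inverse v) = _
  simp only [ContinuousLinearMap.sum_apply, ContinuousLinearMap.smul_apply]

variable {f : Fin m → Fin D.N → ℂ → ℂ →L[ℝ] ℂ} {C : Fin m → ℝ} {η : ℝ}

theorem Hs_le (hC0 : ∀ l, 0 ≤ C l)
    (hC : ∀ l i, ∀ z ∈ D.T i, ∀ v, ‖f l i z v‖ ≤ C l * ‖v‖) (κ : ℝ) (s : EuclideanSpace ℝ (Fin m))
    (hs : ∀ l, |th η (s l)| ≤ κ) (i : Fin D.N) (z : ℂ) (hz : z ∈ D.T i) (v : ℂ) :
    ‖Hs f η s i z v‖ ≤ κ * (∑ l, C l) * ‖v‖ := by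
  rw [Hs_app, Finset.mul_sum, Finset.sum_mul]
  refine (norm_sum_le _ _).trans (Finset.sum_le_sum fun l _ => ?_)
  rw [norm_smul, Real.norm_eq_abs, mul_assoc]
  exact mul_le_mul (hs l) (hC l i z hz v) (norm_nonneg _) ((abs_nonneg _).trans (hs l))

theorem Hs_half (hη : 0 < η) (hC0 : ∀ l, 0 ≤ C l)
    (hC : ∀ l i, ∀ z ∈ D.T i, ∀ v, ‖f l i z v‖ ≤ C l * ‖v‖) (hηC : η * ∑ l, C l ≤ 1 / 2)
    (s : EuclideanSpace ℝ (Fin m)) (i : Fin D.N) (z : ℂ) (hz : z ∈ D.T i) (v : ℂ) :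
    ‖Hs f η s i z v‖ ≤ 1 / 2 * ‖v‖ :=
  (Hs_le hC0 hC η s (fun l => th_le hη _) i z hz v).trans
    (mul_le_mul_of_nonneg_right hηC (norm_nonneg _))

theorem inv_half (hη : 0 < η) (hC0 : ∀ l, 0 ≤ C l)
    (hC : ∀ l i, ∀ z ∈ D.T i, ∀ v, ‖f l i z v‖ ≤ C l * ‖v‖) (hηC : η * ∑ l, C l ≤ 1 / 2)
    (s : EuclideanSpace ℝ (Fin m)) (i : Fin D.N) (z : ℂ) (hz : z ∈ D.T i) :
    (∀ v, (ContinuousLinearMap.id ℝ ℂ + Hs f η s i z).inverse
      ((ContinuousLinearMap.id ℝ ℂ + Hs f η s i z) v) = v) ∧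
    (∀ v, (ContinuousLinearMap.id ℝ ℂ + Hs f η s i z)
      ((ContinuousLinearMap.id ℝ ℂ + Hs f η s i z).inverse v) = v) ∧
    ∀ v, ‖(ContinuousLinearMap.id ℝ ℂ + Hs f η s i z).inverse v‖ ≤ 2 * ‖v‖ := by
  have h1 := small_low (Hs_half hη hC0 hC hηC s i z hz)
  have h2 := inv_of_det _ (det_ne h1)
  refine ⟨fun v => h2.inverse_apply_self v, fun v => h2.self_apply_inverse v, fun v => ?_⟩
  have h3 := h1 ((ContinuousLinearMap.id ℝ ℂ + Hs f η s i z).inverse v)
  rwa [h2.self_apply_inverse v] at h3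

theorem sin_family (hη : 0 < η) (hC0 : ∀ l, 0 ≤ C l)
    (hC : ∀ l i, ∀ z ∈ D.T i, ∀ v, ‖f l i z v‖ ≤ C l * ‖v‖) (hηC : η * ∑ l, C l ≤ 1 / 2) :
    IsFamily D (fun s => cof D (Hs f η s)) (Bs f η) (2 * ∑ l, C l) := by
  have hCs : 0 ≤ ∑ l, C l := Finset.sum_nonneg fun l _ => hC0 l
  refine ⟨by positivity, fun s w i z hz a => ?_, fun s ε hε => ?_⟩
  · obtain ⟨-, -, h3⟩ := inv_half hη hC0 hC hηC s i z hz
    rw [Bs_app]
    refine (norm_sum_le _ _).trans ?_
    have h4 : ∀ l, ‖(Real.cos (s l / η) * w l) •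
        f l i z ((ContinuousLinearMap.id ℝ ℂ + Hs f η s i z).inverse a)‖ ≤
        C l * (2 * ‖w‖ * ‖a‖) := by
      intro l
      rw [norm_smul, Real.norm_eq_abs, abs_mul]
      have e1 : |Real.cos (s l / η)| * |w l| ≤ 1 * ‖w‖ :=
        mul_le_mul (Real.abs_cos_le_one _) (PiLp.norm_apply_le w l) (abs_nonneg _) zero_le_one
      have e2 := (hC l i z hz _).trans (mul_le_mul_of_nonneg_left (h3 a) (hC0 l))
      refine (mul_le_mul e1 e2 (norm_nonneg _) (by positivity)).trans (le_of_eq ?_)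
      ring
    refine (Finset.sum_le_sum fun l _ => h4 l).trans (le_of_eq ?_)
    rw [← Finset.sum_mul]
    ring
  · set ε' : ℝ := ε / (2 * ((∑ l, C l) + 1)) with hε'
    have hε'0 : 0 < ε' := by positivity
    have hδ : ∀ l, ∃ δ : ℝ, 0 < δ ∧ ∀ b : ℝ, |b| < δ →
        |th η (s l + b) - th η (s l) - Real.cos (s l / η) * b| ≤ ε' * |b| := by
      intro l
      have h1 := (hasDerivAt_iff_isLittleO_nhds_zero.1 (th_deriv hη (s l))).def hε'0
      obtain ⟨δ, hδ, h2⟩ := Metric.eventually_nhds_iff.1 h1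
      refine ⟨δ, hδ, fun b hb => ?_⟩
      have h3 := h2 (y := b) (by rwa [Real.dist_eq, sub_zero])
      rw [smul_eq_mul, Real.norm_eq_abs, Real.norm_eq_abs, mul_comm b] at h3
      exact h3
    choose δ hδ0 hδ1 using hδ
    set δ₀ : ℝ := (∑ l, (δ l)⁻¹ + 1)⁻¹ with hδ₀
    have hinv : ∀ l, 0 ≤ (δ l)⁻¹ := fun l => inv_nonneg.2 (hδ0 l).le
    have hsi : 0 ≤ ∑ l, (δ l)⁻¹ := Finset.sum_nonneg fun l _ => hinv l
    have hδ₀0 : 0 < δ₀ := by positivity
    have hδ₀1 : ∀ l, δ₀ ≤ δ l := by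
      intro l
      rw [hδ₀, inv_le_comm₀ (by positivity) (hδ0 l)]
      have := Finset.single_le_sum (f := fun l => (δ l)⁻¹) (fun l _ => hinv l) (Finset.mem_univ l)
      linarith
    refine ⟨δ₀, hδ₀0, fun w hw i z hz v => ?_⟩
    obtain ⟨h1, -, -⟩ := inv_half hη hC0 hC hηC s i z hz
    have hlow := small_low (Hs_half hη hC0 hC hηC s i z hz) (D.A i z v)
    have e1 : cof D (Hs f η (s + w)) i z v - cof D (Hs f η s) i z v -
        Bs f η s w i z (cof D (Hs f η s) i z v) =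
        ∑ l, (th η (s l + w l) - th η (s l) - Real.cos (s l / η) * w l) • f l i z (D.A i z v) := by
      have c1 : ∀ s', cof D (Hs f η s') i z v = D.A i z v + Hs f η s' i z (D.A i z v) :=
        fun s' => rfl
      have c2 : Bs f η s w i z (cof D (Hs f η s) i z v) =
          ∑ l, (Real.cos (s l / η) * w l) • f l i z (D.A i z v) := by
        rw [Bs_app]
        have c3 : cof D (Hs f η s) i z v =
            (ContinuousLinearMap.id ℝ ℂ + Hs f η s i z) (D.A i z v) := rfl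
        rw [c3, h1]
      rw [c2, c1, c1, Hs_app, Hs_app, add_sub_add_left_eq_sub, ← Finset.sum_sub_distrib,
        ← Finset.sum_sub_distrib]
      refine Finset.sum_congr rfl fun l _ => ?_
      rw [PiLp.add_apply, sub_smul, sub_smul]
    rw [e1]
    refine (norm_sum_le _ _).trans ?_
    have e2 : ∀ l, ‖(th η (s l + w l) - th η (s l) - Real.cos (s l / η) * w l) •
        f l i z (D.A i z v)‖ ≤ C l * (ε' * ‖w‖ * ‖D.A i z v‖) := by
      intro l
      rw [norm_smul, Real.norm_eq_abs]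
      have d0 : |w l| ≤ ‖w‖ := PiLp.norm_apply_le w l
      have d1 := hδ1 l (w l) ((d0.trans_lt hw).trans_le (hδ₀1 l))
      have d2 := d1.trans (mul_le_mul_of_nonneg_left d0 hε'0.le)
      refine (mul_le_mul d2 (hC l i z hz _) (norm_nonneg _) (by positivity)).trans (le_of_eq ?_)
      ring
    refine (Finset.sum_le_sum fun l _ => e2 l).trans ?_
    rw [← Finset.sum_mul]
    have hlow' : ‖D.A i z v‖ ≤ 2 * ‖cof D (Hs f η s) i z v‖ := hlow
    have e3 : (∑ l, C l) * (ε' * ‖w‖ * ‖D.A i z v‖) ≤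
        (∑ l, C l) * (ε' * ‖w‖ * (2 * ‖cof D (Hs f η s) i z v‖)) :=
      mul_le_mul_of_nonneg_left (mul_le_mul_of_nonneg_left hlow' (by positivity)) hCs
    refine e3.trans ?_
    have e4 : (∑ l, C l) * (ε' * ‖w‖ * (2 * ‖cof D (Hs f η s) i z v‖)) =
        ((∑ l, C l) / ((∑ l, C l) + 1)) * (ε * ‖w‖ * ‖cof D (Hs f η s) i z v‖) := by
      rw [hε']
      field_simp
    rw [e4]
    have e5 : (∑ l, C l) / ((∑ l, C l) + 1) ≤ 1 := by
      rw [div_le_one (by positivity)]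
      linarith
    have := mul_le_mul_of_nonneg_right e5
      (by positivity : 0 ≤ ε * ‖w‖ * ‖cof D (Hs f η s) i z v‖)
    linarith

end sin

end Pool.Agent.J4.H45.PM
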